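import Pool.Agent.H869Z.Der

/-! Abstract membership computation for the family of five lines. -/

namespace Pool.Agent.H869Z.AMem

open Pool.Agent.H869Z.Der

variable {O : Type*} [CommRing O]

def cc (x y : O) : O := x ^ 2 * y + x * y ^ 2 - 2 * y ^ 3
def cx (x y : O) : O := 2 * x * y + y ^ 2
def cy (x y : O) : O := x ^ 2 + 2 * x * y - 6 * y ^ 2
def qq (x y e : O) : O := x ^ 2 + e * y ^ 2
def JJ (x y e : O) : O := -x ^ 3 - 2 * x ^ 2 * y + (2 * e + 6) * x * y ^ 2 + e * y ^ 3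

/-- `e` can be cancelled modulo `I`. -/
def Can (I : Ideal O) (e : O) : Prop := ∀ g, e * g ∈ I → g ∈ I

lemma Can.mul {I : Ideal O} {a b : O} (ha : Can I a) (hb : Can I b) : Can I (a * b) := by
  intro g hg
  apply hb
  apply ha
  rwa [← mul_assoc]

lemma Can.colon {I : Ideal O} {a : O} (ha : Can I a) (r : O) :
    Can (I.comap (RingHom.id O) |>.colon {r}) a := by
  intro g hg
  rw [Submodule.mem_colon_singleton] at hg ⊢
  simp only [Ideal.comap_id, smul_eq_mul] at hg ⊢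
  apply ha
  rwa [← mul_assoc]

lemma mem_colon {I : Ideal O} {r g : O} :
    g ∈ (I.comap (RingHom.id O) |>.colon {r}) ↔ g * r ∈ I := by
  rw [Submodule.mem_colon_singleton]
  simp

lemma pow_le (x y : O) (k : ℕ) : ∀ K : Ideal O, (∀ i j, i + j = k → x ^ i * y ^ j ∈ K) →
    Ideal.span {x, y} ^ k ≤ K := by
  induction k with
  | zero =>
    intro K h
    have := h 0 0 rfl
    simp only [pow_zero, mul_one] at this
    rw [(Ideal.eq_top_iff_one K).mpr this]
    exact le_top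
  | succ k ih =>
    intro K h
    rw [pow_succ, Ideal.mul_le]
    intro a ha b hb
    obtain ⟨u, v, rfl⟩ := Ideal.mem_span_pair.mp hb
    have h1 : a * x ∈ K := by
      rw [← mem_colon]
      apply ih _ _ ha
      intro i j hij
      rw [mem_colon]
      have := h (i + 1) j (by omega)
      convert this using 1
      ring
    have h2 : a * y ∈ K := by
      rw [← mem_colon]
      apply ih _ _ ha
      intro i j hij
      rw [mem_colon]
      have := h i (j + 1) (by omega)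
      convert this using 1
      ring
    have : a * (u * x + v * y) = u * (a * x) + v * (a * y) := by ring
    rw [this]
    exact K.add_mem (K.mul_mem_left _ h1) (K.mul_mem_left _ h2)

lemma x_mem (x y : O) : x ∈ Ideal.span {x, y} := Ideal.subset_span (by simp)
lemma y_mem (x y : O) : y ∈ Ideal.span {x, y} := Ideal.subset_span (by simp)

lemma mon_mem (x y : O) (i j : ℕ) : x ^ i * y ^ j ∈ Ideal.span {x, y} ^ (i + j) := by
  rw [pow_add]
  exact Ideal.mul_mem_mul (Ideal.pow_mem_pow (x_mem x y) i) (Ideal.pow_mem_pow (y_mem x y) j)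

lemma der_pow_mem {d : O →+ O} (hd : IsDer (RingHom.id O) d) (m : Ideal O) (k : ℕ) :
    ∀ g ∈ m ^ k, ∀ b ∈ m, b * d g ∈ m ^ k := by
  induction k with
  | zero => intro g _ b _; simp
  | succ k ih =>
    intro g hg
    rw [pow_succ] at hg
    refine Submodule.mul_induction_on hg ?_ ?_
    · intro a ha b' hb' b hb
      rw [hd, pow_succ]
      simp only [RingHom.id_apply]
      have : b * (a * d b' + b' * d a) = a * (b * d b') + (b * d a) * b' := by ring
      rw [this]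
      exact Ideal.add_mem _ (Ideal.mul_mem_mul ha (m.mul_mem_right _ hb))
        (Ideal.mul_mem_mul (ih a ha b hb) hb')
    · intro u v hu hv b hb
      rw [map_add, mul_add]
      exact Ideal.add_mem _ (hu b hb) (hv b hb)

lemma L5 (x y e : O) (K : Ideal O) (h3 : Can K 3) (h1 : Can K (e + 1)) (h4 : Can K (e + 4))
    (a0 : cc x y * x ^ 2 ∈ K) (a1 : cc x y * (x * y) ∈ K) (a2 : cc x y * y ^ 2 ∈ K)
    (b0 : JJ x y e * x ^ 2 ∈ K) (b1 : JJ x y e * (x * y) ∈ K) (b2 : JJ x y e * y ^ 2 ∈ K) :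
    Ideal.span {x, y} ^ 5 ≤ K := by
  have key : ∀ g u0 u1 u2 v0 v1 v2 : O, 3 * (3 * ((e + 1) * ((e + 4) * g))) =
      u0 * (cc x y * x ^ 2) + u1 * (cc x y * (x * y)) + u2 * (cc x y * y ^ 2)
      + v0 * (JJ x y e * x ^ 2) + v1 * (JJ x y e * (x * y)) + v2 * (JJ x y e * y ^ 2) → g ∈ K := by
    intro g u0 u1 u2 v0 v1 v2 h
    apply h4; apply h1; apply h3; apply h3
    rw [h]
    refine K.add_mem (K.add_mem (K.add_mem (K.add_mem (K.add_mem ?_ ?_) ?_) ?_) ?_) ?_ <;>
      apply K.mul_mem_left <;> assumption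
  apply pow_le
  intro i j hij
  have hi : i ≤ 5 := by omega
  obtain rfl : j = 5 - i := by omega
  interval_cases i
  · exact key _ (5 + 2 * e) (12 + 3 * e) (-18 - 19 * e - 4 * e ^ 2) 0 (5 + 2 * e) (7 + e)
      (by simp only [cc, JJ]; ring)
  · exact key _ (2 - e) (12 + 3 * e) (5 * e + 2 * e ^ 2) 0 (2 - e) (10 + 4 * e)
      (by simp only [cc, JJ]; ring)
  · exact key _ (8 + 5 * e) (12 + 3 * e) (2 * e - e ^ 2) 0 (8 + 5 * e) (4 - 2 * e)
      (by simp only [cc, JJ]; ring)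
  · exact key _ (-4 - 7 * e) (48 + 48 * e + 9 * e ^ 2) (8 * e + 5 * e ^ 2) 0 (-4 - 7 * e)
      (16 + 10 * e) (by simp only [cc, JJ]; ring)
  · exact key _ (56 + 62 * e + 9 * e ^ 2) (-24 - 42 * e - 9 * e ^ 2) (-4 * e - 7 * e ^ 2) 0
      (20 + 17 * e) (-8 - 14 * e) (by simp only [cc, JJ]; ring)
  · exact key _ (-136 - 166 * e - 27 * e ^ 2) (336 + 480 * e + 171 * e ^ 2 + 18 * e ^ 3)
      (56 * e + 62 * e ^ 2 + 9 * e ^ 3) (-36 - 45 * e - 9 * e ^ 2) (-64 - 76 * e - 9 * e ^ 2)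
      (112 + 124 * e + 18 * e ^ 2) (by simp only [cc, JJ]; ring)

lemma L4 (x y e : O) (K : Ideal O) (h3 : Can K 3) (h0 : Can K e) (h1 : Can K (e + 1))
    (h4 : Can K (e + 4)) (a : qq x y e ∈ K) (b : JJ x y e ∈ K) :
    Ideal.span {x, y} ^ 4 ≤ K := by
  have key : ∀ g u0 u1 u2 v0 v1 : O, 3 * (e * ((e + 1) * ((e + 4) * g))) =
      (u0 * x ^ 2 + u1 * x * y + u2 * y ^ 2) * qq x y e + (v0 * x + v1 * y) * JJ x y e →
      g ∈ K := by
    intro g u0 u1 u2 v0 v1 h
    apply h4; apply h1; apply h0; apply h3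
    rw [h]
    exact K.add_mem (K.mul_mem_left _ a) (K.mul_mem_left _ b)
  apply pow_le
  intro i j hij
  have hi : i ≤ 4 := by omega
  obtain rfl : j = 4 - i := by omega
  interval_cases i
  · exact key _ (-2 - e) (-4 - e) (12 + 14 * e + 3 * e ^ 2) (-2 - e) e
      (by simp only [qq, JJ]; ring)
  · exact key _ e (4 * e + e ^ 2) (-2 * e - e ^ 2) e (2 * e + e ^ 2)
      (by simp only [qq, JJ]; ring)
  · exact key _ (2 * e + e ^ 2) (4 * e + e ^ 2) (e ^ 2) (2 * e + e ^ 2) (-e ^ 2)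
      (by simp only [qq, JJ]; ring)
  · exact key _ (-e ^ 2) (12 * e + 11 * e ^ 2 + 2 * e ^ 3) (2 * e ^ 2 + e ^ 3) (-e ^ 2)
      (-2 * e ^ 2 - e ^ 3) (by simp only [qq, JJ]; ring)
  · exact key _ (12 * e + 13 * e ^ 2 + 2 * e ^ 3) (-4 * e ^ 2 - e ^ 3) (-e ^ 3)
      (-2 * e ^ 2 - e ^ 3) (e ^ 3) (by simp only [qq, JJ]; ring)

structure Ctx (x y z s1 s2 s3 z0 : O) (dx dy dz : O →+ O) (I : Ideal O) : Prop where
  derx : IsDer (RingHom.id O) dx
  dery : IsDer (RingHom.id O) dy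
  derz : IsDer (RingHom.id O) dz
  xx : dx x = 1
  xy : dx y = 0
  xz : dx z = 0
  x0 : dx z0 = 0
  x3 : dx s3 = 0
  yx : dy x = 0
  yy : dy y = 1
  yz : dy z = 0
  y0 : dy z0 = 0
  y3 : dy s3 = 0
  zx : dz x = 0
  zy : dz y = 0
  zz : dz z = 1
  z0' : dz z0 = 0
  z3 : dz s3 = 0
  gen : z * cc x y * qq x y (z + z0) ∈ I
  nab : ∀ g1 g2 g3 h : O, g1 ∈ I → g2 ∈ I → g3 ∈ I →
    z * cc x y * qq x y (z + z0) * h
      = z * cc x y * qq x y (z + z0) * (dx g1 + dy g2 + dz g3)
        + s1 * cc x y * qq x y (z + z0) * g3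
        + s2 * z * qq x y (z + z0) * (cx x y * g1 + cy x y * g2)
        + s3 * z * cc x y * (2 * x * g1 + 2 * (z + z0) * y * g2 + y ^ 2 * g3) → h ∈ I
  c11 : Can I (s1 + 1)
  c12 : Can I (s1 + 2)
  c13 : Can I (s1 + 3)
  c21 : Can I (s2 + 1)
  c31 : Can I (s3 + 1)
  c32 : Can I (s3 + 2)
  csig : ∀ k : ℕ, k ≠ 5 → Can I (3 * s2 + 2 * s3 + 2 + k)
  cw : Can I (2 * z0 + 2 + s3 * (z0 + 4))
  ce0 : Can I (z + z0)
  ce1 : Can I (z + z0 + 1)
  ce4 : Can I (z + z0 + 4)
  c2 : Can I 2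
  c3 : Can I 3

lemma der_natCast {d : O →+ O} (hd : IsDer (RingHom.id O) d) (n : ℕ) : d (n : O) = 0 := by
  induction n with
  | zero => simp
  | succ n ih => rw [Nat.cast_succ, map_add, ih, hd.one, add_zero]

lemma der_ofNat {d : O →+ O} (hd : IsDer (RingHom.id O) d) (n : ℕ) [n.AtLeastTwo] :
    d (OfNat.ofNat n : O) = 0 := der_natCast hd n

lemma der_mul {d : O →+ O} (hd : IsDer (RingHom.id O) d) (a b : O) :
    d (a * b) = a * d b + b * d a := hd a b

lemma der_pow {d : O →+ O} (hd : IsDer (RingHom.id O) d) (a : O) (n : ℕ) :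
    d (a ^ (n + 1)) = (n + 1) * a ^ n * d a := by
  induction n with
  | zero => simp
  | succ n ih => rw [pow_succ, der_mul hd, ih]; push_cast; ring

lemma der_sq {d : O →+ O} (hd : IsDer (RingHom.id O) d) (a : O) :
    d (a ^ 2) = 2 * a * d a := by
  rw [der_pow hd a 1]; norm_num

lemma der_cu {d : O →+ O} (hd : IsDer (RingHom.id O) d) (a : O) :
    d (a ^ 3) = 3 * a ^ 2 * d a := by
  rw [der_pow hd a 2]; norm_num

lemma der_two {d : O →+ O} (hd : IsDer (RingHom.id O) d) : d 2 = 0 := der_ofNat hd 2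
lemma der_three {d : O →+ O} (hd : IsDer (RingHom.id O) d) : d 3 = 0 := der_ofNat hd 3
lemma der_four {d : O →+ O} (hd : IsDer (RingHom.id O) d) : d 4 = 0 := der_ofNat hd 4
lemma der_six {d : O →+ O} (hd : IsDer (RingHom.id O) d) : d 6 = 0 := der_ofNat hd 6

lemma der_cc {d : O →+ O} (hd : IsDer (RingHom.id O) d) (x y : O) :
    d (cc x y) = cx x y * d x + cy x y * d y := by
  simp only [cc, cx, cy, map_add, map_sub, der_mul hd, der_sq hd, der_cu hd, der_two hd]
  ring

lemma der_cx {d : O →+ O} (hd : IsDer (RingHom.id O) d) (x y : O) :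
    d (cx x y) = 2 * y * d x + (2 * x + 2 * y) * d y := by
  simp only [cx, map_add, der_mul hd, der_sq hd, der_two hd]
  ring

lemma der_cy {d : O →+ O} (hd : IsDer (RingHom.id O) d) (x y : O) :
    d (cy x y) = (2 * x + 2 * y) * d x + (2 * x - 12 * y) * d y := by
  simp only [cy, map_add, map_sub, der_mul hd, der_sq hd, der_two hd, der_six hd]
  ring

lemma der_qq {d : O →+ O} (hd : IsDer (RingHom.id O) d) (x y e : O) :
    d (qq x y e) = 2 * x * d x + 2 * e * y * d y + y ^ 2 * d e := by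
  simp only [qq, map_add, der_mul hd, der_sq hd]
  ring

namespace Ctx
variable {x y z s1 s2 s3 z0 : O} {dx dy dz : O →+ O} {I : Ideal O}
  (H : Ctx x y z s1 s2 s3 z0 dx dy dz I)
include H

lemma ruleQ (r : O) (h1 : y * (cc x y * r) ∈ I) (h2 : x * (cc x y * r) ∈ I) :
    cc x y * ((z + z0) * y * dx r - x * dy r) + (s2 + 1) * JJ x y (z + z0) * r ∈ I := by
  refine H.nab ((z + z0) * (y * (cc x y * r))) (-(x * (cc x y * r))) 0 _
    (I.mul_mem_left _ h1) (I.neg_mem h2) I.zero_mem ?_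
  simp only [map_neg, map_add, map_zero, der_mul H.derx, der_mul H.dery, der_cc H.derx,
    der_cc H.dery, H.xx, H.xy, H.xz, H.x0, H.yx, H.yy]
  simp only [cc, cx, cy, qq, JJ]
  ring

lemma ruleC (r : O) (h : qq x y (z + z0) * r ∈ I) :
    qq x y (z + z0) * (cy x y * dx r - cx x y * dy r)
      - 2 * (s3 + 1) * JJ x y (z + z0) * r ∈ I := by
  refine H.nab (cy x y * (qq x y (z + z0) * r)) (-(cx x y * (qq x y (z + z0) * r))) 0 _
    (I.mul_mem_left _ h) (I.neg_mem (I.mul_mem_left _ h)) I.zero_mem ?_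
  simp only [map_neg, map_add, map_zero, der_mul H.derx, der_mul H.dery, der_cy H.derx,
    der_cx H.dery, der_qq H.derx, der_qq H.dery, H.xx, H.xy, H.xz, H.x0, H.yx, H.yy, H.yz, H.y0]
  simp only [cc, cx, cy, qq, JJ]
  ring

lemma ruleE (g : O) (h1 : x * g ∈ I) (h2 : y * g ∈ I) :
    (3 * s2 + 2 * s3 + 2) * g + (x * dx g + y * dy g) ∈ I := by
  refine H.nab (x * g) (y * g) 0 _ h1 h2 I.zero_mem ?_
  simp only [map_zero, der_mul H.derx, der_mul H.dery, H.xx, H.yy]
  simp only [cc, cx, cy, qq]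
  ring

lemma ruleZ (r : O) (h : z * qq x y (z + z0) * r ∈ I) :
    (s1 + 1) * qq x y (z + z0) * r + z * qq x y (z + z0) * dz r
      + (s3 + 1) * z * y ^ 2 * r ∈ I := by
  refine H.nab 0 0 _ _ I.zero_mem I.zero_mem h ?_
  simp only [map_zero, map_add, der_mul H.derz, der_qq H.derz, H.zx, H.zy, H.zz, H.z0']
  simp only [cc, cx, cy, qq]
  ring

/-- The Gauss-Manin step: `v` is a quadratic form with `U y² v = q m + J l`. -/
lemma ruleG (e U v m l0 l1 : O) (hU : U * y ^ 2 * v = qq x y (z + z0) * m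
      + JJ x y (z + z0) * (l0 * x + l1 * y))
    (ex : dx e = 0) (ey : dy e = 0) (l0x : dx l0 = 0) (l0y : dy l0 = 0) (l1x : dx l1 = 0)
    (l1y : dy l1 = 0) (vz : dz v = 0)
    (h6 : Ideal.span {x, y} ^ 6 ≤ I) (h : z * e * (cc x y * v) ∈ I) :
    2 * U * ((s1 + 1) * e + z * dz e) * (cc x y * v)
      + z * e * cc x y * (2 * s3 * m + (cy x y * l0 - cx x y * l1)) ∈ I := by
  have m1 : ∀ a b c d e f g : O, a * x ^ 6 + b * (x ^ 5 * y) + c * (x ^ 4 * y ^ 2)
      + d * (x ^ 3 * y ^ 3) + e * (x ^ 2 * y ^ 4) + f * (x * y ^ 5) + g * y ^ 6 ∈ I := by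
    intro a b c d e f g
    have := fun i j (hij : i + j = 6) => h6 (hij ▸ mon_mem x y i j)
    refine I.add_mem (I.add_mem (I.add_mem (I.add_mem (I.add_mem (I.add_mem ?_ ?_) ?_) ?_) ?_) ?_)
      ?_ <;> apply I.mul_mem_left
    · simpa using this 6 0 rfl
    · simpa using this 5 1 rfl
    · exact this 4 2 rfl
    · exact this 3 3 rfl
    · exact this 2 4 rfl
    · simpa using this 1 5 rfl
    · simpa using this 0 6 rfl
  have g1 : cy x y * (cc x y * (l0 * x + l1 * y)) ∈ I := by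
    convert m1 0 l0 (3 * l0 + l1) (-6 * l0 + 3 * l1) (-10 * l0 - 6 * l1) (12 * l0 - 10 * l1)
      (12 * l1) using 1
    simp only [cc, cy]
    ring
  have g2 : cx x y * (cc x y * (l0 * x + l1 * y)) ∈ I := by
    convert m1 0 0 (2 * l0) (3 * l0 + 2 * l1) (-3 * l0 + 3 * l1) (-2 * l0 - 3 * l1)
      (-2 * l1) using 1
    simp only [cc, cx]
    ring
  have := H.nab (z * e * (cy x y * (cc x y * (l0 * x + l1 * y))))
    (-(z * e * (cx x y * (cc x y * (l0 * x + l1 * y))))) (2 * U * (z * e * (cc x y * v)))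
    (2 * U * ((s1 + 1) * e + z * dz e) * (cc x y * v)
      + z * e * cc x y * (2 * s3 * m + (cy x y * l0 - cx x y * l1))
      + 2 * dz U * (z * e * (cc x y * v)))
    (I.mul_mem_left _ g1) (I.neg_mem (I.mul_mem_left _ g2)) (I.mul_mem_left _ h) ?_
  · exact (I.add_mem_iff_left (I.mul_mem_left _ h)).mp this
  simp only [map_neg, map_add, der_mul H.derx, der_mul H.dery, der_mul H.derz, der_cy H.derx,
    der_cx H.dery, der_cc H.derx, der_cc H.dery, der_cc H.derz, der_two H.derz, H.xx, H.xy, H.xz,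
    H.yx, H.yy, H.yz, H.zx, H.zy, H.zz, ex, ey, l0x, l0y, l1x, l1y, vz]
  have hJ : JJ x y (z + z0) = (z + z0) * y * cx x y - x * cy x y := by
    simp only [JJ, cx, cy]; ring
  rw [hJ] at hU
  linear_combination (-2 * s3 * z ^ 2 * e * cc x y ^ 2) * hU

lemma euler_mem (k : ℕ) : ∀ g ∈ Ideal.span {x, y} ^ k,
    x * dx g + y * dy g - k * g ∈ Ideal.span {x, y} ^ (k + 1) := by
  have E1 : ∀ o : O, x * dx o + y * dy o ∈ Ideal.span {x, y} := fun o =>
    Ideal.add_mem _ (Ideal.mul_mem_right _ _ (x_mem x y)) (Ideal.mul_mem_right _ _ (y_mem x y))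
  induction k with
  | zero => intro g _; simpa using E1 g
  | succ k ih =>
    intro g hg
    rw [pow_succ] at hg
    refine Submodule.mul_induction_on hg ?_ ?_
    · intro a ha b hb
      obtain ⟨u, v, rfl⟩ := Ideal.mem_span_pair.mp hb
      have e : x * dx (a * (u * x + v * y)) + y * dy (a * (u * x + v * y))
          - ((k + 1 : ℕ) : O) * (a * (u * x + v * y))
          = (x * dx a + y * dy a - k * a) * (u * x + v * y)
            + a * x * (x * dx u + y * dy u) + a * y * (x * dx v + y * dy v) := by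
        simp only [map_add, der_mul H.derx, der_mul H.dery, H.xx, H.xy, H.yx, H.yy]
        push_cast
        ring
      rw [e, pow_succ]
      refine Ideal.add_mem _ (Ideal.add_mem _ (Ideal.mul_mem_mul (ih a ha) hb) ?_) ?_
      · refine Ideal.mul_mem_mul ?_ (E1 u)
        rw [pow_succ]
        exact Ideal.mul_mem_mul ha (x_mem x y)
      · refine Ideal.mul_mem_mul ?_ (E1 v)
        rw [pow_succ]
        exact Ideal.mul_mem_mul ha (y_mem x y)
    · intro u v hu hv
      convert Ideal.add_mem _ hu hv using 1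
      simp only [map_add]
      ring

lemma descend (k : ℕ) (hk : k ≠ 5) (h : Ideal.span {x, y} ^ (k + 1) ≤ I) :
    Ideal.span {x, y} ^ k ≤ I := by
  intro g hg
  apply H.csig k hk
  have h1 : x * g ∈ I := by
    apply h; rw [pow_succ']; exact Ideal.mul_mem_mul (x_mem x y) hg
  have h2 : y * g ∈ I := by
    apply h; rw [pow_succ']; exact Ideal.mul_mem_mul (y_mem x y) hg
  convert I.sub_mem (H.ruleE g h1 h2) (h (H.euler_mem k g hg)) using 1
  ring

lemma ham_mem (k : ℕ) (g : O) (hg : g ∈ Ideal.span {x, y} ^ k) :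
    cy x y * dx g - cx x y * dy g ∈ Ideal.span {x, y} ^ k := by
  refine Ideal.sub_mem _ (der_pow_mem H.derx _ k g hg _ ?_) (der_pow_mem H.dery _ k g hg _ ?_)
  · exact Ideal.mem_span_pair.mpr ⟨x + 2 * y, -6 * y, by simp only [cy]; ring⟩
  · exact Ideal.mem_span_pair.mpr ⟨2 * y, y, by simp only [cx]; ring⟩

lemma six : Ideal.span {x, y} ^ 6 ≤ I := by
  have a0 := H.gen
  have a1 : cc x y * qq x y (z + z0) ^ 2 ∈ I := by
    apply H.c11
    have := H.ruleZ (cc x y * qq x y (z + z0)) (by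
      convert I.mul_mem_left (qq x y (z + z0)) a0 using 1; ring)
    convert I.sub_mem this (I.mul_mem_left ((s3 + 2) * y ^ 2) a0) using 1
    simp only [der_mul H.derz, der_cc H.derz, der_qq H.derz, map_add, H.zx, H.zy, H.zz, H.z0']
    ring
  have a2 : JJ x y (z + z0) * qq x y (z + z0) ^ 2 ∈ I := by
    apply H.c21
    convert H.ruleQ (qq x y (z + z0) ^ 2) (I.mul_mem_left _ a1) (I.mul_mem_left _ a1) using 1
    simp only [der_sq H.derx, der_sq H.dery, der_qq H.derx, der_qq H.dery, map_add, H.xx, H.xy,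
      H.xz, H.x0, H.yx, H.yy, H.yz, H.y0]
    ring
  have a3 : ∀ g ∈ Ideal.span {x, y} ^ 5, g * qq x y (z + z0) ^ 2 ∈ I := by
    intro g hg
    rw [← mem_colon]
    refine L5 x y (z + z0) _ (H.c3.colon _) (H.ce1.colon _) (H.ce4.colon _) ?_ ?_ ?_ ?_ ?_ ?_ hg <;>
      rw [mem_colon]
    · convert I.mul_mem_left (x ^ 2) a1 using 1; ring
    · convert I.mul_mem_left (x * y) a1 using 1; ring
    · convert I.mul_mem_left (y ^ 2) a1 using 1; ring
    · convert I.mul_mem_left (x ^ 2) a2 using 1; ring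
    · convert I.mul_mem_left (x * y) a2 using 1; ring
    · convert I.mul_mem_left (y ^ 2) a2 using 1; ring
  have a4 : ∀ g ∈ Ideal.span {x, y} ^ 5, JJ x y (z + z0) * (qq x y (z + z0) * g) ∈ I := by
    intro g hg
    apply H.c32; apply H.c2
    have h1 := H.ruleC (qq x y (z + z0) * g) (by convert a3 g hg using 1; ring)
    convert I.sub_mem (a3 _ (H.ham_mem 5 g hg)) h1 using 1
    simp only [der_mul H.derx, der_mul H.dery, der_qq H.derx, der_qq H.dery, map_add, H.xx, H.xy,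
      H.xz, H.x0, H.yx, H.yy, H.yz, H.y0]
    simp only [JJ, cx, cy]
    ring
  have a5 : ∀ g ∈ Ideal.span {x, y} ^ 9, qq x y (z + z0) * g ∈ I := by
    intro g hg
    rw [show 9 = 4 + 5 from rfl, pow_add] at hg
    refine Submodule.mul_induction_on hg ?_ ?_
    · intro a ha b hb
      have : a * (qq x y (z + z0) * b) ∈ I := by
        rw [← mem_colon]
        refine L4 x y (z + z0) _ (H.c3.colon _) (H.ce0.colon _) (H.ce1.colon _) (H.ce4.colon _)
          ?_ ?_ ha <;> rw [mem_colon]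
        · convert a3 b hb using 1; ring
        · exact a4 b hb
      convert this using 1; ring
    · intro u v hu hv
      rw [mul_add]
      exact I.add_mem hu hv
  have a6 : ∀ g ∈ Ideal.span {x, y} ^ 9, JJ x y (z + z0) * g ∈ I := by
    intro g hg
    apply H.c31; apply H.c2
    convert I.sub_mem (a5 _ (H.ham_mem 9 g hg)) (H.ruleC g (a5 g hg)) using 1
    ring
  have a7 : Ideal.span {x, y} ^ 13 ≤ I := by
    rw [show 13 = 4 + 9 from rfl, pow_add, Ideal.mul_le]
    intro a ha b hb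
    rw [← mem_colon]
    refine L4 x y (z + z0) _ (H.c3.colon _) (H.ce0.colon _) (H.ce1.colon _) (H.ce4.colon _)
      ?_ ?_ ha <;> rw [mem_colon]
    · exact a5 b hb
    · exact a6 b hb
  exact H.descend 6 (by norm_num) (H.descend 7 (by norm_num) (H.descend 8 (by norm_num)
    (H.descend 9 (by norm_num) (H.descend 10 (by norm_num) (H.descend 11 (by norm_num)
    (H.descend 12 (by norm_num) a7))))))

lemma quad (e p r t : O) (ha : z * e * (cc x y * qq x y (z + z0)) ∈ I)
    (hb : z * e * (cc x y * y ^ 2) ∈ I) :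
    z * e * cc x y * (p * x ^ 2 + r * (x * y) + t * y ^ 2) - r * (z * e * (cc x y * (x * y)))
      ∈ I := by
  have := H.gen
  convert I.add_mem (I.mul_mem_left p ha) (I.mul_mem_left (t - (z + z0) * p) hb) using 1
  simp only [qq]
  ring

lemma canU : Can I (3 * (z + z0) * (z + z0 + 1) * (z + z0 + 4)) :=
  ((H.c3.mul H.ce0).mul H.ce1).mul H.ce4

lemma Gb (e : O) (ex : dx e = 0) (ey : dy e = 0)
    (ha : z * e * (cc x y * qq x y (z + z0)) ∈ I) (hb : z * e * (cc x y * y ^ 2) ∈ I) :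
    (3 * (z + z0) * (z + z0 + 1) * (z + z0 + 4)) * ((s1 + 1) * e + z * dz e) * (cc x y * y ^ 2)
      - (2 * (z + z0) + 2 + s3 * (z + z0 + 4)) * (z * e * (cc x y * (x * y))) ∈ I := by
  have h := H.ruleG e (3 * (z + z0) * (z + z0 + 1) * (z + z0 + 4)) (y ^ 2)
    ((-2 - (z + z0)) * x ^ 2 + (-4 - (z + z0)) * x * y
      + (12 + 14 * (z + z0) + 3 * (z + z0) ^ 2) * y ^ 2) (-2 - (z + z0)) (z + z0)
    (by simp only [qq, JJ]; ring) ex ey
    (by simp only [map_sub, map_add, map_neg, der_two H.derx, H.xz, H.x0]; ring)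
    (by simp only [map_sub, map_add, map_neg, der_two H.dery, H.yz, H.y0]; ring)
    (by simp only [map_add, H.xz, H.x0]; ring) (by simp only [map_add, H.yz, H.y0]; ring)
    (by simp only [der_sq H.derz, H.zy]; ring) H.six hb
  have h2 := H.quad e ((2 * s3 + 1) * (-2 - (z + z0)))
    (-2 * (2 * (z + z0) + 2 + s3 * (z + z0 + 4)))
    (2 * s3 * (12 + 14 * (z + z0) + 3 * (z + z0) ^ 2) + 6 * (2 + (z + z0)) - (z + z0)) ha hb
  apply H.c2
  convert I.sub_mem h h2 using 1
  simp only [cx, cy]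
  ring

lemma Gc (e : O) (ex : dx e = 0) (ey : dy e = 0)
    (ha : z * e * (cc x y * qq x y (z + z0)) ∈ I) (hb : z * e * (cc x y * y ^ 2) ∈ I)
    (hc : z * e * (cc x y * (x * y)) ∈ I) :
    ((s1 + 1) * e + z * dz e) * (cc x y * (x * y)) ∈ I := by
  have h := H.ruleG e (3 * (z + z0) * (z + z0 + 1) * (z + z0 + 4)) (x * y)
    ((z + z0) * x ^ 2 + (4 * (z + z0) + (z + z0) ^ 2) * x * y
      + (-2 * (z + z0) - (z + z0) ^ 2) * y ^ 2) (z + z0) (2 * (z + z0) + (z + z0) ^ 2)
    (by simp only [qq, JJ]; ring) ex ey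
    (by simp only [map_add, H.xz, H.x0]; ring) (by simp only [map_add, H.yz, H.y0]; ring)
    (by simp only [map_add, der_mul H.derx, der_sq H.derx, der_two H.derx, H.xz, H.x0]; ring)
    (by simp only [map_add, der_mul H.dery, der_sq H.dery, der_two H.dery, H.yz, H.y0]; ring)
    (by simp only [der_mul H.derz, H.zx, H.zy]; ring) H.six hc
  have h2 := H.quad e ((2 * s3 + 1) * (z + z0))
    (2 * s3 * (4 * (z + z0) + (z + z0) ^ 2) + 2 * (z + z0) - 2 * (2 * (z + z0) + (z + z0) ^ 2))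
    (2 * s3 * (-2 * (z + z0) - (z + z0) ^ 2) - 6 * (z + z0) - (2 * (z + z0) + (z + z0) ^ 2)) ha hb
  apply H.canU
  apply H.c2
  convert I.sub_mem (I.sub_mem h h2) (I.mul_mem_left (2 * s3 * (4 * (z + z0) + (z + z0) ^ 2)
    + 2 * (z + z0) - 2 * (2 * (z + z0) + (z + z0) ^ 2)) hc) using 1
  simp only [cx, cy]
  ring

theorem one_mem : (1 : O) ∈ I := by
  obtain ⟨α, hα⟩ : ∃ α, α = cc x y * qq x y (z + z0) := ⟨_, rfl⟩
  obtain ⟨β, hβ⟩ : ∃ β, β = cc x y * y ^ 2 := ⟨_, rfl⟩
  obtain ⟨γ, hγ⟩ : ∃ γ, γ = cc x y * (x * y) := ⟨_, rfl⟩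
  obtain ⟨U, hU⟩ : ∃ U, U = 3 * (z + z0) * (z + z0 + 1) * (z + z0 + 4) := ⟨_, rfl⟩
  obtain ⟨w, hw⟩ : ∃ w, w = 2 * (z + z0) + 2 + s3 * (z + z0 + 4) := ⟨_, rfl⟩
  have cU : Can I U := hU ▸ H.canU
  have Gb' : ∀ e, dx e = 0 → dy e = 0 → z * e * α ∈ I → z * e * β ∈ I →
      U * ((s1 + 1) * e + z * dz e) * β - w * (z * e * γ) ∈ I := by
    intro e ex ey ha hb
    rw [hα] at ha; rw [hβ] at hb
    rw [hU, hw, hβ, hγ]
    exact H.Gb e ex ey ha hb
  have Gc' : ∀ e, dx e = 0 → dy e = 0 → z * e * α ∈ I → z * e * β ∈ I → z * e * γ ∈ I →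
      ((s1 + 1) * e + z * dz e) * γ ∈ I := by
    intro e ex ey ha hb hc
    rw [hα] at ha; rw [hβ] at hb; rw [hγ] at hc
    rw [hγ]
    exact H.Gc e ex ey ha hb hc
  have wx : dx w = 0 := by
    simp only [hw, map_add, der_mul H.derx, der_two H.derx, der_four H.derx, H.xz, H.x0, H.x3]
    ring
  have wy : dy w = 0 := by
    simp only [hw, map_add, der_mul H.dery, der_two H.dery, der_four H.dery, H.yz, H.y0, H.y3]
    ring
  have wz : dz w = s3 + 2 := by
    simp only [hw, map_add, der_mul H.derz, der_two H.derz, der_four H.derz, H.zz, H.z0', H.z3]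
    ring
  have b0 : z * α ∈ I := by rw [hα, ← mul_assoc]; exact H.gen
  have b1 : (s1 + 1) * α + (s3 + 1) * (z * β) ∈ I := by
    convert H.ruleZ (cc x y) (by convert H.gen using 1; ring) using 1
    simp only [der_cc H.derz, H.zx, H.zy, hα, hβ]
    ring
  have b2 : z * z * β ∈ I := by
    apply H.c31
    convert I.sub_mem (I.mul_mem_left z b1) (I.mul_mem_left (s1 + 1) b0) using 1
    ring
  have b0' : z * z * α ∈ I := by rw [mul_assoc]; exact I.mul_mem_left _ b0
  have b3 := Gb' z H.xz H.yz b0' b2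
  rw [H.zz] at b3
  have b4 : z * (z ^ 2 * w) * γ ∈ I := by
    convert I.sub_mem (I.mul_mem_left (U * (s1 + 2)) b2) (I.mul_mem_left z b3) using 1
    ring
  have b5 := Gc' (z ^ 2 * w)
    (by simp only [der_mul H.derx, der_sq H.derx, wx, H.xz]; ring)
    (by simp only [der_mul H.dery, der_sq H.dery, wy, H.yz]; ring)
    (by convert I.mul_mem_left (z ^ 2 * w) b0 using 1; ring)
    (by convert I.mul_mem_left (z * w) b2 using 1; ring) b4
  rw [der_mul H.derz, der_sq H.derz, wz, H.zz] at b5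
  have b6 : z ^ 4 * γ ∈ I := by
    apply H.c32
    convert I.sub_mem (I.mul_mem_left z b5) (I.mul_mem_left (s1 + 3) b4) using 1
    ring
  have b7 : z ^ 3 * γ ∈ I := by
    apply H.cw
    convert I.sub_mem b4 (I.mul_mem_left (s3 + 2) b6) using 1
    rw [hw]
    ring
  have b8 : z ^ 2 * w * γ ∈ I := by
    apply H.c13
    convert I.sub_mem b5 (I.mul_mem_left (s3 + 2) b7) using 1
    ring
  have b9 : z * z * γ ∈ I := by
    apply H.cw
    convert I.sub_mem b8 (I.mul_mem_left (s3 + 2) b7) using 1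
    rw [hw]
    ring
  have c1 : z * β ∈ I := by
    apply H.c12
    apply cU
    convert I.add_mem b3 (I.mul_mem_left w b9) using 1
    ring
  have c2 : α ∈ I := by
    apply H.c11
    convert I.sub_mem b1 (I.mul_mem_left (s3 + 1) c1) using 1
    ring
  have c3 : z * γ ∈ I := by
    apply H.c12
    have := Gc' z H.xz H.yz b0' b2 b9
    rw [H.zz] at this
    convert this using 1
    ring
  have c4 : β ∈ I := by
    apply H.c11
    apply cU
    have := Gb' 1 H.derx.one H.dery.one (by simpa using b0) (by simpa using c1)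
    rw [H.derz.one] at this
    convert I.add_mem this (I.mul_mem_left w c3) using 1
    ring
  have c5 : γ ∈ I := by
    apply H.c11
    have := Gc' 1 H.derx.one H.dery.one (by simpa using b0) (by simpa using c1)
      (by simpa using c3)
    rw [H.derz.one] at this
    convert this using 1
    ring
  rw [hα] at c2; rw [hβ] at c4; rw [hγ] at c5
  have c6 : cc x y * x ^ 2 ∈ I := by
    convert I.sub_mem c2 (I.mul_mem_left (z + z0) c4) using 1
    simp only [qq]
    ring
  have d0 : JJ x y (z + z0) * x ^ 2 ∈ I := by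
    apply H.c21
    convert I.sub_mem (H.ruleQ (x ^ 2) (I.mul_mem_left _ c6) (I.mul_mem_left _ c6))
      (I.mul_mem_left (2 * (z + z0)) c5) using 1
    simp only [der_sq H.derx, der_sq H.dery, H.xx, H.yx]
    ring
  have d1 : JJ x y (z + z0) * (x * y) ∈ I := by
    apply H.c21
    convert I.add_mem (I.sub_mem (H.ruleQ (x * y) (I.mul_mem_left _ c5) (I.mul_mem_left _ c5))
      (I.mul_mem_left (z + z0) c4)) c6 using 1
    simp only [der_mul H.derx, der_mul H.dery, H.xx, H.yx, H.xy, H.yy]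
    ring
  have d2 : JJ x y (z + z0) * y ^ 2 ∈ I := by
    apply H.c21
    convert I.add_mem (H.ruleQ (y ^ 2) (I.mul_mem_left _ c4) (I.mul_mem_left _ c4))
      (I.mul_mem_left 2 c5) using 1
    simp only [der_sq H.derx, der_sq H.dery, H.xy, H.yy]
    ring
  have e5 := L5 x y (z + z0) I H.c3 H.ce1 H.ce4 c6 c5 c4 d0 d1 d2
  have e0 := H.descend 0 (by norm_num) (H.descend 1 (by norm_num) (H.descend 2 (by norm_num)
    (H.descend 3 (by norm_num) (H.descend 4 (by norm_num) e5))))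
  apply e0
  simp

end Ctx

end Pool.Agent.H869Z.AMem
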