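import Pool.Agent.H869Z.ADefs
import Pool.Agent.H869Z.AMem

/-! The explicit element of the analytic Bernstein-Sato ideal. -/

namespace Pool.Agent.H869Z.ABS

open MvPolynomial Pool.Agent.H869Z.Der Pool.Agent.H869Z.AMem Filter Topology

variable {n : ℕ}

lemma pd_add {j : Fin n} {f g : (Fin n → ℂ) → ℂ} {x : Fin n → ℂ} (hf : DifferentiableAt ℂ f x)
    (hg : DifferentiableAt ℂ g x) : pd j (fun y => f y + g y) x = pd j f x + pd j g x := by
  unfold pd
  rw [fderiv_fun_add hf hg]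
  rfl

lemma pd_sub {j : Fin n} {f g : (Fin n → ℂ) → ℂ} {x : Fin n → ℂ} (hf : DifferentiableAt ℂ f x)
    (hg : DifferentiableAt ℂ g x) : pd j (fun y => f y - g y) x = pd j f x - pd j g x := by
  unfold pd
  rw [fderiv_fun_sub hf hg]
  rfl

lemma pd_mul {j : Fin n} {f g : (Fin n → ℂ) → ℂ} {x : Fin n → ℂ} (hf : DifferentiableAt ℂ f x)
    (hg : DifferentiableAt ℂ g x) :
    pd j (fun y => f y * g y) x = f x * pd j g x + g x * pd j f x := by
  unfold pd
  rw [fderiv_fun_mul hf hg]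
  simp

lemma pd_const (j : Fin n) (c : ℂ) (x : Fin n → ℂ) : pd j (fun _ => c) x = 0 := by
  simp [pd]

lemma pd_coord (j i : Fin n) (x : Fin n → ℂ) :
    pd j (fun y => y i) x = (Pi.single j 1 : Fin n → ℂ) i := by
  unfold pd
  rw [(hasFDerivAt_apply (𝕜 := ℂ) i x).fderiv]
  rfl

lemma pd_congr {j : Fin n} {f g : (Fin n → ℂ) → ℂ} {x : Fin n → ℂ} (h : f =ᶠ[𝓝 x] g) :
    pd j f x = pd j g x := by
  unfold pd
  rw [h.fderiv_eq]

lemma pd_eval {σ : Type} (v : σ → (Fin n → ℂ) → ℂ) (hv : ∀ i, Differentiable ℂ (v i))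
    (D : Derivation ℂ (MvPolynomial σ ℂ) (MvPolynomial σ ℂ)) (j : Fin n) (x : Fin n → ℂ)
    (hD : ∀ i, eval (fun i => v i x) (D (X i)) = pd j (v i) x) (o : MvPolynomial σ ℂ) :
    DifferentiableAt ℂ (fun y => eval (fun i => v i y) o) x ∧
      pd j (fun y => eval (fun i => v i y) o) x = eval (fun i => v i x) (D o) := by
  induction o using MvPolynomial.induction_on with
  | C a =>
    have : D (C a) = 0 := D.map_algebraMap a
    simp [pd_const, this]
  | add p q hp hq =>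
    simp only [map_add]
    exact ⟨hp.1.add hq.1, by rw [pd_add hp.1 hq.1, hp.2, hq.2]⟩
  | mul_X p i hp =>
    simp only [map_mul, eval_X]
    refine ⟨hp.1.mul (hv i x), ?_⟩
    rw [pd_mul hp.1 (hv i x), hp.2, Derivation.leibniz, ← hD i]
    simp

lemma pd_evalT (P : MvPolynomial (Fin n) ℂ) (j : Fin n) (x : Fin n → ℂ) :
    DifferentiableAt ℂ (fun y => eval y P) x ∧
      pd j (fun y => eval y P) x = eval x (pderiv j P) := by
  refine pd_eval (fun i y => y i) (fun i => differentiable_apply i) (pderiv j) j x ?_ P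
  intro i
  rw [pd_coord, pderiv_X]
  by_cases h : i = j
  · subst h; simp
  · simp [Pi.single_eq_of_ne h]

/-- The three polynomials. -/
noncomputable def Fp (z0 : ℂ) : Fin 3 → MvPolynomial (Fin 3) ℂ :=
  ![X 2, cc (X 0) (X 1), qq (X 0) (X 1) (X 2 + C z0)]

lemma analyticAt_apply (i : Fin n) (x : Fin n → ℂ) : AnalyticAt ℂ (fun y : Fin n → ℂ => y i) x :=
  (ContinuousLinearMap.proj (R := ℂ) (φ := fun _ : Fin n => ℂ) i).analyticAt x

lemma pderiv_two (j : Fin 3) : pderiv j (2 : MvPolynomial (Fin 3) ℂ) = 0 :=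
  der_two (isDer_derivation (pderiv j))

lemma P00 (z0 : ℂ) : pderiv 0 (Fp z0 0) = 0 := by simp [Fp]
lemma P10 (z0 : ℂ) : pderiv 1 (Fp z0 0) = 0 := by simp [Fp]
lemma P20 (z0 : ℂ) : pderiv 2 (Fp z0 0) = 1 := by simp [Fp]
lemma P01 (z0 : ℂ) : pderiv 0 (Fp z0 1) = cx (X 0) (X 1) := by
  simp [Fp, cc, cx, pderiv_two]; ring
lemma P11 (z0 : ℂ) : pderiv 1 (Fp z0 1) = cy (X 0) (X 1) := by
  simp [Fp, cc, cy, pderiv_two]; ring
lemma P21 (z0 : ℂ) : pderiv 2 (Fp z0 1) = 0 := by simp [Fp, cc, pderiv_two]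
lemma P02 (z0 : ℂ) : pderiv 0 (Fp z0 2) = 2 * X 0 := by simp [Fp, qq]
lemma P12 (z0 : ℂ) : pderiv 1 (Fp z0 2) = 2 * (X 2 + C z0) * X 1 := by
  simp [Fp, qq]; ring
lemma P22 (z0 : ℂ) : pderiv 2 (Fp z0 2) = X 1 ^ 2 := by simp [Fp, qq]

noncomputable def FF (z0 : ℂ) : Fin 3 → (Fin 3 → ℂ) → ℂ := fun i x => eval x (Fp z0 i)

abbrev O6 : Type := MvPolynomial (Fin 3 ⊕ Fin 3) ℂ

noncomputable def ev (o : O6) (x s : Fin 3 → ℂ) : ℂ := eval (Sum.elim x s) o

lemma pd_ev (o : O6) (j : Fin 3) (x s : Fin 3 → ℂ) :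
    DifferentiableAt ℂ (fun y => ev o y s) x ∧
      pd j (fun y => ev o y s) x = ev (pderiv (Sum.inl j) o) x s := by
  have := pd_eval (fun (i : Fin 3 ⊕ Fin 3) (y : Fin 3 → ℂ) => Sum.elim y s i) ?_
    (pderiv (Sum.inl j)) j x ?_ o
  · exact this
  · rintro (i | i)
    · exact differentiable_apply i
    · exact differentiable_const _
  · rintro (i | i)
    · change _ = pd j (fun y => y i) x
      rw [pd_coord, pderiv_X]
      by_cases h : i = j
      · subst h; simp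
      · simp [Ne.symm h]
    · change _ = pd j (fun _ => s i) x
      rw [pd_const, pderiv_X]
      simp

lemma Gen.mulEv {F : Fin 3 → (Fin 3 → ℂ) → ℂ} {U : Set (Fin 3 → ℂ)} {g}
    (hg : Gen F U g) (c : O6) : Gen F U (fun x s => ev c x s * g x s) := by
  induction c using MvPolynomial.induction_on with
  | C a => simpa [ev] using Gen.mulO (fun _ => a) analyticOnNhd_const hg
  | add p q hp hq => simpa [ev, add_mul] using Gen.add hp hq
  | mul_X p i hp =>
    rcases i with i | i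
    · convert Gen.mulO (fun x => x i) (fun x _ => analyticAt_apply i x) hp using 3
      simp only [ev, map_mul, eval_X, Sum.elim_inl]
      ring
    · convert Gen.mulS i hp using 3
      simp only [ev, map_mul, eval_X, Sum.elim_inr]
      ring

/-- Polynomials lying in the module after multiplication by a polynomial not vanishing at `a`. -/
def II (F : Fin 3 → (Fin 3 → ℂ) → ℂ) (W : Set (Fin 3 → ℂ)) (a : Fin 3 → ℂ) : Ideal O6 where
  carrier := {o | ∃ e : MvPolynomial (Fin 3) ℂ, eval a e ≠ 0 ∧ ∃ g, Gen F W g ∧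
    ∀ x ∈ W, ∏ i, F i x ≠ 0 → ∀ s, g x s = eval s e * ev o x s}
  add_mem' := by
    rintro u v ⟨e, he, g, hg, h⟩ ⟨e', he', g', hg', h'⟩
    refine ⟨e * e', by rw [map_mul]; exact mul_ne_zero he he', _,
      Gen.add (hg.mulPoly e') (hg'.mulPoly e), ?_⟩
    intro x hx hf s
    simp only [h x hx hf, h' x hx hf, ev, map_add, map_mul]
    ring
  zero_mem' := ⟨1, by simp, _, Gen.base.mulPoly 0, by intro x _ _ s; simp [ev]⟩
  smul_mem' := by
    rintro c u ⟨e, he, g, hg, h⟩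
    refine ⟨e, he, _, hg.mulEv c, ?_⟩
    intro x hx hf s
    simp only [h x hx hf, ev, smul_eq_mul, map_mul]
    ring

lemma can_poly {F W a} (o : O6) (p : MvPolynomial (Fin 3) ℂ) (hp : eval a p ≠ 0)
    (h : ∀ x s, ev o x s = eval s p) : Can (II F W a) o := by
  rintro u ⟨e, he, g, hg, h'⟩
  refine ⟨e * p, by rw [map_mul]; exact mul_ne_zero he hp, g, hg, ?_⟩
  intro x hx hf s
  rw [h' x hx hf, map_mul, ← h x s]
  simp only [ev, map_mul]
  ring

lemma can_unit {F W a} (o : O6) (c : ℂ) (hc : ∀ x ∈ W, x 2 + c ≠ 0)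
    (h : ∀ x s, ev o x s = x 2 + c) : Can (II F W a) o := by
  rintro u ⟨e, he, g, hg, h'⟩
  refine ⟨e, he, _, Gen.mulO (fun x => (x 2 + c)⁻¹) ?_ hg, ?_⟩
  · intro x hx
    exact ((analyticAt_apply 2 x).add analyticAt_const).inv (hc x hx)
  · intro x hx hf s
    have := hc x hx
    rw [h' x hx hf]
    have e1 : ev (o * u) x s = (x 2 + c) * ev u x s := by
      rw [← h x s]; simp only [ev, map_mul]
    rw [e1]
    field_simp

lemma prodF (z0 : ℂ) (x : Fin 3 → ℂ) :
    ∏ i, FF z0 i x = x 2 * cc (x 0) (x 1) * qq (x 0) (x 1) (x 2 + z0) := by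
  simp [Fin.prod_univ_three, FF, Fp, cc, qq]

lemma nabla_ev (z0 : ℂ) (W : Set (Fin 3 → ℂ)) (hW : IsOpen W) (e : MvPolynomial (Fin 3) ℂ)
    (o : O6) (g : (Fin 3 → ℂ) → (Fin 3 → ℂ) → ℂ)
    (h : ∀ x ∈ W, ∏ i, FF z0 i x ≠ 0 → ∀ s, g x s = eval s e * ev o x s) (j : Fin 3)
    (x : Fin 3 → ℂ) (hx : x ∈ W) (hf : ∏ i, FF z0 i x ≠ 0) (s : Fin 3 → ℂ) :
    nabla (FF z0) j g x s = eval s e * (ev (pderiv (Sum.inl j) o) x s
      + (∑ i, s i * eval x (pderiv j (Fp z0 i)) / eval x (Fp z0 i)) * ev o x s) := by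
  have hc : Continuous fun y => ∏ i, FF z0 i y :=
    continuous_finsetProd _ fun i _ => (MvPolynomial.continuous_eval _)
  have hev : (fun y => g y s) =ᶠ[𝓝 x] fun y => eval s e * ev o y s := by
    filter_upwards [hW.mem_nhds hx, hc.continuousAt.eventually_ne hf] with y h1 h2
    exact h y h1 h2 s
  unfold nabla
  rw [pd_congr hev, pd_mul (differentiableAt_const _) (pd_ev o j x s).1, (pd_ev o j x s).2,
    pd_const, h x hx hf]
  have : ∀ i, pd j (FF z0 i) x = eval x (pderiv j (Fp z0 i)) := fun i => (pd_evalT _ j x).2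
  simp only [this, FF]
  ring

theorem exists_mem (z0 : ℂ) (W : Set (Fin 3 → ℂ)) (hW : IsOpen W)
    (h0 : ∀ x ∈ W, x 2 + z0 ≠ 0) (h1 : ∀ x ∈ W, x 2 + (z0 + 1) ≠ 0)
    (h4 : ∀ x ∈ W, x 2 + (z0 + 4) ≠ 0) (hz : 3 * z0 + 6 ≠ 0) :
    ∃ b ∈ bsIdeal (FF z0) W, eval ![-4, -3, 1] b ≠ 0 := by
  have H : Ctx (X (Sum.inl 0) : O6) (X (Sum.inl 1)) (X (Sum.inl 2)) (X (Sum.inr 0))
      (X (Sum.inr 1)) (X (Sum.inr 2)) (C z0)
      (pderiv (Sum.inl 0)).toLinearMap.toAddMonoidHom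
      (pderiv (Sum.inl 1)).toLinearMap.toAddMonoidHom
      (pderiv (Sum.inl 2)).toLinearMap.toAddMonoidHom (II (FF z0) W ![-4, -3, 1]) := by
    refine ⟨isDer_derivation _, isDer_derivation _, isDer_derivation _, ?_, ?_, ?_, ?_, ?_, ?_, ?_,
      ?_, ?_, ?_, ?_, ?_, ?_, ?_, ?_, ?_, ?_, ?_, ?_, ?_, ?_, ?_, ?_, ?_, ?_, ?_, ?_, ?_, ?_, ?_⟩
    iterate 15 simp [pderiv_X]
    · refine ⟨1, by simp, _, Gen.base, ?_⟩
      intro x _ _ s
      rw [prodF]
      simp [ev, cc, qq]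
    · rintro g1 g2 g3 h ⟨e1, he1, k1, hk1, p1⟩ ⟨e2, he2, k2, hk2, p2⟩ ⟨e3, he3, k3, hk3, p3⟩ hid
      refine ⟨e1 * e2 * e3, by simp [he1, he2, he3], _,
        Gen.add (Gen.add ((Gen.der 0 hk1).mulPoly (e2 * e3)) ((Gen.der 1 hk2).mulPoly (e1 * e3)))
          ((Gen.der 2 hk3).mulPoly (e1 * e2)), ?_⟩
      intro x hx hf s
      rw [nabla_ev z0 W hW e1 g1 k1 p1 0 x hx hf, nabla_ev z0 W hW e2 g2 k2 p2 1 x hx hf,
        nabla_ev z0 W hW e3 g3 k3 p3 2 x hx hf]
      rw [prodF] at hf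
      have f1 : x 2 ≠ 0 := left_ne_zero_of_mul (left_ne_zero_of_mul hf)
      have f2 : cc (x 0) (x 1) ≠ 0 := right_ne_zero_of_mul (left_ne_zero_of_mul hf)
      have f3 : qq (x 0) (x 1) (x 2 + z0) ≠ 0 := right_ne_zero_of_mul hf
      have hid' := congrArg (eval (Sum.elim x s)) hid
      have E0 : eval x (Fp z0 0) = x 2 := by simp [Fp]
      have E1 : eval x (Fp z0 1) = cc (x 0) (x 1) := by simp [Fp, cc]
      have E2 : eval x (Fp z0 2) = qq (x 0) (x 1) (x 2 + z0) := by simp [Fp, qq]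
      have D00 : eval x (pderiv 0 (Fp z0 0)) = 0 := by rw [P00]; simp
      have D10 : eval x (pderiv 1 (Fp z0 0)) = 0 := by rw [P10]; simp
      have D20 : eval x (pderiv 2 (Fp z0 0)) = 1 := by rw [P20]; simp
      have D01 : eval x (pderiv 0 (Fp z0 1)) = cx (x 0) (x 1) := by rw [P01]; simp [cx]
      have D11 : eval x (pderiv 1 (Fp z0 1)) = cy (x 0) (x 1) := by rw [P11]; simp [cy]
      have D21 : eval x (pderiv 2 (Fp z0 1)) = 0 := by rw [P21]; simp
      have D02 : eval x (pderiv 0 (Fp z0 2)) = 2 * x 0 := by rw [P02]; simp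
      have D12 : eval x (pderiv 1 (Fp z0 2)) = 2 * (x 2 + z0) * x 1 := by rw [P12]; simp
      have D22 : eval x (pderiv 2 (Fp z0 2)) = x 1 ^ 2 := by rw [P22]; simp
      simp only [Fin.sum_univ_three, E0, E1, E2, D00, D10, D20, D01, D11, D21, D02, D12, D22,
        map_mul]
      have hc : ∀ u v : O6, eval (Sum.elim x s) (cc u v)
          = cc (eval (Sum.elim x s) u) (eval (Sum.elim x s) v) := by intro u v; simp [cc]
      have hcx : ∀ u v : O6, eval (Sum.elim x s) (cx u v)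
          = cx (eval (Sum.elim x s) u) (eval (Sum.elim x s) v) := by intro u v; simp [cx]
      have hcy : ∀ u v : O6, eval (Sum.elim x s) (cy u v)
          = cy (eval (Sum.elim x s) u) (eval (Sum.elim x s) v) := by intro u v; simp [cy]
      have hq : ∀ u v w : O6, eval (Sum.elim x s) (qq u v w) = qq (eval (Sum.elim x s) u)
          (eval (Sum.elim x s) v) (eval (Sum.elim x s) w) := by intro u v w; simp [qq]
      simp only [map_mul, map_add, map_pow, hc, hcx, hcy, hq, eval_X, eval_C, Sum.elim_inl,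
        Sum.elim_inr, map_ofNat, LinearMap.toAddMonoidHom_coe, Derivation.coeFn_coe] at hid'
      simp only [ev]
      field_simp
      linear_combination (-(eval s e1 * eval s e2 * eval s e3)) * hid'
    · exact can_poly _ (X 0 + 1) (by simp; norm_num) (by simp [ev])
    · exact can_poly _ (X 0 + 2) (by simp; norm_num) (by simp [ev])
    · exact can_poly _ (X 0 + 3) (by simp; norm_num) (by simp [ev])
    · exact can_poly _ (X 1 + 1) (by simp; norm_num) (by simp [ev])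
    · exact can_poly _ (X 2 + 1) (by simp) (by simp [ev])
    · exact can_poly _ (X 2 + 2) (by simp; norm_num) (by simp [ev])
    · intro k hk
      refine can_poly _ (3 * X 1 + 2 * X 2 + 2 + (k : MvPolynomial (Fin 3) ℂ)) ?_ (by simp [ev])
      simp
      intro h
      apply hk
      have : (k : ℂ) = (5 : ℕ) := by push_cast; linear_combination h
      exact_mod_cast this
    · refine can_poly _ (2 * C z0 + 2 + X 2 * (C z0 + 4)) ?_ (by simp [ev])
      simp
      intro h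
      apply hz
      linear_combination h
    · exact can_unit _ z0 h0 (by simp [ev])
    · exact can_unit _ (z0 + 1) h1 (by simp [ev, add_assoc])
    · exact can_unit _ (z0 + 4) h4 (by simp [ev, add_assoc])
    · exact can_poly _ 2 (by simp) (by simp [ev])
    · exact can_poly _ 3 (by simp) (by simp [ev])
  obtain ⟨e, he, g, hg, h⟩ := H.one_mem
  refine ⟨e, ?_, he⟩
  intro p hp
  refine ⟨W, hW, hp, g, hg, ?_⟩
  intro x hx hf s
  rw [h x hx hf]
  simp [ev]

end Pool.Agent.H869Z.ABS
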