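import Pool.Agent.H869Z.AAn1

/-! Polynomial approximation of analytic germs. -/

namespace Pool.Agent.H869Z.ABS

open MvPolynomial Filter Topology Asymptotics

variable {n : ℕ}

lemma analyticAt_pd {r : (Fin n → ℂ) → ℂ} {x : Fin n → ℂ} (hr : AnalyticAt ℂ r x) (j : Fin n) :
    AnalyticAt ℂ (pd j r) x :=
  ((ContinuousLinearMap.apply ℂ ℂ (Pi.single j 1 : Fin n → ℂ)).analyticAt _).comp hr.fderiv

lemma bigO_pd {r : (Fin n → ℂ) → ℂ} (hr : AnalyticAt ℂ r 0) (K : ℕ)
    (h : r =O[𝓝 0] fun x => ‖x‖ ^ (K + 1)) (j : Fin n) :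
    pd j r =O[𝓝 0] fun x => ‖x‖ ^ K := by
  obtain ⟨C, hC0, hC⟩ := h.exists_pos
  rw [IsBigOWith] at hC
  obtain ⟨ε, hε, hb⟩ := Metric.eventually_nhds_iff_ball.mp (hC.and hr.eventually_analyticAt)
  have hn1 : ‖(Pi.single j 1 : Fin n → ℂ)‖ = 1 := by simp [Pi.norm_single]
  have key : ∀ x : Fin n → ℂ, ∀ ρ : ℝ, 0 < ρ → ‖x‖ + ρ < ε →
      ‖pd j r x‖ ≤ C * (‖x‖ + ρ) ^ (K + 1) / ρ := by
    intro x ρ hρ hx
    have hin : ∀ τ : ℂ, ‖τ‖ ≤ ρ → ‖x + τ • (Pi.single j 1 : Fin n → ℂ)‖ ≤ ‖x‖ + ρ := by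
      intro τ hτ
      refine (norm_add_le _ _).trans ?_
      rw [norm_smul, hn1, mul_one]
      linarith
    have hdiff : ∀ τ : ℂ, ‖τ‖ ≤ ρ →
        DifferentiableAt ℂ (fun τ : ℂ => r (x + τ • (Pi.single j 1 : Fin n → ℂ))) τ := by
      intro τ hτ
      have h1 := (hb (x + τ • (Pi.single j 1 : Fin n → ℂ))
        (by rw [mem_ball_zero_iff]; linarith [hin τ hτ])).2.differentiableAt
      exact h1.comp τ (by fun_prop)
    have hder : deriv (fun τ : ℂ => r (x + τ • (Pi.single j 1 : Fin n → ℂ))) 0 = pd j r x := by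
      have h1 : DifferentiableAt ℂ r x :=
        (hb x (by rw [mem_ball_zero_iff]; linarith)).2.differentiableAt
      have h2 : HasDerivAt (fun τ : ℂ => x + τ • (Pi.single j 1 : Fin n → ℂ))
          (Pi.single j 1) 0 := by
        simpa using ((hasDerivAt_id (0 : ℂ)).smul_const (Pi.single j 1 : Fin n → ℂ)).const_add x
      have h3 := HasFDerivAt.comp_hasDerivAt_of_eq (0 : ℂ) h1.hasFDerivAt h2 (by simp)
      exact h3.deriv
    rw [← hder]
    apply Complex.norm_deriv_le_of_forall_mem_sphere_norm_le hρ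
    · apply DifferentiableOn.diffContOnCl
      rw [closure_ball _ hρ.ne']
      intro τ hτ
      exact (hdiff τ (by simpa using hτ)).differentiableWithinAt
    · intro τ hτ
      have hτ' : ‖τ‖ ≤ ρ := by simp at hτ; exact hτ.le
      have h1 := (hb (x + τ • (Pi.single j 1 : Fin n → ℂ))
        (by rw [mem_ball_zero_iff]; linarith [hin τ hτ'])).1
      refine h1.trans ?_
      rw [norm_pow, norm_norm]
      gcongr
      exact hin τ hτ'
  refine IsBigO.of_bound (C * 2 ^ (K + 1)) ?_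
  filter_upwards [Metric.ball_mem_nhds (0 : Fin n → ℂ) (half_pos hε)] with x hx
  rw [mem_ball_zero_iff] at hx
  rw [norm_pow, norm_norm]
  rcases (norm_nonneg x).eq_or_lt with h0 | h0
  · rw [← h0]
    have lim : Tendsto (fun ρ : ℝ => C * 2 ^ (K + 1) * ρ ^ K) (𝓝[>] 0)
        (𝓝 (C * 2 ^ (K + 1) * 0 ^ K)) :=
      (Continuous.tendsto (by fun_prop) 0).mono_left nhdsWithin_le_nhds
    refine ge_of_tendsto lim ?_
    filter_upwards [Ioo_mem_nhdsGT hε] with ρ hρ
    have := key x ρ hρ.1 (by rw [← h0]; simpa using hρ.2)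
    rw [← h0, zero_add, pow_succ, ← mul_assoc, mul_div_assoc, div_self hρ.1.ne', mul_one] at this
    refine this.trans ?_
    have h1 : (1 : ℝ) ≤ 2 ^ (K + 1) := one_le_pow₀ (by norm_num)
    have h2 : 0 ≤ C * ρ ^ K := mul_nonneg hC0.le (pow_nonneg hρ.1.le _)
    nlinarith
  · refine (key x ‖x‖ h0 (by linarith)).trans (le_of_eq ?_)
    rw [← two_mul, mul_pow, pow_succ ‖x‖]
    field_simp

lemma exists_approx {k : (Fin n → ℂ) → ℂ} (hk : AnalyticAt ℂ k 0) (K : ℕ) :
    ∃ Q : MvPolynomial (Fin n) ℂ, (fun x => k x - eval x Q) =O[𝓝 0] fun x => ‖x‖ ^ K := by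
  obtain ⟨p, hp⟩ := hk
  have h := hp.isBigO_sub_partialSum_pow K
  have hpoly : ∀ i : ℕ, ∃ Q : MvPolynomial (Fin n) ℂ, ∀ y, p i (fun _ => y) = eval y Q := by
    intro i
    refine ⟨∑ r : Fin i → Fin n, C (p i fun l => Pi.single (r l) 1) * ∏ l, X (r l), ?_⟩
    intro y
    have e : y = ∑ j, y j • (Pi.single j 1 : Fin n → ℂ) := by
      ext l
      simp [Finset.sum_apply, Pi.single_apply]
    conv_lhs => rw [e]
    rw [ContinuousMultilinearMap.map_sum, map_sum]
    apply Finset.sum_congr rfl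
    intro r _
    rw [ContinuousMultilinearMap.map_smul_univ]
    simp [mul_comm]
  choose Q hQ using hpoly
  refine ⟨∑ i ∈ Finset.range K, Q i, ?_⟩
  refine h.congr_left ?_
  intro y
  simp [FormalMultilinearSeries.partialSum, hQ]

lemma analyticAt_eval (P : MvPolynomial (Fin n) ℂ) (x : Fin n → ℂ) :
    AnalyticAt ℂ (fun y => eval y P) x :=
  AnalyticOnNhd.eval_mvPolynomial P x (Set.mem_univ x)

lemma poly_high (K : ℕ) : ∀ P : MvPolynomial (Fin n) ℂ,
    ((fun x => eval x P) =O[𝓝 0] fun x : Fin n → ℂ => ‖x‖ ^ K) →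
    ∀ e : Fin n →₀ ℕ, ∑ i, e i < K → coeff e P = 0 := by
  induction K with
  | zero => intro P _ e he; omega
  | succ K ih =>
    intro P h e he
    by_cases h0 : e = 0
    · subst h0
      obtain ⟨C, hC⟩ := h.bound
      have := hC.self_of_nhds
      simp only [norm_zero, ne_eq, Nat.add_eq_zero_iff, one_ne_zero, and_false, not_false_eq_true,
        zero_pow, mul_zero, norm_le_zero_iff] at this
      rw [← constantCoeff_eq, ← eval_zero]
      exact this
    · obtain ⟨j, hj⟩ : ∃ j, e j ≠ 0 := by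
        by_contra hc
        push Not at hc
        exact h0 (Finsupp.ext hc)
      have h1 := bigO_pd (analyticAt_eval P 0) K h j
      have h2 : pd j (fun y => eval y P) = fun y => eval y (pderiv j P) :=
        funext fun y => (pd_evalT P j y).2
      rw [h2] at h1
      have e1 : e = (e - Finsupp.single j 1) + Finsupp.single j 1 := by
        rw [tsub_add_cancel_of_le]
        rw [Finsupp.single_le_iff]
        omega
      have h3 := ih _ h1 (e - Finsupp.single j 1) (by
        have := congrArg (fun f : Fin n →₀ ℕ => ∑ i, f i) e1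
        simp only [Finsupp.add_apply, Finset.sum_add_distrib, Finsupp.single_apply,
          Finset.sum_ite_eq, Finset.mem_univ, if_true] at this
        omega)
      rw [coeff_pderiv, ← e1] at h3
      refine (mul_eq_zero.mp h3).resolve_right ?_
      exact Nat.cast_add_one_ne_zero _

end Pool.Agent.H869Z.ABS
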