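import Pool.Agent.H869Z.AObs3

/-! The algebraic obstruction, assembled. -/

namespace Pool.Agent.H869Z.AObs

open Pool.Agent.H869Z.Der Pool.Agent.H869Z.AMem Pool.Agent.H869Z.ABS
open scoped PowerSeries LaurentPolynomial
open MvPolynomial (X pderiv eval₂Hom)
open LaurentPolynomial (T)

/-- The properties of the obstruction used by the analytic argument. -/
structure Obst (z0 : ℂ) (a : Fin 3 → ℂ) (V : ℕ → AddSubgroup T3) : Prop where
  raise : ∀ N P, ff z0 * P ∈ V (N + 1) ↔ P ∈ V N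
  nab : ∀ j N P, nabP z0 a j N P ∈ V (N + 1)
  gen : ∀ m, m * ff z0 ∈ V 0
  high : ∀ N P, (∀ e : Fin 3 →₀ ℕ, e 0 + e 1 + e 2 ≤ 6 * N + 8 → MvPolynomial.coeff e P = 0) →
    P ∈ V N
  fin : ∀ b : ℂ, MvPolynomial.C b * ee ∈ V 0 → b = 0

theorem exists_obst_aux (z0 : ℂ) (a : Fin 3 → ℂ) (ha0 : a 0 = -4) (hs : 3 * a 1 + 2 * a 2 = -7)
    (hw : 2 * z0 + 2 + a 2 * (z0 + 4) = 0) (hN : a 2 * (z0 * (z0 + 1) * (z0 + 4)) ≠ 0)
    {R : Type} [CommRing R] {k : ℂ →+* R} {t uc uq : R} {d : R →+ R}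
    (H : Line z0 (a 1) (a 2) R k t uc uq d) : ∃ V, Obst z0 a V := by
  obtain ⟨c, hc⟩ : ∃ c : R, c = t ^ 2 + t - 2 := ⟨_, rfl⟩
  obtain ⟨q, hq⟩ : ∃ q : R, q = t ^ 2 + k z0 := ⟨_, rfl⟩
  have hcu : c * uc = 1 := hc ▸ H.hc
  have hqu : q * uq = 1 := hq ▸ H.hq
  have dc : d c = 2 * t + 1 := by
    simp only [hc, map_sub, map_add, der_sq H.der, der_two H.der, H.dt]; ring
  have dq : d q = 2 * t := by
    simp only [hq, map_add, der_sq H.der, H.dk, H.dt]; ring
  have duq : d uq = (-(2 * t * uq)) * uq := by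
    have := der_mul H.der q uq
    rw [hqu, H.der.one, dq] at this
    linear_combination (-uq) * this - d uq * hqu
  obtain ⟨w, hwd⟩ : ∃ w : R, w = k (a 1) * (2 * t + 1) * uc + k (a 2) * (2 * t) * uq := ⟨_, rfl⟩
  obtain ⟨G, hG⟩ : ∃ G : R⟦X⟧, G = GG k (a 2) uq := ⟨_, rfl⟩
  obtain ⟨κq, hκq⟩ : ∃ κq : R⟦X⟧, (PowerSeries.C q + PowerSeries.X) * κq = 1 := by
    apply IsUnit.exists_right_inv
    rw [PowerSeries.isUnit_iff_constantCoeff]
    simpa using IsUnit.of_mul_eq_one _ hqu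
  have hcu' : (PowerSeries.C c : R⟦X⟧) * PowerSeries.C uc = 1 := by rw [← map_mul, hcu, map_one]
  have hqu' : (PowerSeries.C q : R⟦X⟧) * PowerSeries.C uq = 1 := by rw [← map_mul, hqu, map_one]
  obtain ⟨u, hu⟩ : ∃ u : R⟦X⟧, u = PowerSeries.C c * (PowerSeries.C q + PowerSeries.X) := ⟨_, rfl⟩
  obtain ⟨κ, hκ⟩ : ∃ κ : R⟦X⟧, κ = PowerSeries.C uc * κq := ⟨_, rfl⟩
  have huκ : u * κ = 1 := by
    rw [hu, hκ]
    linear_combination (PowerSeries.C q + PowerSeries.X) * κq * hcu' + hκq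
  have ThG : Th G = PowerSeries.C (k (a 2)) * PowerSeries.X * G * κq := by
    have := Th_GG k (a 2) uq q hqu
    rw [← hG] at this
    linear_combination κq * this - Th G * hκq
  have DtG : Dt d G = PowerSeries.C (-(2 * t * uq)) * Th G := by
    rw [hG]; exact Dt_GG k (a 2) uq _ H.der H.dk duq
  have hDt := isDer_Dt H.der
  have Dtu : Dt d u = PowerSeries.C (2 * t + 1) * (PowerSeries.C q + PowerSeries.X)
      + PowerSeries.C c * PowerSeries.C (2 * t) := by
    simp only [hu, der_mul hDt, map_add (Dt d), Dt_C, Dt_X H.der, dc, dq]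
    ring
  have Thu : Th u = PowerSeries.C c * PowerSeries.X := by
    simp only [hu, der_mul isDer_Th, map_add Th, Th_C, Th_X]
    ring
  -- images of the polynomials
  have p1 : Phi k t (Fp z0 1) = LaurentPolynomial.C (PowerSeries.C c) * T 1 ^ 3 := by
    simp only [F1, cc, hc, map_add, map_sub, map_mul, map_pow, map_ofNat, Phi_0, Phi_1]
    ring
  have p2 : Phi k t (Fp z0 2)
      = LaurentPolynomial.C (PowerSeries.C q + PowerSeries.X) * T 1 ^ 2 := by
    simp only [F2, qq, hq, map_add, map_mul, map_pow, Phi_0, Phi_1, Phi_2, Phi_C]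
    ring
  have p0 : Phi k t (Fp z0 0) = LaurentPolynomial.C PowerSeries.X := Phi_2 k t
  have pf : Phi k t (ff z0) = LaurentPolynomial.C (PowerSeries.X * u) * T 1 ^ 5 := by
    simp only [ff, hu, map_mul, p0, p1, p2]
    ring
  have p12 : Phi k t (Fp z0 1 * Fp z0 2) = LaurentPolynomial.C u * T 1 ^ 5 := by
    simp only [hu, map_mul, p1, p2]
    ring
  have mx : ∀ N : ℕ, Phi k t (om z0 a 0 - N * pderiv 0 (ff z0)) = LaurentPolynomial.C
      (PowerSeries.X * (PowerSeries.C (k (a 1)) * PowerSeries.C (2 * t + 1)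
        * (PowerSeries.C q + PowerSeries.X) + PowerSeries.C (k (a 2)) * PowerSeries.C c
        * PowerSeries.C (2 * t) - (N : R⟦X⟧) * Dt d u)) * T 1 ^ 4 := by
    intro N
    simp only [om, pderiv_ff, P00, P01, P02, cx, Dtu, map_add, map_sub, map_mul, map_pow,
      map_ofNat, map_natCast, map_zero, map_one, p0, p1, p2, Phi_0, Phi_1, Phi_C]
    ring
  have mz : ∀ N : ℕ, Phi k t (om z0 a 2 - N * pderiv 2 (ff z0)) = LaurentPolynomial.C
      (PowerSeries.C (k (a 0)) * u + PowerSeries.C (k (a 2)) * PowerSeries.C c * PowerSeries.X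
        - (N : R⟦X⟧) * (u + PowerSeries.C c * PowerSeries.X)) * T 1 ^ 5 := by
    intro N
    simp only [om, pderiv_ff, P20, P21, P22, hu, map_add, map_sub, map_mul, map_pow,
      map_natCast, map_zero, map_one, p0, p1, p2, Phi_1, Phi_C]
    ring
  let W : AddSubgroup R :=
    { carrier := {z | ∃ (h : R) (α β : ℂ), z = d h + w * h + c * (k α * q + k β)}
      zero_mem' := ⟨0, 0, 0, by simp⟩
      add_mem' := by
        rintro _ _ ⟨h, α, β, rfl⟩ ⟨h', α', β', rfl⟩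
        exact ⟨h + h', α + α', β + β', by simp only [map_add]; ring⟩
      neg_mem' := by
        rintro _ ⟨h, α, β, rfl⟩
        exact ⟨-h, -α, -β, by simp only [map_neg]; ring⟩ }
  have hW : ∀ h, d h + w * h ∈ W := fun h => ⟨h, 0, 0, by simp⟩
  have hWs : ∀ (e : ℂ) z, z ∈ W → k e * z ∈ W := by
    rintro e _ ⟨h, α, β, rfl⟩
    refine ⟨k e * h, e * α, e * β, ?_⟩
    simp only [der_mul H.der, H.dk, map_mul]
    ring
  have hWv : c * uq ∈ W := by
    have ht : (a 1 + 2) * (2 - z0) + z0 + 2 + 4 * a 2 = 0 := by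
      linear_combination (2 / 3) * hw + ((2 - z0) / 3) * hs
    have ht' := congrArg k ht
    simp only [map_add, map_mul, map_ofNat, map_zero, map_sub] at ht'
    have h1 : k (2 * (a 2 * (z0 * (z0 + 1) * (z0 + 4)))) * (c * uq) ∈ W := by
      refine ⟨c ^ 2 * (-k z0 + (k z0 + 2) * t),
        -((a 1 + 2) * 2 * (z0 + 2) + (z0 + 2) + 2 * a 2 * (z0 + 2)),
        -(-(a 1 + 2) * z0 - 2 * (z0 + 2) + 2 * a 2 * (-z0 - 2 * (z0 + 2) - z0 * (z0 + 2))
          - z0 * ((a 1 + 2) * 2 * (z0 + 2) + (z0 + 2) + 2 * a 2 * (z0 + 2))), ?_⟩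
      simp only [der_mul H.der, der_sq H.der, map_add, map_neg, map_mul, map_sub, map_ofNat,
        map_one, H.dk, H.dt, dc, der_two H.der, hwd]
      rw [hc] at hcu ⊢
      rw [hq] at hqu ⊢
      linear_combination
        (-(k (a 1) * (2 * t + 1) * (t ^ 2 + t - 2) * (-k z0 + (k z0 + 2) * t))) * hcu
        - (k (a 2) * (t ^ 2 + t - 2) * 2 * ((k z0 + 2) * t ^ 2 + 2 * t
          + (-k z0 - 2 * (k z0 + 2) - k z0 * (k z0 + 2)))) * hqu - (t ^ 2 + t - 2) * t * ht'
    have h2 := hWs (2 * (a 2 * (z0 * (z0 + 1) * (z0 + 4))))⁻¹ _ h1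
    rwa [← mul_assoc, ← map_mul, inv_mul_cancel₀ (mul_ne_zero two_ne_zero hN), map_one,
      one_mul] at h2
  let val : ℕ → T3 →+ R := fun N =>
    { toFun := fun P => PowerSeries.coeff (N + 3) (G * κ ^ N * (Phi k t P).coeff (5 * N + 5))
      map_zero' := by simp
      map_add' := by
        intro P Q
        rw [map_add (Phi k t), AddMonoidAlgebra.coeff_add, Finsupp.add_apply, mul_add, map_add] }
  have hval : ∀ N P, val N P
      = PowerSeries.coeff (N + 3) (G * κ ^ N * (Phi k t P).coeff (5 * N + 5)) := fun _ _ => rfl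
  have idx : ∀ N : ℕ, (5 * ((N + 1 : ℕ) : ℤ) + 5) = (5 * N + 5) + (5 : ℕ) := by
    intro N; push_cast; ring
  have raise : ∀ N P, val (N + 1) (ff z0 * P) = val N P := by
    intro N P
    rw [hval, hval, idx, Phi_mul k t _ _ _ 5 pf, show G * κ ^ (N + 1) * (PowerSeries.X * u
      * (Phi k t P).coeff (5 * N + 5)) = PowerSeries.X * (G * κ ^ N
      * (Phi k t P).coeff (5 * N + 5)) by linear_combination (G * κ ^ N * PowerSeries.X
      * (Phi k t P).coeff (5 * N + 5)) * huκ, show N + 1 + 3 = (N + 3) + 1 by ring,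
      PowerSeries.coeff_succ_X_mul]
  have cx' : ∀ (N : ℕ) P, G * κ ^ (N + 1) * (Phi k t (nabP z0 a 0 N P)).coeff (5 * N + 5 + (5 : ℕ))
      = PowerSeries.X * (Dt d (G * κ ^ N * (Phi k t P).coeff (5 * N + 5 + 1))
        + PowerSeries.C w * (G * κ ^ N * (Phi k t P).coeff (5 * N + 5 + 1))) := by
    intro N P
    rw [nabP, map_add (Phi k t), AddMonoidAlgebra.coeff_add, Finsupp.add_apply, Phi_mul k t _ _ _ 5 pf,
      Phi_dx k t H.der H.dk H.dt, show (5 * (N : ℤ) + 5 + (5 : ℕ)) = (5 * N + 5 + 1) + (4 : ℕ) by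
        push_cast; ring, Phi_mul k t _ _ _ 4 (mx N), der_mul hDt, der_mul hDt,
      der_inv_pow hDt u κ huκ, DtG, ThG, hwd]
    obtain ⟨ψ, hψ⟩ : ∃ ψ, ψ = (Phi k t P).coeff (5 * N + 5 + 1) := ⟨_, rfl⟩
    rw [← hψ]
    simp only [map_add, map_mul, map_neg, map_ofNat, map_one]
    linear_combination (PowerSeries.X * G * κ ^ N * Dt d ψ) * huκ
      + (PowerSeries.X * ψ * G * κ ^ N * (PowerSeries.C (k (a 1)) * (2 * PowerSeries.C t + 1)
        * (PowerSeries.C q + PowerSeries.X) + PowerSeries.C (k (a 2)) * PowerSeries.C c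
        * (2 * PowerSeries.C t))) * hκ
      + (PowerSeries.X * ψ * G * κ ^ N * PowerSeries.C (k (a 1)) * (2 * PowerSeries.C t + 1)
        * PowerSeries.C uc) * hκq
      + (PowerSeries.X * ψ * G * κ ^ N * PowerSeries.C (k (a 2)) * (2 * PowerSeries.C t) * κq)
        * hcu'
      + (PowerSeries.X * ψ * G * κ ^ N * PowerSeries.C (k (a 2)) * (2 * PowerSeries.C t)
        * PowerSeries.C uq) * hκq
      - (PowerSeries.X * ψ * G * κ ^ N * PowerSeries.C (k (a 2)) * (2 * PowerSeries.C t) * κq)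
        * hqu'
  have vx : ∀ (N : ℕ) P, val (N + 1) (nabP z0 a 0 N P)
      = d (PowerSeries.coeff (N + 3) (G * κ ^ N * (Phi k t P).coeff (5 * N + 5 + 1)))
        + w * PowerSeries.coeff (N + 3) (G * κ ^ N * (Phi k t P).coeff (5 * N + 5 + 1)) := by
    intro N P
    rw [hval, idx, cx', show N + 1 + 3 = (N + 3) + 1 by ring, PowerSeries.coeff_succ_X_mul,
      map_add, coeff_Dt, PowerSeries.coeff_C_mul]
  have vy : ∀ (N : ℕ) P, val (N + 1) (nabP z0 a 1 N P) ∈ W := by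
    intro N P
    have e := congrArg (fun Q => (Phi k t Q).coeff (5 * N + 5 + (5 : ℕ) + (1 : ℕ)))
      (euler_nabP z0 a N P)
    simp only [map_add (Phi k t), AddMonoidAlgebra.coeff_add, Finsupp.add_apply] at e
    rw [Phi_mul k t (X 0) _ (PowerSeries.C t) 1 (by rw [Phi_0, pow_one]),
      Phi_mul k t (X 1) _ 1 1 (by rw [Phi_1]; simp),
      show (5 * (N : ℤ) + 5 + (5 : ℕ) + (1 : ℕ)) = (5 * N + 5 + 1) + (5 : ℕ) by push_cast; ring,
      Phi_mul k t _ _ _ 5 pf, Phi_E, ← mul_assoc (MvPolynomial.C _ - 5 * (N : T3)),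
      Phi_mul k t _ _ ((-7 - 5 * (N : R⟦X⟧)) * (PowerSeries.X * u)) 5 (by
        rw [map_mul, pf, hs]
        simp only [map_sub, map_mul, map_ofNat, map_natCast, map_neg]
        ring)] at e
    have e2 : G * κ ^ (N + 1) * (Phi k t (nabP z0 a 1 N P)).coeff (5 * N + 5 + (5 : ℕ))
        = -(PowerSeries.X * (G * κ ^ N * (Phi k t P).coeff (5 * N + 5 + 1)))
          - PowerSeries.C t * (G * κ ^ (N + 1)
            * (Phi k t (nabP z0 a 0 N P)).coeff (5 * N + 5 + (5 : ℕ))) := by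
      push_cast at e ⊢
      linear_combination (G * κ ^ (N + 1)) * e
        - (PowerSeries.X * (G * κ ^ N * (Phi k t P).coeff (5 * N + 5 + 1))) * huκ
    rw [hval, idx, e2, map_sub, PowerSeries.coeff_C_mul, ← idx, ← hval, vx, map_neg,
      show N + 1 + 3 = (N + 3) + 1 by ring, PowerSeries.coeff_succ_X_mul]
    convert hW (-(t * PowerSeries.coeff (N + 3)
      (G * κ ^ N * (Phi k t P).coeff (5 * N + 5 + 1)))) using 1
    rw [map_neg, der_mul H.der, H.dt]
    ring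
  have vz : ∀ (N : ℕ) P, val (N + 1) (nabP z0 a 2 N P) = 0 := by
    intro N P
    have e : G * κ ^ (N + 1) * (Phi k t (nabP z0 a 2 N P)).coeff (5 * N + 5 + (5 : ℕ))
        = Th (G * κ ^ N * (Phi k t P).coeff (5 * N + 5))
          - PowerSeries.C ((N : R) + 4) * (G * κ ^ N * (Phi k t P).coeff (5 * N + 5)) := by
      rw [nabP, map_add (Phi k t), AddMonoidAlgebra.coeff_add, Finsupp.add_apply,
        show ff z0 * pderiv 2 P = (Fp z0 1 * Fp z0 2) * (X 2 * pderiv 2 P) by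
          rw [ff, F0]; ring, Phi_mul k t _ _ _ 5 p12, Phi_dz, Phi_mul k t _ _ _ 5 (mz N),
        der_mul isDer_Th, der_mul isDer_Th, der_inv_pow isDer_Th u κ huκ, ThG, Thu, ha0]
      obtain ⟨ψ, hψ⟩ : ∃ ψ, ψ = (Phi k t P).coeff (5 * N + 5) := ⟨_, rfl⟩
      rw [← hψ]
      simp only [map_add, map_neg, map_ofNat, map_natCast]
      linear_combination (G * κ ^ N * Th ψ - (N + 4) * G * κ ^ N * ψ) * huκ
        + (G * κ ^ N * ψ * PowerSeries.C (k (a 2)) * PowerSeries.X * PowerSeries.C c) * hκ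
        + (G * κ ^ N * ψ * PowerSeries.C (k (a 2)) * PowerSeries.X * κq) * hcu'
    rw [hval, idx, e, map_sub, coeff_Th, PowerSeries.coeff_C_mul]
    push_cast
    ring
  refine ⟨fun N => W.comap (val N), ?_, ?_, ?_, ?_, ?_⟩
  · intro N P
    simp only [AddSubgroup.mem_comap, raise]
  · intro j N P
    rw [AddSubgroup.mem_comap]
    fin_cases j
    · exact vx N P ▸ hW _
    · exact vy N P
    · exact vz N P ▸ W.zero_mem
  · intro m
    obtain ⟨μ, hμ⟩ := Phi_coeff_zero k t m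
    rw [AddSubgroup.mem_comap, hval, mul_comm m, show (5 * ((0 : ℕ) : ℤ) + 5) = 0 + (5 : ℕ) by
      norm_num, Phi_mul k t _ _ _ 5 pf, hμ, show G * κ ^ 0 * (PowerSeries.X * u
        * PowerSeries.map k μ) = PowerSeries.X * (PowerSeries.C c * (PowerSeries.C q
        * (G * PowerSeries.map k μ) + PowerSeries.X * (G * PowerSeries.map k μ))) by
        rw [hu]; ring, show 0 + 3 = 2 + 1 from rfl, PowerSeries.coeff_succ_X_mul,
      PowerSeries.coeff_C_mul, map_add, PowerSeries.coeff_C_mul, show 2 = 1 + 1 from rfl,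
      PowerSeries.coeff_succ_X_mul, PowerSeries.coeff_mul, PowerSeries.coeff_mul]
    simp only [Finset.Nat.antidiagonal_succ, Finset.Nat.antidiagonal_zero, Finset.sum_cons,
      Finset.sum_map, Finset.sum_singleton, hG, GG, PowerSeries.coeff_mk, PowerSeries.coeff_map,
      Function.Embedding.prodMap, Function.Embedding.coeFn_mk, Function.Embedding.refl_apply,
      Prod.map_apply, Nat.succ_eq_add_one]
    have b0 : bin (a 2) 0 = 1 := rfl
    have h1 : c * (k (PowerSeries.coeff 2 μ) * q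
        + k ((bin (a 2) 1 + 1) * PowerSeries.coeff 1 μ)) ∈ W :=
      ⟨0, PowerSeries.coeff 2 μ, (bin (a 2) 1 + 1) * PowerSeries.coeff 1 μ, by simp⟩
    convert W.add_mem h1 (hWs ((bin (a 2) 2 + bin (a 2) 1) * PowerSeries.coeff 0 μ) _ hWv)
      using 1
    simp only [b0, map_add, map_mul, map_one, zero_add, Nat.reduceAdd]
    linear_combination (c * k (bin (a 2) 1) * k (PowerSeries.coeff 1 μ)
      + c * k (bin (a 2) 2) * uq * k (PowerSeries.coeff 0 μ)) * hqu
  · intro N P h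
    rw [AddSubgroup.mem_comap, hval, show (5 * (N : ℤ) + 5) = ((5 * N + 5 : ℕ) : ℤ) by
      push_cast; ring, Phi_high k t P (5 * N + 5) (N + 3) _ (fun e he => h e (by omega))]
    exact W.zero_mem
  · intro b hb
    have pe : Phi k t ee = LaurentPolynomial.C (PowerSeries.C (c * t) * PowerSeries.X ^ 3)
        * T 1 ^ 5 := by
      rw [ee, ← F1 z0]
      simp only [map_mul, map_pow, p1, Phi_0, Phi_1, Phi_2]
      ring
    rw [AddSubgroup.mem_comap, hval, mul_comm (MvPolynomial.C b),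
      show (5 * ((0 : ℕ) : ℤ) + 5) = 0 + (5 : ℕ) by norm_num, Phi_mul k t _ _ _ 5 pe, Phi_C,
      LaurentPolynomial.C_apply, if_pos rfl, show G * κ ^ 0 * (PowerSeries.C (c * t)
        * PowerSeries.X ^ 3 * PowerSeries.C (k b)) = PowerSeries.C (c * t * k b) * (G
        * PowerSeries.X ^ 3) by simp only [map_mul]; ring, PowerSeries.coeff_C_mul,
      PowerSeries.coeff_mul_X_pow, hG, GG, PowerSeries.coeff_mk] at hb
    obtain ⟨h, α, β, e⟩ := hb
    refine H.obs b (-α) (-β) h ?_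
    rw [← hwd, ← hc, ← hq]
    have b0 : bin (a 2) 0 = 1 := rfl
    rw [b0] at e
    simp only [map_neg, map_one] at e ⊢
    linear_combination -e

theorem exists_obst (z0 : ℂ) (a : Fin 3 → ℂ) (ha0 : a 0 = -4) (hs : 3 * a 1 + 2 * a 2 = -7)
    (hw : 2 * z0 + 2 + a 2 * (z0 + 4) = 0) (h0 : z0 ≠ 0) (h1 : z0 + 1 ≠ 0) (h4 : z0 + 4 ≠ 0)
    (ha1 : ∀ n : ℤ, a 1 ≠ n) (ha2 : ∀ n : ℤ, a 2 ≠ n) : ∃ V, Obst z0 a V := by
  obtain ⟨k, t, uc, uq, d, H⟩ := exists_line z0 (a 1) (a 2) h0 h1 h4 ha1 ha2 hs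
    (Localization.Away (c2 * q0 z0))
  refine exists_obst_aux z0 a ha0 hs hw ?_ H
  exact mul_ne_zero (by simpa using ha2 0) (mul_ne_zero (mul_ne_zero h0 h1) h4)

end Pool.Agent.H869Z.AObs
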