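import Pool.Agent.H869Z.AAn2
import Pool.Agent.H869Z.AObs4

/-! Every element of the analytic Bernstein-Sato ideal vanishes at the special point. -/

namespace Pool.Agent.H869Z.ABS

open MvPolynomial Filter Topology Asymptotics Pool.Agent.H869Z.AObs

def InvN (z0 : ℂ) (V : ℕ → AddSubgroup T3) (N : ℕ) (g : (Fin 3 → ℂ) → ℂ) : Prop :=
  ∃ h : (Fin 3 → ℂ) → ℂ, AnalyticAt ℂ h 0 ∧
    (∀ᶠ x in 𝓝 0, eval x (ff z0) ≠ 0 → g x * eval x (ff z0) ^ N = h x) ∧
    ∀ K : ℕ, ∃ P : T3, ((fun x => h x - eval x P) =O[𝓝 0] fun x => ‖x‖ ^ K) ∧ ∀ m, m * P ∈ V N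

lemma bigO_mul {k r : (Fin 3 → ℂ) → ℂ} (hk : AnalyticAt ℂ k 0) {K : ℕ}
    (h : r =O[𝓝 0] fun x => ‖x‖ ^ K) : (fun x => k x * r x) =O[𝓝 0] fun x => ‖x‖ ^ K := by
  have := (hk.continuousAt.tendsto.isBigO_one ℝ).mul h
  simpa using this

lemma bigO_succ {r : (Fin 3 → ℂ) → ℂ} {K : ℕ} (h : r =O[𝓝 0] fun x => ‖x‖ ^ (K + 1)) :
    r =O[𝓝 0] fun x => ‖x‖ ^ K := by
  refine h.trans (IsBigO.of_bound 1 ?_)
  filter_upwards [Metric.ball_mem_nhds (0 : Fin 3 → ℂ) one_pos] with x hx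
  rw [mem_ball_zero_iff] at hx
  simp only [norm_pow, norm_norm, one_mul]
  exact pow_le_pow_of_le_one (norm_nonneg _) hx.le (Nat.le_succ K)

variable {z0 : ℂ} {a : Fin 3 → ℂ} {V : ℕ → AddSubgroup T3}

lemma InvN.succ (H : Obst z0 a V) {N : ℕ} {g} (h : InvN z0 V N g) : InvN z0 V (N + 1) g := by
  obtain ⟨h, ha, he, hK⟩ := h
  refine ⟨fun x => eval x (ff z0) * h x, (analyticAt_eval _ _).mul ha, ?_, ?_⟩
  · filter_upwards [he] with x hx hf
    rw [← hx hf]; ring
  · intro K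
    obtain ⟨P, h1, h2⟩ := hK K
    refine ⟨ff z0 * P, (bigO_mul (analyticAt_eval (ff z0) 0) h1).congr_left ?_, ?_⟩
    · intro x; rw [map_mul]; ring
    · intro m
      rw [mul_left_comm, H.raise]
      exact h2 m

lemma InvN.le (H : Obst z0 a V) {N M : ℕ} {g} (h : InvN z0 V N g) (hNM : N ≤ M) :
    InvN z0 V M g := by
  induction hNM with
  | refl => exact h
  | step _ ih => exact ih.succ H

lemma prodFF (z0 : ℂ) (x : Fin 3 → ℂ) : ∏ i, FF z0 i x = eval x (ff z0) := by
  simp [Fin.prod_univ_three, FF, ff]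

lemma InvN.mulA {N : ℕ} {g} (h : InvN z0 V N g) {k : (Fin 3 → ℂ) → ℂ} (hk : AnalyticAt ℂ k 0) :
    InvN z0 V N (fun x => k x * g x) := by
  obtain ⟨h, ha, he, hK⟩ := h
  refine ⟨fun x => k x * h x, hk.mul ha, ?_, ?_⟩
  · filter_upwards [he] with x hx hf
    rw [← hx hf]; ring
  · intro K
    obtain ⟨P, h1, h2⟩ := hK K
    obtain ⟨Q, h3⟩ := exists_approx hk K
    refine ⟨Q * P, ((bigO_mul hk h1).add (bigO_mul (analyticAt_eval P 0) h3)).congr_left ?_, ?_⟩
    · intro x; rw [map_mul]; ring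
    · intro m
      rw [← mul_assoc]
      exact h2 _

lemma ff_pow (z0 : ℂ) (j : Fin 3) (N : ℕ) :
    ff z0 * pderiv j (ff z0 ^ N) = N * ff z0 ^ N * pderiv j (ff z0) := by
  induction N with
  | zero => simp
  | succ N ih =>
    rw [pow_succ, Derivation.leibniz, smul_eq_mul, smul_eq_mul]
    push_cast
    linear_combination (ff z0) * ih

lemma InvN.der (H : Obst z0 a V) {N : ℕ} {g : (Fin 3 → ℂ) → (Fin 3 → ℂ) → ℂ}
    (h : InvN z0 V N (fun x => g x a)) (j : Fin 3) :
    InvN z0 V (N + 1) (fun x => nabla (FF z0) j g x a) := by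
  obtain ⟨h, ha, he, hK⟩ := h
  refine ⟨fun x => eval x (ff z0) * pd j h x + eval x (om z0 a j - N * pderiv j (ff z0)) * h x,
    ((analyticAt_eval _ _).mul (analyticAt_pd ha j)).add ((analyticAt_eval _ _).mul ha), ?_, ?_⟩
  · filter_upwards [he.eventually_nhds, ha.eventually_analyticAt] with x hx hax hf
    have hc : ContinuousAt (fun y => eval y (ff z0)) x := (analyticAt_eval _ _).continuousAt
    have hne := hc.eventually_ne hf
    have e1 : (fun y => g y a) =ᶠ[𝓝 x] fun y => h y / eval y (ff z0) ^ N := by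
      filter_upwards [hx, hne] with y h1 h2
      rw [← h1 h2]
      field_simp
    have hd : DifferentiableAt ℂ (fun y => g y a) x := by
      refine DifferentiableAt.congr_of_eventuallyEq ?_ e1
      exact (hax.div ((analyticAt_eval _ _).pow N) (pow_ne_zero N hf)).differentiableAt
    have e2 : h =ᶠ[𝓝 x] fun y => g y a * eval y (ff z0 ^ N) := by
      filter_upwards [hx, hne] with y h1 h2
      rw [← h1 h2, map_pow]
    have e3 := pd_congr (j := j) e2
    rw [pd_mul hd (pd_evalT _ j x).1, (pd_evalT _ j x).2] at e3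
    have e4 := congrArg (eval x) (ff_pow z0 j N)
    have e5 := hx.self_of_nhds hf
    have hf' := hf
    simp only [ff, map_mul] at hf'
    have f0 : eval x (Fp z0 0) ≠ 0 := left_ne_zero_of_mul (left_ne_zero_of_mul hf')
    have f1 : eval x (Fp z0 1) ≠ 0 := right_ne_zero_of_mul (left_ne_zero_of_mul hf')
    have f2 : eval x (Fp z0 2) ≠ 0 := right_ne_zero_of_mul hf'
    have e6 : (∑ i, a i * pd j (FF z0 i) x / FF z0 i x) * eval x (ff z0)
        = eval x (om z0 a j) := by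
      have : ∀ i, pd j (FF z0 i) x = eval x (pderiv j (Fp z0 i)) := fun i => (pd_evalT _ j x).2
      simp only [this, FF, Fin.sum_univ_three, om, ff, map_add, map_mul, eval_C]
      field_simp
    simp only [map_mul, map_pow, map_natCast, map_sub] at e3 e4 ⊢
    unfold nabla
    rw [e3, ← e5]
    linear_combination (g x a * eval x (ff z0) ^ N) * e6 - g x a * e4
  · intro K
    obtain ⟨P, h1, h2⟩ := hK (K + 1)
    refine ⟨nabP z0 a j N P, ?_, ?_⟩
    · have h3 := bigO_pd (ha.sub (analyticAt_eval P 0)) K h1 j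
      have h4 := (bigO_mul (analyticAt_eval (ff z0) 0) h3).add
        (bigO_mul (analyticAt_eval (om z0 a j - (N : T3) * pderiv j (ff z0)) 0) (bigO_succ h1))
      refine h4.congr' ?_ EventuallyEq.rfl
      filter_upwards [ha.eventually_analyticAt] with x hx
      have : pd j (h - fun y => eval y P) x = pd j h x - eval x (pderiv j P) := by
        rw [← (pd_evalT P j x).2]
        exact pd_sub hx.differentiableAt (pd_evalT P j x).1
      rw [this]
      simp only [nabP, map_add, map_mul]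
      ring
    · intro m
      have e : m * nabP z0 a j N P = nabP z0 a j N (m * P) - ff z0 * (pderiv j m * P) := by
        simp only [nabP, Derivation.leibniz, smul_eq_mul]
        ring
      rw [e]
      exact (V (N + 1)).sub_mem (H.nab j N _) ((H.raise N _).mpr (h2 _))

lemma gen_inv (H : Obst z0 a V) {U : Set (Fin 3 → ℂ)} (hU : (0 : Fin 3 → ℂ) ∈ U) {g}
    (hg : Gen (FF z0) U g) : ∃ N, InvN z0 V N (fun x => g x a) := by
  induction hg with
  | base =>
    refine ⟨0, fun x => eval x (ff z0), analyticAt_eval _ _, ?_, ?_⟩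
    · filter_upwards with x _
      rw [prodFF]; simp
    · intro K
      refine ⟨ff z0, ?_, H.gen⟩
      simpa using isBigO_zero _ _
  | add _ _ h1 h2 =>
    obtain ⟨N, h1⟩ := h1
    obtain ⟨M, h2⟩ := h2
    obtain ⟨h, ha, he, hK⟩ := h1.le H (le_max_left N M)
    obtain ⟨h', ha', he', hK'⟩ := h2.le H (le_max_right N M)
    refine ⟨max N M, fun x => h x + h' x, ha.add ha', ?_, ?_⟩
    · filter_upwards [he, he'] with x hx hx' hf
      rw [← hx hf, ← hx' hf]; ring
    · intro K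
      obtain ⟨P, h1, h2⟩ := hK K
      obtain ⟨P', h1', h2'⟩ := hK' K
      refine ⟨P + P', (h1.add h1').congr_left ?_, ?_⟩
      · intro x; rw [map_add]; ring
      · intro m
        rw [mul_add]
        exact (V _).add_mem (h2 m) (h2' m)
  | mulO k hk _ h1 =>
    obtain ⟨N, h1⟩ := h1
    exact ⟨N, h1.mulA (hk 0 hU)⟩
  | mulS i _ h1 =>
    obtain ⟨N, h1⟩ := h1
    exact ⟨N, h1.mulA analyticAt_const⟩
  | der j _ h1 =>
    obtain ⟨N, h1⟩ := h1
    exact ⟨N + 1, h1.der H j⟩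

theorem eval_eq_zero (H : Obst z0 a V) {W : Set (Fin 3 → ℂ)} (hW : (0 : Fin 3 → ℂ) ∈ W)
    {b : MvPolynomial (Fin 3) ℂ} (hb : b ∈ bsIdeal (FF z0) W) : eval a b = 0 := by
  obtain ⟨U, hU, h0, g, hg, e⟩ := hb 0 hW
  obtain ⟨N, h, ha, he, hK⟩ := gen_inv H h0 hg
  obtain ⟨P, h1, h2⟩ := hK (6 * (N + 1) + 9)
  have h3 : ff z0 * (ee * (C (eval a b) * ff z0 ^ N - P)) ∈ V (N + 1) := by
    apply H.high
    intro d hd
    refine poly_high (6 * (N + 1) + 9) _ ?_ d (by rw [Fin.sum_univ_three]; omega)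
    refine (bigO_mul (analyticAt_eval (ff z0 * ee) 0) h1).congr' ?_ EventuallyEq.rfl
    filter_upwards [he, hU.mem_nhds h0] with x hx hxU
    by_cases hf : eval x (ff z0) = 0
    · simp [hf]
    · have := hx hf
      rw [e x hxU (by rwa [prodFF])] at this
      simp only [map_mul, map_sub, map_pow, eval_C, ← this]
      ring
  rw [H.raise] at h3
  have h4 := (V N).add_mem h3 (h2 ee)
  have h5 : ∀ M : ℕ, ff z0 ^ M * (C (eval a b) * ee) ∈ V M → C (eval a b) * ee ∈ V 0 := by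
    intro M
    induction M with
    | zero => simp
    | succ M ih =>
      intro h
      rw [pow_succ', mul_assoc, H.raise] at h
      exact ih h
  apply H.fin
  apply h5 N
  convert h4 using 1
  ring

/-- Every point of an algebraic set lies in an irreducible component. -/
lemma exists_component {r : ℕ} (I : Ideal (MvPolynomial (Fin r) ℂ)) (a : Fin r → ℂ)
    (ha : a ∈ zeroLocus ℂ I) : ∃ C, IsComponent (zeroLocus ℂ I) C ∧ a ∈ C := by
  have hle : I ≤ vanishingIdeal ℂ {a} := by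
    intro p hp x hx
    rw [Set.mem_singleton_iff.mp hx]
    exact ha p hp
  obtain ⟨p, hp, hpa⟩ := Ideal.exists_minimalPrimes_le hle
  have hprime : p.IsPrime := hp.1.1
  have hv : vanishingIdeal ℂ (zeroLocus ℂ p) = p := IsPrime.vanishingIdeal_zeroLocus p
  refine ⟨zeroLocus ℂ p, ⟨⟨⟨⟨p, rfl⟩, by rw [hv]; exact hprime⟩, zeroLocus_anti_mono hp.1.2⟩, ?_⟩,
    fun q hq => hpa hq a rfl⟩
  rintro V' ⟨⟨⟨J, rfl⟩, hJ⟩, hsub⟩ hge
  have h1 : I ≤ vanishingIdeal ℂ (zeroLocus ℂ J) :=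
    (le_vanishingIdeal_zeroLocus I).trans (vanishingIdeal_anti_mono hsub)
  have h2 : vanishingIdeal ℂ (zeroLocus ℂ J) ≤ p := by
    rw [← hv]; exact vanishingIdeal_anti_mono hge
  have h3 : p ≤ vanishingIdeal ℂ (zeroLocus ℂ J) := hp.2 ⟨hJ, h1⟩ h2
  exact (zeroLocus_vanishingIdeal_le _).trans (zeroLocus_anti_mono h3)

open Complex in
theorem main : ∃ C, IsComponent (zeroLocus ℂ (bsIdeal (FF (2 * I)) (Metric.ball 0 1))) C ∧
    ¬ IsRatAffine C := by
  obtain ⟨a, ha⟩ : ∃ a : Fin 3 → ℂ, a = ![-4, (-9 + 2 * I) / 5, -(4 + 3 * I) / 5] := ⟨_, rfl⟩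
  have a0 : a 0 = -4 := by simp [ha]
  have a1 : a 1 = (-9 + 2 * I) / 5 := by simp [ha]
  have a2 : a 2 = -(4 + 3 * I) / 5 := by simp [ha]
  have ne_of_im : ∀ u : ℂ, u.im ≠ 0 → u ≠ 0 := by
    intro u hu h
    apply hu
    rw [h, zero_im]
  obtain ⟨V, H⟩ := exists_obst (2 * I) a a0 (by rw [a1, a2]; ring)
    (by rw [a2]; linear_combination (-6 / 5 : ℂ) * I_mul_I) (ne_of_im _ (by simp))
    (ne_of_im _ (by simp)) (ne_of_im _ (by simp))
    (by
      intro n hn
      have := congrArg Complex.im hn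
      rw [a1] at this
      simp at this)
    (by
      intro n hn
      have := congrArg Complex.im hn
      rw [a2] at this
      simp at this)
  have him : ∀ x ∈ Metric.ball (0 : Fin 3 → ℂ) 1, (x 2).im + 2 ≠ 0 := by
    intro x hx h
    rw [mem_ball_zero_iff] at hx
    have h1 : |(x 2).im| ≤ ‖x‖ := (abs_im_le_norm _).trans (norm_le_pi_norm x 2)
    have h2 := neg_abs_le (x 2).im
    linarith
  obtain ⟨b, hb, hb0⟩ := exists_mem (2 * I) (Metric.ball 0 1) Metric.isOpen_ball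
    (fun x hx => ne_of_im _ (by simpa using him x hx))
    (fun x hx => ne_of_im _ (by simpa using him x hx))
    (fun x hx => ne_of_im _ (by simpa using him x hx)) (ne_of_im _ (by simp))
  obtain ⟨C, hC, haC⟩ := exists_component (bsIdeal (FF (2 * I)) (Metric.ball 0 1)) a (by
    intro p hp
    exact eval_eq_zero H (Metric.mem_ball_self one_pos) hp)
  refine ⟨C, hC, ?_⟩
  rintro ⟨-, l, rfl⟩
  apply hb0
  have hmem : (![-4, -3, 1] : Fin 3 → ℂ) ∈ {s : Fin 3 → ℂ | ∀ c ∈ l,
      (∑ i, (c.1 i : ℂ) * s i) + (c.2 : ℂ) = 0} := by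
    intro c hc
    have h := haC c hc
    rw [Fin.sum_univ_three, a0, a1, a2] at h
    have h1 := congrArg Complex.im h
    simp at h1
    have h2 : (2 : ℂ) * c.1 1 = 3 * c.1 2 := by
      have : (2 : ℝ) * c.1 1 = 3 * c.1 2 := by linarith
      exact_mod_cast this
    simp [Fin.sum_univ_three]
    linear_combination h - ((3 + I) / 5) * h2
  exact hC.1.2 hmem b hb

end Pool.Agent.H869Z.ABS
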