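import Mathlib

/-!
Bernstein-Sato ideals in the analytic setting, on open subsets of `ℂ^n`.

A section `g F^s` of `O[s, 1/(f_1 ... f_r)] F^s` over an open set `U` is represented by the
function `(x, s) ↦ g x s`, of which only the values at points `x ∈ U` with
`f_1(x) ... f_r(x) ≠ 0` matter.
-/

namespace Pool.Agent.H869Z.ABS

open MvPolynomial

variable {n r : ℕ}

/-- The partial derivative `∂ g / ∂ x_j` of a function on `ℂ^n`. -/
noncomputable def pd (j : Fin n) (g : (Fin n → ℂ) → ℂ) (x : Fin n → ℂ) : ℂ :=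
  fderiv ℂ g x (Pi.single j 1)

/-- The action of `∂ / ∂ x_j` on `g F^s`: it sends `g` to
`∂ g / ∂ x_j + (∑ i, s_i (∂ f_i / ∂ x_j) / f_i) g`. -/
noncomputable def nabla (F : Fin r → (Fin n → ℂ) → ℂ) (j : Fin n)
    (g : (Fin n → ℂ) → (Fin r → ℂ) → ℂ) : (Fin n → ℂ) → (Fin r → ℂ) → ℂ :=
  fun x s => pd j (fun y => g y s) x + (∑ i, s i * pd j (F i) x / F i x) * g x s

/-- `Gen F U g`: the section `g F^s` lies in `D(U)[s] · f_1 ... f_r F^s`, where `D(U)` is the ring
of differential operators with coefficients holomorphic on `U`. -/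
inductive Gen (F : Fin r → (Fin n → ℂ) → ℂ) (U : Set (Fin n → ℂ)) :
    ((Fin n → ℂ) → (Fin r → ℂ) → ℂ) → Prop
  | base : Gen F U (fun x _ => ∏ i, F i x)
  | add {g h} : Gen F U g → Gen F U h → Gen F U (fun x s => g x s + h x s)
  | mulO {g} (k : (Fin n → ℂ) → ℂ) : AnalyticOnNhd ℂ k U → Gen F U g →
      Gen F U (fun x s => k x * g x s)
  | mulS {g} (i : Fin r) : Gen F U g → Gen F U (fun x s => s i * g x s)
  | der {g} (j : Fin n) : Gen F U g → Gen F U (nabla F j g)

theorem Gen.mono {F : Fin r → (Fin n → ℂ) → ℂ} {U V : Set (Fin n → ℂ)} (h : V ⊆ U) {g}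
    (hg : Gen F U g) : Gen F V g := by
  induction hg with
  | base => exact Gen.base
  | add _ _ h1 h2 => exact Gen.add h1 h2
  | mulO k hk _ h1 => exact Gen.mulO k (hk.mono h) h1
  | mulS i _ h1 => exact Gen.mulS i h1
  | der j _ h1 => exact Gen.der j h1

theorem Gen.mulPoly {F : Fin r → (Fin n → ℂ) → ℂ} {U : Set (Fin n → ℂ)} {g}
    (hg : Gen F U g) (c : MvPolynomial (Fin r) ℂ) : Gen F U (fun x s => eval s c * g x s) := by
  induction c using MvPolynomial.induction_on with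
  | C a => simpa using Gen.mulO (fun _ => a) analyticOnNhd_const hg
  | add p q hp hq => simpa [add_mul] using Gen.add hp hq
  | mul_X p i hp =>
    convert Gen.mulS i hp using 3
    simp only [map_mul, eval_X]
    ring

/-- The Bernstein-Sato ideal of `F` on `W`: all `b(s)` such that every point of `W` has an open
neighbourhood `U` on which `b(s) F^s ∈ D(U)[s] · f_1 ... f_r F^s`. -/
def bsIdeal (F : Fin r → (Fin n → ℂ) → ℂ) (W : Set (Fin n → ℂ)) :
    Ideal (MvPolynomial (Fin r) ℂ) where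
  carrier := {b | ∀ p ∈ W, ∃ U, IsOpen U ∧ p ∈ U ∧ ∃ g, Gen F U g ∧
    ∀ x ∈ U, ∏ i, F i x ≠ 0 → ∀ s, g x s = eval s b}
  add_mem' := by
    intro a b ha hb p hp
    obtain ⟨U, hU, hpU, g, hg, e⟩ := ha p hp
    obtain ⟨V, hV, hpV, g', hg', e'⟩ := hb p hp
    refine ⟨U ∩ V, hU.inter hV, ⟨hpU, hpV⟩, _,
      Gen.add (hg.mono Set.inter_subset_left) (hg'.mono Set.inter_subset_right), ?_⟩
    intro x hx hf s
    rw [e x hx.1 hf, e' x hx.2 hf, map_add]
  zero_mem' := by
    intro p _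
    refine ⟨Set.univ, isOpen_univ, Set.mem_univ p, _, Gen.base.mulPoly 0, ?_⟩
    intro x _ _ s
    simp
  smul_mem' := by
    intro c b hb p hp
    obtain ⟨U, hU, hpU, g, hg, e⟩ := hb p hp
    refine ⟨U, hU, hpU, _, hg.mulPoly c, ?_⟩
    intro x hx hf s
    rw [e x hx hf, smul_eq_mul, map_mul]

/-- An irreducible algebraic subset of `ℂ^r`: the zero locus of an ideal, whose vanishing ideal
is prime. -/
def IsIrredAlg (V : Set (Fin r → ℂ)) : Prop :=
  (∃ I : Ideal (MvPolynomial (Fin r) ℂ), V = zeroLocus ℂ I) ∧ (vanishingIdeal ℂ V).IsPrime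

/-- `V` is an irreducible component of `Z`: a maximal irreducible algebraic subset of `Z`. -/
def IsComponent (Z V : Set (Fin r → ℂ)) : Prop :=
  Maximal (fun V' => IsIrredAlg V' ∧ V' ⊆ Z) V

/-- A rational affine subspace: the nonempty common zero set of finitely many affine-linear
polynomials with rational coefficients. -/
def IsRatAffine (V : Set (Fin r → ℂ)) : Prop :=
  V.Nonempty ∧ ∃ l : Finset ((Fin r → ℚ) × ℚ),
    V = {s | ∀ c ∈ l, (∑ i, (c.1 i : ℂ) * s i) + (c.2 : ℂ) = 0}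

end Pool.Agent.H869Z.ABS
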