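import Pool.Agent.H869Z.Der

/-! One-variable obstruction for the line minus four points. -/

namespace Pool.Agent.H869Z.AObs

open Polynomial Pool.Agent.H869Z.Der

noncomputable def c2 : ℂ[X] := X ^ 2 + X - 2
noncomputable def q0 (z0 : ℂ) : ℂ[X] := X ^ 2 + C z0

lemma c2_ne : c2 ≠ 0 := by
  intro h
  have := congrArg (eval 0) h
  simp [c2] at this

lemma q0_ne (z0 : ℂ) (hz : z0 ≠ 0) : q0 z0 ≠ 0 := by
  intro h
  have := congrArg (eval 0) h
  simp [q0, hz] at this

lemma cop_of {a b u v : ℂ[X]} {c : ℂ} (hc : c ≠ 0) (h : u * a + v * b = C c) : IsCoprime a b := by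
  refine ⟨C c⁻¹ * u, C c⁻¹ * v, ?_⟩
  have : C c⁻¹ * C c = (1 : ℂ[X]) := by rw [← C_mul, inv_mul_cancel₀ hc, C_1]
  rw [← this, ← h]
  ring

lemma cop1 : IsCoprime c2 (2 * X + 1) :=
  cop_of (u := -4) (v := 2 * X + 1) (c := 9) (by norm_num) (by
    simp only [c2, map_ofNat]; ring)

lemma cop2 (z0 : ℂ) (h1 : z0 + 1 ≠ 0) (h4 : z0 + 4 ≠ 0) : IsCoprime c2 (q0 z0) :=
  cop_of (u := -(X + 2 + C z0)) (v := 1 + (X + 2 + C z0)) (c := (z0 + 1) * (z0 + 4))
    (mul_ne_zero h1 h4) (by simp only [c2, q0, map_mul, map_add, map_one, map_ofNat]; ring)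

lemma cop3 (z0 : ℂ) (h0 : z0 ≠ 0) : IsCoprime (q0 z0) (2 * X) :=
  cop_of (u := 2) (v := -X) (c := 2 * z0) (mul_ne_zero two_ne_zero h0)
    (by simp only [q0, map_mul, map_ofNat]; ring)

lemma cop_C (a : ℂ[X]) {c : ℂ} (hc : c ≠ 0) : IsCoprime a (C c) :=
  cop_of (u := 0) (v := 1) hc (by simp)

lemma base (z0 κ : ℂ) (hκ : ∀ e : ℕ, (e : ℂ) + κ ≠ 0) (m2 m1 m0 : ℂ) (A Q : ℂ[X])
    (hQ : Q.natDegree ≤ 2)
    (h : c2 * q0 z0 * derivative A + (C κ * X ^ 3 + C m2 * X ^ 2 + C m1 * X + C m0) * A = Q) :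
    A = 0 := by
  by_contra hA
  have hlc : A.coeff A.natDegree ≠ 0 := leadingCoeff_ne_zero.mpr hA
  obtain ⟨e, he⟩ : ∃ e, e = A.natDegree := ⟨_, rfl⟩
  rw [← he] at hlc
  have z : ∀ j, 0 < j → A.coeff (e + j) = 0 := fun j hj =>
    coeff_eq_zero_of_natDegree_lt (by omega)
  have e1 : c2 * q0 z0 * derivative A + (C κ * X ^ 3 + C m2 * X ^ 2 + C m1 * X + C m0) * A
      = X ^ 3 * (X * derivative A) + X ^ 3 * derivative A + C (z0 - 2) * (X ^ 2 * derivative A)
        + C z0 * (X ^ 1 * derivative A) + C (-2 * z0) * derivative A + C κ * (X ^ 3 * A)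
        + C m2 * (X ^ 2 * A) + C m1 * (X ^ 1 * A) + C m0 * A := by
    simp only [c2, q0, map_sub, map_mul, map_neg, map_ofNat]
    ring
  rw [e1] at h
  have c0 : (X ^ 3 * (X * derivative A)).coeff (e + 3) = A.coeff e * e := by
    rw [coeff_X_pow_mul]
    rcases e with _ | e
    · simp
    · rw [coeff_X_mul, coeff_derivative]; push_cast; ring
  have c1 : (X ^ 3 * derivative A).coeff (e + 3) = 0 := by
    rw [coeff_X_pow_mul, coeff_derivative, z 1 one_pos, zero_mul]
  have c2' : (X ^ 2 * derivative A).coeff (e + 3) = 0 := by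
    rw [show e + 3 = (e + 1) + 2 by ring, coeff_X_pow_mul, coeff_derivative, add_assoc,
      z _ (by norm_num), zero_mul]
  have c3 : (X ^ 1 * derivative A).coeff (e + 3) = 0 := by
    rw [show e + 3 = (e + 2) + 1 by ring, coeff_X_pow_mul, coeff_derivative, add_assoc,
      z _ (by norm_num), zero_mul]
  have c4 : (derivative A).coeff (e + 3) = 0 := by
    rw [coeff_derivative, add_assoc, z _ (by norm_num), zero_mul]
  have c5 : (X ^ 3 * A).coeff (e + 3) = A.coeff e := by rw [coeff_X_pow_mul]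
  have c6 : (X ^ 2 * A).coeff (e + 3) = 0 := by
    rw [show e + 3 = (e + 1) + 2 by ring, coeff_X_pow_mul, z _ (by norm_num)]
  have c7 : (X ^ 1 * A).coeff (e + 3) = 0 := by
    rw [show e + 3 = (e + 2) + 1 by ring, coeff_X_pow_mul, z _ (by norm_num)]
  have c8 : A.coeff (e + 3) = 0 := z _ (by norm_num)
  have c9 : Q.coeff (e + 3) = 0 := coeff_eq_zero_of_natDegree_lt (by omega)
  have := congrArg (fun P => P.coeff (e + 3)) h
  simp only [coeff_add, Polynomial.coeff_C_mul, c0, c1, c2', c3, c4, c5, c6, c7, c8, c9] at this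
  apply mul_ne_zero hlc (hκ e)
  linear_combination this

lemma obs (z0 a2 a3 c α β : ℂ) (h0 : z0 ≠ 0) (h1 : z0 + 1 ≠ 0) (h4 : z0 + 4 ≠ 0)
    (ha2 : ∀ n : ℤ, a2 ≠ n) (ha3 : ∀ n : ℤ, a3 ≠ n) (hs : 3 * a2 + 2 * a3 = -7) (N : ℕ) :
    ∀ A : ℂ[X], c2 * q0 z0 * derivative A
        + (C (a2 + 1 - N) * ((2 * X + 1) * q0 z0) + C (a3 + 1 - N) * (c2 * (2 * X))) * A
      = c2 * (C c * X + C α * q0 z0 + C β) * (c2 * q0 z0) ^ N → c = 0 := by
  have dc : derivative c2 = 2 * X + 1 := by simp [c2]; norm_num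
  have dq : derivative (q0 z0) = 2 * X := by simp [q0]; norm_num
  induction N with
  | zero =>
    intro A h
    have hne : a2 + 1 ≠ 0 := fun h' => ha2 (-1) (by push_cast; linear_combination h')
    have hd : c2 ∣ A := by
      have cop : IsCoprime c2 (C (a2 + 1) * ((2 * X + 1) * q0 z0)) :=
        (cop_C _ hne).mul_right (cop1.mul_right (cop2 z0 h1 h4))
      apply cop.dvd_of_dvd_mul_left
      refine ⟨(C c * X + C α * q0 z0 + C β) - q0 z0 * derivative A - C (a3 + 1) * (2 * X) * A, ?_⟩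
      simp only [Nat.cast_zero, sub_zero, pow_zero] at h
      linear_combination h
    obtain ⟨A1, rfl⟩ := hd
    have h' : c2 * q0 z0 * derivative A1 + (C (2 * a2 + 2 * a3 + 6) * X ^ 3
        + C (a2 + 2 + 2 * (a3 + 1)) * X ^ 2 + C (2 * z0 * (a2 + 2) - 4 * (a3 + 1)) * X
        + C (z0 * (a2 + 2))) * A1 = C c * X + C α * q0 z0 + C β := by
      apply mul_left_cancel₀ c2_ne
      rw [derivative_mul, dc] at h
      simp only [Nat.cast_zero, sub_zero, pow_zero, map_add, map_mul, map_sub, map_one,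
        map_ofNat, c2, q0] at h ⊢
      linear_combination h
    have hA := base z0 _ ?_ _ _ _ A1 _ ?_ h'
    · rw [hA] at h'
      have := congrArg (fun P => P.coeff 1) h'
      simpa [q0, coeff_X, coeff_C, coeff_X_pow, mul_add] using this.symm
    · intro e he
      apply ha2 (e - 1)
      push_cast
      linear_combination hs - he
    · unfold q0
      compute_degree
  | succ N ih =>
    intro A h
    have hn2 : a2 - N ≠ 0 := fun h' => ha2 N (by push_cast; linear_combination h')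
    have hn3 : a3 - N ≠ 0 := fun h' => ha3 N (by push_cast; linear_combination h')
    have e2 : a2 + 1 - ((N + 1 : ℕ) : ℂ) = a2 - N := by push_cast; ring
    have e3 : a3 + 1 - ((N + 1 : ℕ) : ℂ) = a3 - N := by push_cast; ring
    rw [e2, e3] at h
    have hd1 : c2 ∣ A := by
      have cop : IsCoprime c2 (C (a2 - N) * ((2 * X + 1) * q0 z0)) :=
        (cop_C _ hn2).mul_right (cop1.mul_right (cop2 z0 h1 h4))
      apply cop.dvd_of_dvd_mul_left
      refine ⟨(C c * X + C α * q0 z0 + C β) * (c2 * q0 z0) ^ (N + 1) - q0 z0 * derivative A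
        - C (a3 - N) * (2 * X) * A, ?_⟩
      linear_combination h
    have hd2 : q0 z0 ∣ A := by
      have cop : IsCoprime (q0 z0) (C (a3 - N) * (c2 * (2 * X))) :=
        (cop_C _ hn3).mul_right ((cop2 z0 h1 h4).symm.mul_right (cop3 z0 h0))
      apply cop.dvd_of_dvd_mul_left
      refine ⟨c2 * (C c * X + C α * q0 z0 + C β) * (c2 * q0 z0) ^ N * c2 - c2 * derivative A
        - C (a2 - N) * (2 * X + 1) * A, ?_⟩
      linear_combination h
    obtain ⟨A1, rfl⟩ := (cop2 z0 h1 h4).mul_dvd hd1 hd2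
    apply ih A1
    apply mul_left_cancel₀ (mul_ne_zero c2_ne (q0_ne z0 h0))
    rw [derivative_mul, derivative_mul, dc, dq] at h
    simp only [map_sub, map_add, map_one, map_natCast] at h ⊢
    linear_combination h

/-- Abstract data of the ring of functions on the line minus four points. -/
structure Line (z0 a2 a3 : ℂ) (R : Type) [CommRing R] (k : ℂ →+* R) (t uc uq : R) (d : R →+ R) :
    Prop where
  der : IsDer (RingHom.id R) d
  dk : ∀ c, d (k c) = 0
  dt : d t = 1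
  hc : (t ^ 2 + t - 2) * uc = 1
  hq : (t ^ 2 + k z0) * uq = 1
  obs : ∀ (c α β : ℂ) (h : R), d h + (k a2 * (2 * t + 1) * uc + k a3 * (2 * t) * uq) * h
    = (t ^ 2 + t - 2) * (k c * t + k α * (t ^ 2 + k z0) + k β) → c = 0

lemma exists_line (z0 a2 a3 : ℂ) (h0 : z0 ≠ 0) (h1 : z0 + 1 ≠ 0) (h4 : z0 + 4 ≠ 0)
    (ha2 : ∀ n : ℤ, a2 ≠ n) (ha3 : ∀ n : ℤ, a3 ≠ n) (hs : 3 * a2 + 2 * a3 = -7)
    (R : Type) [CommRing R] [Algebra ℂ[X] R] [IsLocalization.Away (c2 * q0 z0) R] :
    ∃ (k : ℂ →+* R) (t uc uq : R) (d : R →+ R), Line z0 a2 a3 R k t uc uq d := by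
  let ι : ℂ[X] →+* R := algebraMap _ _
  have hinj : Function.Injective ι := IsLocalization.injective R
    (powers_le_nonZeroDivisors_of_noZeroDivisors (mul_ne_zero c2_ne (q0_ne z0 h0)))
  let d0 : ℂ[X] →+ R := ι.toAddMonoidHom.comp derivative.toAddMonoidHom
  have hd0 : IsDer ((RingHom.id R).comp ι) d0 := by
    intro a b
    simp [d0]
    ring
  obtain ⟨d, hd, hde⟩ := exists_loc (L := R) (Submonoid.powers (c2 * q0 z0)) (RingHom.id R) d0 hd0
  have hde' : ∀ x, d (ι x) = ι (derivative x) := hde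
  obtain ⟨w, hw⟩ : ∃ w : R, ι (c2 * q0 z0) * w = 1 :=
    (IsLocalization.Away.algebraMap_isUnit (S := R) (c2 * q0 z0)).exists_right_inv
  have hc : ι c2 = ι X ^ 2 + ι X - 2 := by simp [c2, map_ofNat]
  have hq : ι (q0 z0) = ι X ^ 2 + ι (C z0) := by simp [q0]
  have dc : derivative c2 = 2 * X + 1 := by simp [c2]; norm_num
  have dq : derivative (q0 z0) = 2 * X := by simp [q0]; norm_num
  refine ⟨ι.comp C, ι X, ι (q0 z0) * w, ι c2 * w, d, hd, ?_, ?_, ?_, ?_, ?_⟩
  · intro c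
    simp [hde']
  · simp [hde']
  · rw [← hc, ← hw, map_mul]; ring
  · rw [RingHom.comp_apply, ← hq, ← hw, map_mul]; ring
  · intro c α β h heq
    obtain ⟨N, A, hA⟩ := IsLocalization.Away.surj (S := R) (c2 * q0 z0) h
    change h * ι (c2 * q0 z0) ^ N = ι A at hA
    have hpow : ∀ n : ℕ, ι (c2 * q0 z0) * d (ι (c2 * q0 z0) ^ n)
        = n * ι (derivative (c2 * q0 z0)) * ι (c2 * q0 z0) ^ n := by
      intro n
      induction n with
      | zero => simp [hd.one]
      | succ n ih =>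
        rw [pow_succ, hd, hde']
        simp only [RingHom.id_apply]
        push_cast
        linear_combination (ι (c2 * q0 z0)) * ih
    have e1 : ι (derivative A) = h * d (ι (c2 * q0 z0) ^ N) + ι (c2 * q0 z0) ^ N * d h := by
      rw [← hde', ← hA, hd]
      rfl
    refine obs z0 a2 a3 c α β h0 h1 h4 ha2 ha3 hs (N + 1) A (hinj ?_)
    simp only [RingHom.comp_apply, ← hc, ← hq] at heq
    have e2 := hpow N
    rw [derivative_mul, dc, dq] at e2
    simp only [map_add, map_mul, map_sub, map_pow, map_one, Nat.cast_add, Nat.cast_one,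
      map_natCast, map_ofNat, e1, ← hA] at e2 hw ⊢
    linear_combination ((ι c2 * ι (q0 z0)) ^ (N + 1)) * heq + h * e2
      - (ι (C a2) * (2 * ι X + 1) * ι (q0 z0) + ι (C a3) * (2 * ι X) * ι c2) * h
        * (ι c2 * ι (q0 z0)) ^ N * hw

end Pool.Agent.H869Z.AObs
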