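import Pool.Agent.H869Z.AObs1
import Pool.Agent.H869Z.AMem

/-! Power series in the parameter: the twisting factor. -/

namespace Pool.Agent.H869Z.AObs

open Pool.Agent.H869Z.Der Pool.Agent.H869Z.AMem PowerSeries

variable {R : Type} [CommRing R]

/-- Coefficientwise extension of an additive map to power series. -/
noncomputable def Dt (d : R →+ R) : R⟦X⟧ →+ R⟦X⟧ where
  toFun f := PowerSeries.mk fun n => d (coeff n f)
  map_zero' := by ext n; simp
  map_add' f g := by ext n; simp

@[simp] lemma coeff_Dt (d : R →+ R) (f : R⟦X⟧) (n : ℕ) : coeff n (Dt d f) = d (coeff n f) := by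
  simp [Dt]

lemma isDer_Dt {d : R →+ R} (hd : IsDer (RingHom.id R) d) : IsDer (RingHom.id _) (Dt d) := by
  intro f g
  ext n
  simp only [coeff_Dt, RingHom.id_apply, map_add, coeff_mul, map_sum, der_mul hd,
    Finset.sum_add_distrib]
  congr 1
  rw [← Finset.Nat.sum_antidiagonal_swap]
  simp

lemma Dt_C {d : R →+ R} (a : R) : Dt d (C a) = C (d a) := by
  ext n
  simp only [coeff_Dt, coeff_C]
  split_ifs <;> simp

lemma Dt_X {d : R →+ R} (hd : IsDer (RingHom.id R) d) : Dt d X = 0 := by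
  ext n
  simp only [coeff_Dt, coeff_X]
  split_ifs <;> simp [hd.one]

/-- The Euler operator `X d/dX`. -/
noncomputable def Th : R⟦X⟧ →+ R⟦X⟧ :=
  (AddMonoidHom.mulLeft X).comp (PowerSeries.derivative R).toLinearMap.toAddMonoidHom

lemma isDer_Th : IsDer (RingHom.id _) (Th : R⟦X⟧ →+ R⟦X⟧) :=
  (isDer_derivation (PowerSeries.derivative R)).mulLeft X

lemma coeff_Th (f : R⟦X⟧) (n : ℕ) : coeff n (Th f) = n * coeff n f := by
  change coeff n (X * PowerSeries.derivative R f) = _
  rcases n with _ | n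
  · simp
  · rw [coeff_succ_X_mul, coeff_derivative]; push_cast; ring

lemma Th_C (a : R) : Th (C a : R⟦X⟧) = 0 := by
  change X * PowerSeries.derivative R (C a) = 0
  simp

lemma Th_X : Th (X : R⟦X⟧) = X := by
  change X * PowerSeries.derivative R X = X
  simp

/-- Binomial coefficients. -/
noncomputable def bin (a : ℂ) : ℕ → ℂ
  | 0 => 1
  | n + 1 => bin a n * (a - n) / (n + 1)

lemma bin_succ (a : ℂ) (n : ℕ) : ((n : ℂ) + 1) * bin a (n + 1) = (a - n) * bin a n := by
  have : ((n : ℂ) + 1) ≠ 0 := by exact_mod_cast Nat.succ_ne_zero n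
  rw [bin]
  field_simp

noncomputable def GG (k : ℂ →+* R) (a : ℂ) (v : R) : R⟦X⟧ :=
  PowerSeries.mk fun n => k (bin a n) * v ^ n

lemma Th_GG (k : ℂ →+* R) (a : ℂ) (v q : R) (h : q * v = 1) :
    (C q + X) * Th (GG k a v) = C (k a) * X * GG k a v := by
  ext n
  rw [add_mul, map_add, PowerSeries.coeff_C_mul, mul_assoc, PowerSeries.coeff_C_mul]
  rcases n with _ | n
  · simp [coeff_Th]
  · rw [coeff_succ_X_mul, coeff_succ_X_mul, coeff_Th, coeff_Th]
    simp only [GG, coeff_mk]
    have := congrArg k (bin_succ a n)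
    simp only [map_mul, map_add, map_sub, map_natCast, map_one] at this
    push_cast
    linear_combination (v ^ n) * this + ((n + 1) * k (bin a (n + 1)) * v ^ n) * h

lemma Dt_GG (k : ℂ →+* R) (a : ℂ) (v w : R) {d : R →+ R} (hd : IsDer (RingHom.id R) d)
    (hk : ∀ c, d (k c) = 0) (hv : d v = w * v) :
    Dt d (GG k a v) = C w * Th (GG k a v) := by
  ext n
  rw [coeff_Dt, PowerSeries.coeff_C_mul, coeff_Th]
  simp only [GG, coeff_mk]
  rw [der_mul hd, hk]
  rcases n with _ | n
  · simp [hd.one]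
  · rw [der_pow hd, hv]; push_cast; ring

lemma der_inv_pow {A : Type*} [CommRing A] {δ : A →+ A} (hd : IsDer (RingHom.id A) δ)
    (u κ : A) (h : u * κ = 1) (N : ℕ) : δ (κ ^ N) = -(N * κ ^ (N + 1) * δ u) := by
  have h1 : δ κ = -(κ ^ 2 * δ u) := by
    have := der_mul hd u κ
    rw [h, hd.one] at this
    linear_combination (-κ) * this - δ κ * h
  rcases N with _ | N
  · simp [hd.one]
  · rw [der_pow hd, h1]; push_cast; ring

end Pool.Agent.H869Z.AObs
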