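import Pool.Agent.H869Z.AObs2
import Pool.Agent.H869Z.AAn1

/-! The algebraic obstruction: a filtration-compatible family of subgroups of polynomials. -/

namespace Pool.Agent.H869Z.AObs

open Pool.Agent.H869Z.Der Pool.Agent.H869Z.AMem Pool.Agent.H869Z.ABS
open scoped PowerSeries LaurentPolynomial
open MvPolynomial (X pderiv eval₂Hom)
open LaurentPolynomial (T)

abbrev T3 : Type := MvPolynomial (Fin 3) ℂ

noncomputable def ff (z0 : ℂ) : T3 := Fp z0 0 * Fp z0 1 * Fp z0 2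

noncomputable def om (z0 : ℂ) (a : Fin 3 → ℂ) (j : Fin 3) : T3 :=
  MvPolynomial.C (a 0) * pderiv j (Fp z0 0) * Fp z0 1 * Fp z0 2
  + MvPolynomial.C (a 1) * Fp z0 0 * pderiv j (Fp z0 1) * Fp z0 2
  + MvPolynomial.C (a 2) * Fp z0 0 * Fp z0 1 * pderiv j (Fp z0 2)

noncomputable def nabP (z0 : ℂ) (a : Fin 3 → ℂ) (j : Fin 3) (N : ℕ) (P : T3) : T3 :=
  ff z0 * pderiv j P + (om z0 a j - N * pderiv j (ff z0)) * P

noncomputable def ee : T3 := X 2 ^ 3 * cc (X 0) (X 1) * X 0 * X 1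

lemma pderiv_ff (z0 : ℂ) (j : Fin 3) : pderiv j (ff z0) =
    pderiv j (Fp z0 0) * Fp z0 1 * Fp z0 2 + Fp z0 0 * pderiv j (Fp z0 1) * Fp z0 2
      + Fp z0 0 * Fp z0 1 * pderiv j (Fp z0 2) := by
  simp only [ff, Derivation.leibniz, smul_eq_mul]
  ring

lemma F0 (z0 : ℂ) : Fp z0 0 = X 2 := rfl
lemma F1 (z0 : ℂ) : Fp z0 1 = cc (X 0) (X 1) := rfl
lemma F2 (z0 : ℂ) : Fp z0 2 = qq (X 0) (X 1) (X 2 + MvPolynomial.C z0) := rfl

lemma euler_nabP (z0 : ℂ) (a : Fin 3 → ℂ) (N : ℕ) (P : T3) :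
    X 0 * nabP z0 a 0 N P + X 1 * nabP z0 a 1 N P
      = ff z0 * (X 0 * pderiv 0 P + X 1 * pderiv 1 P)
        + (MvPolynomial.C (3 * a 1 + 2 * a 2) - 5 * (N : T3)) * (ff z0 * P) := by
  simp only [nabP, om, pderiv_ff, P00, P10, P01, P11, P02, P12, map_add, map_mul, map_ofNat]
  simp only [ff, F0, F1, F2, cc, cx, cy, qq]
  ring

lemma fun_zero_mv {A : Type} [CommRing A] (Φ : T3 →+* A) (f : T3 → A)
    (hadd : ∀ p q, f (p + q) = f p + f q) (hmul : ∀ p q, f (p * q) = Φ p * f q + Φ q * f p)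
    (hC : ∀ c, f (MvPolynomial.C c) = 0) (h0 : f (X 0) = 0) (h1 : f (X 1) = 0)
    (h2 : f (X 2) = 0) (P : T3) : f P = 0 := by
  induction P using MvPolynomial.induction_on with
  | C a => exact hC a
  | add p q hp hq => rw [hadd, hp, hq, add_zero]
  | mul_X p i hp =>
    have : f (X i) = 0 := by
      fin_cases i
      · exact h0
      · exact h1
      · exact h2
    rw [hmul, hp, this, mul_zero, mul_zero, add_zero]

section
variable {R : Type} [CommRing R] (k : ℂ →+* R) (t : R)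

/-- Substitution `x = t ρ`, `y = ρ`. -/
noncomputable def Phi : T3 →+* R⟦X⟧[T;T⁻¹] :=
  eval₂Hom ((LaurentPolynomial.C.comp PowerSeries.C).comp k)
    ![LaurentPolynomial.C (PowerSeries.C t) * T 1, T 1, LaurentPolynomial.C PowerSeries.X]

lemma Phi_C (c : ℂ) : Phi k t (MvPolynomial.C c) = LaurentPolynomial.C (PowerSeries.C (k c)) := by
  simp [Phi]
lemma Phi_0 : Phi k t (X 0) = LaurentPolynomial.C (PowerSeries.C t) * T 1 := by simp [Phi]
lemma Phi_1 : Phi k t (X 1) = T 1 := by simp [Phi]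
lemma Phi_2 : Phi k t (X 2) = LaurentPolynomial.C PowerSeries.X := by simp [Phi]

lemma T_pow' (n : ℕ) : (T 1 : R⟦X⟧[T;T⁻¹]) ^ n = T n := by
  rw [LaurentPolynomial.T_pow]; simp

lemma coeff_mul_Tpow (x : R⟦X⟧[T;T⁻¹]) (j : ℕ) (n : ℤ) :
    (x * T 1 ^ j).coeff (n + j) = x.coeff n := by
  rw [T_pow', coeff_mul_T]

lemma Phi_dx {d : R →+ R} (hd : IsDer (RingHom.id R) d) (hk : ∀ c, d (k c) = 0) (ht : d t = 1)
    (P : T3) (n : ℤ) :
    (Phi k t (pderiv 0 P)).coeff n = Dt d ((Phi k t P).coeff (n + 1)) := by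
  let D : R⟦X⟧[T;T⁻¹] →+ R⟦X⟧[T;T⁻¹] := dia (fun _ => Dt d)
  have hD : IsDer (RingHom.id _) D := isDer_dia _ (fun m n a b => isDer_Dt hd a b)
  have DC : ∀ c, D (LaurentPolynomial.C c) = LaurentPolynomial.C (Dt d c) := fun c =>
    dia_single _ 0 c
  have DT : D (T 1) = 0 := by
    have := dia_single (fun _ => Dt d) 1 1
    rw [(isDer_Dt hd).one] at this
    simpa using this
  have key : T 1 * Phi k t (pderiv 0 P) - D (Phi k t P) = 0 := by
    refine fun_zero_mv (Phi k t) (fun P => T 1 * Phi k t (pderiv 0 P) - D (Phi k t P))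
      ?_ ?_ ?_ ?_ ?_ ?_ P
    · intro p q
      simp only [map_add]
      ring
    · intro p q
      simp only [Derivation.leibniz, smul_eq_mul, map_add, map_mul, der_mul hD]
      ring
    · intro c
      simp only [MvPolynomial.pderiv_C, Phi_C, DC, Dt_C, hk, map_zero, mul_zero, sub_zero]
    · simp [Phi_0, der_mul hD, DT, DC, Dt_C, ht]
    · simp [Phi_1, DT]
    · simp [Phi_2, DC, Dt_X hd]
  rw [← coeff_mul_T _ 1 n, mul_comm, sub_eq_zero.mp key]
  rfl

lemma Phi_E (P : T3) (n : ℤ) :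
    (Phi k t (X 0 * pderiv 0 P + X 1 * pderiv 1 P)).coeff n = n * (Phi k t P).coeff n := by
  let D : R⟦X⟧[T;T⁻¹] →+ R⟦X⟧[T;T⁻¹] := dia (fun n => AddMonoidHom.mulLeft (n : R⟦X⟧))
  have hD : IsDer (RingHom.id _) D := isDer_dia _ (fun m n a b => by
    simp only [AddMonoidHom.coe_mulLeft, Int.cast_add]; ring)
  have DC : ∀ c, D (LaurentPolynomial.C c) = 0 := fun c => by
    have := dia_single (fun n => AddMonoidHom.mulLeft (n : R⟦X⟧)) 0 c
    simpa using this
  have DT : D (T 1) = T 1 := by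
    have := dia_single (fun n => AddMonoidHom.mulLeft (n : R⟦X⟧)) 1 1
    simpa using this
  have key : Phi k t (X 0 * pderiv 0 P + X 1 * pderiv 1 P) - D (Phi k t P) = 0 := by
    refine fun_zero_mv (Phi k t)
      (fun P => Phi k t (X 0 * pderiv 0 P + X 1 * pderiv 1 P) - D (Phi k t P))
      ?_ ?_ ?_ ?_ ?_ ?_ P
    · intro p q
      simp only [map_add, map_mul]
      ring
    · intro p q
      simp only [Derivation.leibniz, smul_eq_mul, map_add, map_mul, der_mul hD]
      ring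
    · intro c
      simp only [MvPolynomial.pderiv_C, Phi_C, DC, map_zero, mul_zero, sub_zero, add_zero]
    · simp [Phi_0, der_mul hD, DT, DC]
    · simp [Phi_1, DT]
    · simp [Phi_2, DC]
  rw [sub_eq_zero.mp key]
  rfl

lemma Phi_dz (P : T3) (n : ℤ) :
    (Phi k t (X 2 * pderiv 2 P)).coeff n = Th ((Phi k t P).coeff n) := by
  let D : R⟦X⟧[T;T⁻¹] →+ R⟦X⟧[T;T⁻¹] := dia (fun _ => Th)
  have hD : IsDer (RingHom.id _) D := isDer_dia _ (fun m n a b => isDer_Th a b)
  have DC : ∀ c, D (LaurentPolynomial.C c) = LaurentPolynomial.C (Th c) := fun c =>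
    dia_single _ 0 c
  have DT : D (T 1) = 0 := by
    have := dia_single (fun _ => (Th : R⟦X⟧ →+ R⟦X⟧)) 1 1
    rw [isDer_Th.one] at this
    simpa using this
  have key : Phi k t (X 2 * pderiv 2 P) - D (Phi k t P) = 0 := by
    refine fun_zero_mv (Phi k t) (fun P => Phi k t (X 2 * pderiv 2 P) - D (Phi k t P))
      ?_ ?_ ?_ ?_ ?_ ?_ P
    · intro p q
      simp only [map_add, map_mul]
      ring
    · intro p q
      simp only [Derivation.leibniz, smul_eq_mul, map_add, map_mul, der_mul hD]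
      ring
    · intro c
      simp only [MvPolynomial.pderiv_C, Phi_C, DC, Th_C, map_zero, mul_zero, sub_zero]
    · simp [Phi_0, der_mul hD, DT, DC, Th_C]
    · simp [Phi_1, DT]
    · simp [Phi_2, DC, Th_X]
  rw [sub_eq_zero.mp key]
  rfl

/-- Multiplication by a polynomial whose image is `C u * ρ^j`. -/
lemma Phi_mul (M P : T3) (u : R⟦X⟧) (j : ℕ)
    (h : Phi k t M = LaurentPolynomial.C u * T 1 ^ j) (n : ℤ) :
    (Phi k t (M * P)).coeff (n + j) = u * (Phi k t P).coeff n := by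
  rw [map_mul, h, show LaurentPolynomial.C u * T 1 ^ j * Phi k t P
    = LaurentPolynomial.C u * (Phi k t P * T 1 ^ j) by ring, coeff_C_mul, coeff_mul_Tpow]

lemma Phi_coeff_zero (m : T3) : ∃ μ : ℂ⟦X⟧, (Phi k t m).coeff 0 = PowerSeries.map k μ := by
  have poly : ∃ (μ : ℂ⟦X⟧) (P : Polynomial R⟦X⟧), Phi k t m
      = LaurentPolynomial.C (PowerSeries.map k μ) + Polynomial.toLaurent P * T 1 := by
    induction m using MvPolynomial.induction_on with
    | C c => exact ⟨PowerSeries.C c, 0, by rw [Phi_C]; simp⟩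
    | add p q hp hq =>
      obtain ⟨κ, P, e⟩ := hp
      obtain ⟨κ', P', e'⟩ := hq
      exact ⟨κ + κ', P + P', by simp only [map_add, e, e']; ring⟩
    | mul_X p i hp =>
      obtain ⟨κ, P, e⟩ := hp
      rw [map_mul, e]
      fin_cases i
      · refine ⟨0, Polynomial.C (PowerSeries.C t) * (Polynomial.C (PowerSeries.map k κ)
          + P * Polynomial.X), ?_⟩
        simp only [Fin.zero_eta, Phi_0, map_add, map_mul, map_zero, Polynomial.toLaurent_C,
          Polynomial.toLaurent_X]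
        ring
      · refine ⟨0, Polynomial.C (PowerSeries.map k κ) + P * Polynomial.X, ?_⟩
        simp only [Fin.mk_one, Phi_1, map_add, map_mul, map_zero, Polynomial.toLaurent_C,
          Polynomial.toLaurent_X]
        ring
      · refine ⟨κ * PowerSeries.X, P * Polynomial.C PowerSeries.X, ?_⟩
        simp only [Fin.reduceFinMk, Phi_2, map_mul, Polynomial.toLaurent_C,
          PowerSeries.map_X]
        ring
  obtain ⟨μ, P, e⟩ := poly
  refine ⟨μ, ?_⟩
  rw [e, AddMonoidAlgebra.coeff_add, Finsupp.add_apply, LaurentPolynomial.C_apply,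
    show (0 : ℤ) = -1 + 1 by norm_num, coeff_mul_T, LaurentPolynomial.coeff_toLaurent,
    Finsupp.mapDomain_of_notMem_range]
  · simp
  · rintro ⟨n, hn⟩
    simp at hn

lemma Phi_high (P : T3) (n m : ℕ) (Y : R⟦X⟧)
    (h : ∀ e : Fin 3 →₀ ℕ, e 0 + e 1 + e 2 ≤ n + m → MvPolynomial.coeff e P = 0) :
    PowerSeries.coeff m (Y * (Phi k t P).coeff n) = 0 := by
  rw [P.as_sum, map_sum, AddMonoidAlgebra.coeff_sum, Finsupp.finsetSum_apply, Finset.mul_sum,
    map_sum]
  apply Finset.sum_eq_zero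
  intro e he
  have hne : ¬ e 0 + e 1 + e 2 ≤ n + m := fun h' => MvPolynomial.mem_support_iff.mp he (h e h')
  have : Phi k t (MvPolynomial.monomial e (MvPolynomial.coeff e P)) = LaurentPolynomial.C
      (PowerSeries.C (k (MvPolynomial.coeff e P) * t ^ e 0) * PowerSeries.X ^ e 2)
        * T 1 ^ (e 0 + e 1) := by
    rw [MvPolynomial.monomial_eq, Finsupp.prod_fintype _ _ (by simp), Fin.prod_univ_three]
    simp only [map_mul, map_pow, Phi_C, Phi_0, Phi_1, Phi_2]
    ring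
  rw [this, coeff_C_mul, T_pow', LaurentPolynomial.T_apply]
  split_ifs with h1
  · have h2 : m < e 2 := by omega
    rw [mul_one, ← mul_assoc, PowerSeries.coeff_mul_X_pow', if_neg (by omega)]
  · simp

end

end Pool.Agent.H869Z.AObs
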