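import Mathlib

/-!
Bernstein-Sato ideals along monoid ideals, algebraic setting.

`S` is the coordinate ring of a smooth affine complex variety `X`, `F = (f_1, ..., f_r)`.
The module `S[1/(f_1 ... f_r), s] F^s` is modelled by the ring `Loc F = S[s][1/(f_1 ... f_r)]`,
an element `g` standing for `g F^s`. For smooth `X` the ring `D_X` is generated by `S` and the
vector fields (the `ℂ`-derivations of `S`).
-/

namespace Pool.Agent.H869Z.BS

open MvPolynomial

variable {S : Type} [CommRing S] [Algebra ℂ S] {r : ℕ}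

/-- The ring `S[s_1, ..., s_r][1/(f_1 ... f_r)]`; an element `g` stands for `g F^s`. -/
abbrev Loc (F : Fin r → S) : Type :=
  Localization.Away (C (∏ i, F i) : MvPolynomial (Fin r) S)

/-- The canonical map `S[s] → S[s][1/(f_1 ... f_r)]`. -/
noncomputable abbrev toLoc (F : Fin r → S) : MvPolynomial (Fin r) S →+* Loc F :=
  algebraMap (MvPolynomial (Fin r) S) (Loc F)

/-- `D` is the extension to `Loc F` of a vector field `δ` of `X`: it kills every `s_i` and it
restricts to the derivation `δ` on `S`. -/
def IsVectorField (F : Fin r → S) (D : Derivation ℂ (Loc F) (Loc F)) : Prop :=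
  (∀ i, D (toLoc F (X i)) = 0) ∧
    ∃ δ : Derivation ℂ S S, ∀ h : S, D (toLoc F (C h)) = toLoc F (C (δ h))

/-- The action of a vector field on `g F^s`:
`D (g F^s) = (D g + (∑ i, s_i (D f_i) / f_i) g) F^s`. -/
noncomputable def act (F : Fin r → S) (D : Derivation ℂ (Loc F) (Loc F)) (g : Loc F) : Loc F :=
  D g + (∑ i, toLoc F (X i) * D (toLoc F (C (F i))) * Ring.inverse (toLoc F (C (F i)))) * g

/-- The `D_X[s]`-submodule generated by `G F^s`: the least `S[s]`-submodule containing `G` and
stable under the action of all vector fields. -/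
noncomputable def dSpan (F : Fin r → S) (G : Set (Loc F)) :
    Submodule (MvPolynomial (Fin r) S) (Loc F) :=
  sInf {N | G ⊆ N ∧ ∀ D, IsVectorField F D → ∀ g ∈ N, act F D g ∈ N}

/-- The Bernstein-Sato ideal `B_F^{m_1, ..., m_p}`: all `b(s) ∈ ℂ[s]` with
`b(s) F^s ∈ ∑ j, D_X[s] F^{s + m_j}`. -/
noncomputable def bsIdeal (F : Fin r → S) {p : ℕ} (m : Fin p → Fin r → ℕ) :
    Ideal (MvPolynomial (Fin r) ℂ) where
  carrier := {b | toLoc F (map (algebraMap ℂ S) b) ∈
    dSpan F (Set.range fun j => toLoc F (C (∏ i, F i ^ m j i)))}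
  add_mem' := by
    intro a b ha hb
    simp only [Set.mem_ofPred_eq, map_add] at ha hb ⊢
    exact Submodule.add_mem _ ha hb
  zero_mem' := by
    simp only [Set.mem_ofPred_eq, map_zero]
    exact Submodule.zero_mem _
  smul_mem' := by
    intro c b hb
    simp only [Set.mem_ofPred_eq, smul_eq_mul, map_mul] at hb ⊢
    have h := Submodule.smul_mem _ (map (algebraMap ℂ S) c) hb
    rwa [Algebra.smul_def] at h

/-- `q` is a finite product (possibly empty) of polynomials `c_1 s_1 + ... + c_r s_r + c_0`
with rational `c_1, ..., c_r` and complex `c_0`. -/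
def IsLinProd (q : MvPolynomial (Fin r) ℂ) : Prop :=
  ∃ l : List ((Fin r → ℚ) × ℂ),
    q = (l.map fun c => (∑ i, C (c.1 i : ℂ) * X i) + C c.2).prod

end Pool.Agent.H869Z.BS
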