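import Mathlib

/-!
Derivations along a ring homomorphism: uniqueness and existence on polynomial rings and
localizations, and coefficientwise operators on Laurent polynomials.
-/

namespace Pool.Agent.H869Z.Der

open TrivSqZeroExt

/-- `d` is a derivation along `Φ`. -/
def IsDer {L A : Type*} [CommRing L] [CommRing A] (Φ : L →+* A) (d : L →+ A) : Prop :=
  ∀ a b, d (a * b) = Φ a * d b + Φ b * d a

section
variable {T L A : Type*} [CommRing T] [CommRing L] [CommRing A]

lemma IsDer.one {Φ : L →+* A} {d : L →+ A} (h : IsDer Φ d) : d 1 = 0 := by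
  have := h 1 1
  simp only [mul_one, map_one, one_mul] at this
  linear_combination (-1 : A) * this

lemma IsDer.sub {Φ : L →+* A} {d e : L →+ A} (h : IsDer Φ d) (h' : IsDer Φ e) :
    IsDer Φ (d - e) := by
  intro a b
  simp only [AddMonoidHom.sub_apply, h a b, h' a b]
  ring

lemma IsDer.add {Φ : L →+* A} {d e : L →+ A} (h : IsDer Φ d) (h' : IsDer Φ e) :
    IsDer Φ (d + e) := by
  intro a b
  simp only [AddMonoidHom.add_apply, h a b, h' a b]
  ring

lemma IsDer.mulLeft {Φ : L →+* A} {d : L →+ A} (h : IsDer Φ d) (c : A) :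
    IsDer Φ ((AddMonoidHom.mulLeft c).comp d) := by
  intro a b
  simp only [AddMonoidHom.comp_apply, AddMonoidHom.coe_mulLeft, h a b]
  ring

lemma IsDer.comp_right {Φ : L →+* A} {d : L →+ A} (h : IsDer Φ d) (ψ : T →+* L) :
    IsDer (Φ.comp ψ) (d.comp ψ.toAddMonoidHom) := by
  intro a b
  simp [h _ _]

lemma IsDer.comp_left {Φ : T →+* L} {d : T →+ L} (h : IsDer Φ d) (ψ : L →+* A) :
    IsDer (ψ.comp Φ) (ψ.toAddMonoidHom.comp d) := by
  intro a b
  simp [h _ _]

lemma IsDer.zero_of_loc [Algebra T L] (M : Submonoid T) [IsLocalization M L]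
    {Φ : L →+* A} {d : L →+ A} (h : IsDer Φ d) (h0 : ∀ x : T, d (algebraMap T L x) = 0)
    (z : L) : d z = 0 := by
  obtain ⟨⟨x, s⟩, hz⟩ := IsLocalization.surj M z
  have h1 := h z (algebraMap T L s)
  simp only at hz
  rw [hz, h0, h0] at h1
  have hu : IsUnit (Φ (algebraMap T L s)) := (IsLocalization.map_units L s).map Φ
  have h2 : Φ (algebraMap T L s) * d z = 0 := by linear_combination (-1 : A) * h1
  exact (hu.mul_right_eq_zero).mp h2

lemma IsDer.zero_of_mv {σ S : Type*} [CommRing S] {Φ : MvPolynomial σ S →+* A}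
    {d : MvPolynomial σ S →+ A} (h : IsDer Φ d) (hC : ∀ x : S, d (MvPolynomial.C x) = 0)
    (hX : ∀ i, d (MvPolynomial.X i) = 0) (z : MvPolynomial σ S) : d z = 0 := by
  induction z using MvPolynomial.induction_on with
  | C a => exact hC a
  | add p q hp hq => rw [map_add, hp, hq, add_zero]
  | mul_X p i hp => rw [h, hp, hX]; simp

/-- The ring homomorphism into dual numbers attached to a derivation. -/
def dualHom (Φ : L →+* A) (d : L →+ A) (h : IsDer Φ d) : L →+* TrivSqZeroExt A A where
  toFun a := inl (Φ a) + inr (d a)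
  map_one' := by ext <;> simp [h.one]
  map_mul' a b := by
    ext
    · simp
    · simp [h a b, mul_comm]
  map_zero' := by ext <;> simp
  map_add' a b := by ext <;> simp

/-- Second component of a ring homomorphism into dual numbers. -/
def sndOf (ψ : L →+* TrivSqZeroExt A A) : L →+ A where
  toFun a := (ψ a).snd
  map_zero' := by simp
  map_add' a b := by simp

lemma isDer_sndOf (ψ : L →+* TrivSqZeroExt A A) (Φ : L →+* A) (hΦ : ∀ a, (ψ a).fst = Φ a) :
    IsDer Φ (sndOf ψ) := by
  intro a b
  simp [sndOf, hΦ, mul_comm]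

lemma exists_loc [Algebra T L] (M : Submonoid T) [IsLocalization M L]
    (Φ : L →+* A) (d : T →+ A) (h : IsDer (Φ.comp (algebraMap T L)) d) :
    ∃ e : L →+ A, IsDer Φ e ∧ ∀ x, e (algebraMap T L x) = d x := by
  have hu : ∀ y : M, IsUnit (dualHom _ d h y) := by
    intro y
    rw [TrivSqZeroExt.isUnit_iff_isUnit_fst]
    simpa [dualHom] using (IsLocalization.map_units L y).map Φ
  let ψ : L →+* TrivSqZeroExt A A := IsLocalization.lift (M := M) hu
  have hψ : ∀ x, ψ (algebraMap T L x) = dualHom _ d h x := fun x => IsLocalization.lift_eq hu x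
  refine ⟨sndOf ψ, isDer_sndOf ψ Φ ?_, ?_⟩
  · have : (TrivSqZeroExt.fstHom ℤ A A).toRingHom.comp ψ = Φ := by
      apply IsLocalization.ringHom_ext M
      ext x
      simp [hψ, dualHom]
    intro a
    rw [← this]
    rfl
  · intro x
    simp [sndOf, hψ, dualHom]

lemma exists_mv {σ S : Type*} [CommRing S] (Φ : MvPolynomial σ S →+* A) (d : S →+ A)
    (h : IsDer (Φ.comp MvPolynomial.C) d) (v : σ → A) :
    ∃ e : MvPolynomial σ S →+ A, IsDer Φ e ∧ (∀ x, e (MvPolynomial.C x) = d x) ∧
      ∀ i, e (MvPolynomial.X i) = v i := by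
  let ψ : MvPolynomial σ S →+* TrivSqZeroExt A A :=
    MvPolynomial.eval₂Hom (dualHom _ d h) (fun i => inl (Φ (MvPolynomial.X i)) + inr (v i))
  refine ⟨sndOf ψ, isDer_sndOf ψ Φ ?_, ?_, ?_⟩
  · have : (TrivSqZeroExt.fstHom ℤ A A).toRingHom.comp ψ = Φ := by
      apply MvPolynomial.ringHom_ext
      · intro x; simp [ψ, dualHom]
      · intro i; simp [ψ]
    intro a
    rw [← this]
    rfl
  · intro x
    simp [sndOf, ψ, dualHom]
  · intro i
    simp [sndOf, ψ]

/-- A derivation along the identity that kills constants, as a bundled derivation. -/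
def toDerivation {K : Type*} [CommRing K] [Algebra K L] (d : L →+ L) (h : IsDer (RingHom.id L) d)
    (h0 : ∀ c : K, d (algebraMap K L c) = 0) : Derivation K L L :=
  Derivation.mk'
    { toFun := d
      map_add' := d.map_add
      map_smul' := by
        intro c x
        rw [Algebra.smul_def, h, h0]
        simp [Algebra.smul_def] }
    (by intro a b; simpa using h a b)

@[simp] lemma toDerivation_apply {K : Type*} [CommRing K] [Algebra K L] (d : L →+ L)
    (h : IsDer (RingHom.id L) d) (h0 : ∀ c : K, d (algebraMap K L c) = 0) (x : L) :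
    toDerivation d h h0 x = d x := rfl

lemma isDer_derivation {K : Type*} [CommRing K] [Algebra K L] (D : Derivation K L L) :
    IsDer (RingHom.id L) (D.toLinearMap.toAddMonoidHom) := by
  intro a b
  simp

end

section Laurent
open LaurentPolynomial
variable {R : Type*} [CommRing R]

/-- Coefficientwise operator on Laurent polynomials. -/
noncomputable def dia (φ : ℤ → R →+ R) : R[T;T⁻¹] →+ R[T;T⁻¹] where
  toFun x := AddMonoidAlgebra.ofCoeff (Finsupp.onFinset x.coeff.support
    (fun n => φ n (x.coeff n)) (by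
      intro n hn
      rw [Finsupp.mem_support_iff]
      intro h0
      apply hn
      simp [h0]))
  map_zero' := by ext n; simp
  map_add' x y := by ext n; simp

@[simp] lemma coeff_dia (φ : ℤ → R →+ R) (x : R[T;T⁻¹]) (n : ℤ) :
    (dia φ x).coeff n = φ n (x.coeff n) := rfl

lemma dia_single (φ : ℤ → R →+ R) (n : ℤ) (a : R) :
    dia φ (AddMonoidAlgebra.single n a) = AddMonoidAlgebra.single n (φ n a) := by
  ext m
  simp only [coeff_dia, AddMonoidAlgebra.coeff_single, Finsupp.single_apply]
  split_ifs with h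
  · rw [h]
  · simp

lemma isDer_dia (φ : ℤ → R →+ R)
    (h : ∀ m n a b, φ (m + n) (a * b) = a * φ n b + b * φ m a) :
    IsDer (RingHom.id _) (dia φ) := by
  intro x y
  simp only [RingHom.id_apply]
  induction x using AddMonoidAlgebra.induction_linear with
  | zero => simp
  | add x x' hx hx' => simp only [add_mul, map_add, hx, hx']; ring
  | single m a =>
    induction y using AddMonoidAlgebra.induction_linear with
    | zero => simp
    | add y y' hy hy' => simp only [mul_add, map_add, hy, hy']; ring
    | single n b =>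
      simp only [AddMonoidAlgebra.single_mul_single, dia_single, h, add_comm n m,
        AddMonoidAlgebra.single_add]

lemma coeff_C_mul (a : R) (x : R[T;T⁻¹]) (n : ℤ) : (C a * x).coeff n = a * x.coeff n := by
  rw [← single_eq_C]
  exact AddMonoidAlgebra.coeff_single_zero_mul x a n

lemma coeff_mul_T (x : R[T;T⁻¹]) (k n : ℤ) : (x * T k).coeff (n + k) = x.coeff n := by
  have := AddMonoidAlgebra.coeff_mul_single_add x (1 : R) k n
  rw [mul_one] at this
  exact this

end Laurent

end Pool.Agent.H869Z.Der
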