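import Pool.Agent.H869Z.BSDefs
import Pool.Agent.H869Z.Der

/-! General facts on `Loc F`, vector fields and `dSpan`. -/

set_option linter.unusedSectionVars false

namespace Pool.Agent.H869Z.BS

open MvPolynomial Pool.Agent.H869Z.Der

variable {S : Type} [CommRing S] [Algebra ℂ S] {r : ℕ}

lemma algebraMap_loc (F : Fin r → S) (c : ℂ) :
    algebraMap ℂ (Loc F) c = toLoc F (C (algebraMap ℂ S c)) := by
  rw [IsScalarTower.algebraMap_apply ℂ (MvPolynomial (Fin r) S) (Loc F)]
  rfl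

lemma exists_vf (F : Fin r → S) (δ : Derivation ℂ S S) :
    ∃ D : Derivation ℂ (Loc F) (Loc F), (∀ i, D (toLoc F (X i)) = 0) ∧
      ∀ h : S, D (toLoc F (C h)) = toLoc F (C (δ h)) := by
  let d0 : S →+ Loc F := ((toLoc F).comp C).toAddMonoidHom.comp δ.toLinearMap.toAddMonoidHom
  have hd0 : IsDer ((toLoc F).comp C) d0 := by
    intro a b
    simp [d0]
  obtain ⟨e, he, heC, heX⟩ := exists_mv (toLoc F) d0 hd0 (fun _ => 0)
  obtain ⟨D, hD, hDe⟩ := exists_loc (L := Loc F) (Submonoid.powers (C (∏ i, F i) :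
    MvPolynomial (Fin r) S)) (RingHom.id _) e (by simpa using he)
  refine ⟨toDerivation D hD ?_, ?_, ?_⟩
  · intro c
    rw [algebraMap_loc, hDe, heC]
    simp [d0]
  · intro i
    rw [toDerivation_apply, hDe, heX]
  · intro h
    rw [toDerivation_apply, hDe, heC]
    simp [d0]

lemma isUnit_F (F : Fin r → S) (i : Fin r) : IsUnit (toLoc F (C (F i))) := by
  have h : IsUnit (toLoc F (C (∏ i, F i))) := IsLocalization.Away.algebraMap_isUnit _
  have e : toLoc F (C (∏ i, F i)) = toLoc F (C (F i)) * toLoc F (C (∏ j ∈ Finset.univ.erase i, F j)) := by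
    rw [← map_mul, ← map_mul, Finset.mul_prod_erase Finset.univ F (Finset.mem_univ i)]
  rw [e] at h
  exact isUnit_of_mul_isUnit_left h

lemma mul_inv_F (F : Fin r → S) (i : Fin r) :
    toLoc F (C (F i)) * Ring.inverse (toLoc F (C (F i))) = 1 :=
  Ring.mul_inverse_cancel _ (isUnit_F F i)

lemma subset_dSpan (F : Fin r → S) (G : Set (Loc F)) : G ⊆ dSpan F G := by
  intro g hg
  simp only [dSpan, SetLike.mem_coe, Submodule.mem_sInf]
  intro N hN
  exact hN.1 hg

lemma act_mem_dSpan (F : Fin r → S) (G : Set (Loc F)) {D : Derivation ℂ (Loc F) (Loc F)}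
    (hD : IsVectorField F D) {g : Loc F} (hg : g ∈ dSpan F G) : act F D g ∈ dSpan F G := by
  simp only [dSpan, Submodule.mem_sInf] at hg ⊢
  intro N hN
  exact hN.2 D hD g (hg N hN)

lemma mul_mem_dSpan (F : Fin r → S) (G : Set (Loc F)) (h : MvPolynomial (Fin r) S)
    {g : Loc F} (hg : g ∈ dSpan F G) : toLoc F h * g ∈ dSpan F G := by
  have := Submodule.smul_mem _ h hg
  rwa [Algebra.smul_def] at this

lemma dSpan_le (F : Fin r → S) (G : Set (Loc F)) (N : Submodule (MvPolynomial (Fin r) S) (Loc F))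
    (h1 : G ⊆ N) (h2 : ∀ D, IsVectorField F D → ∀ g ∈ N, act F D g ∈ N) : dSpan F G ≤ N :=
  sInf_le ⟨h1, h2⟩

/-- A derivation along `Φ` on `Loc F` vanishes once it vanishes on `S` and on the `s_i`. -/
lemma der_zero (F : Fin r → S) {A : Type*} [CommRing A] {Φ : Loc F →+* A} {d : Loc F →+ A}
    (h : IsDer Φ d) (hC : ∀ x : S, d (toLoc F (C x)) = 0) (hX : ∀ i, d (toLoc F (X i)) = 0)
    (z : Loc F) : d z = 0 := by
  refine IsDer.zero_of_loc (Submonoid.powers (C (∏ i, F i) : MvPolynomial (Fin r) S)) h ?_ z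
  intro x
  exact IsDer.zero_of_mv (h.comp_right (toLoc F)) hC hX x

lemma vf_toLoc (F : Fin r → S) {D : Derivation ℂ (Loc F) (Loc F)} (hD : IsVectorField F D)
    (h : MvPolynomial (Fin r) S) : ∃ h', D (toLoc F h) = toLoc F h' := by
  obtain ⟨hX, δ, hδ⟩ := hD
  induction h using MvPolynomial.induction_on with
  | C a => exact ⟨_, hδ a⟩
  | add p q hp hq =>
    obtain ⟨p', hp⟩ := hp
    obtain ⟨q', hq⟩ := hq
    exact ⟨p' + q', by rw [map_add, map_add, hp, hq, map_add]⟩
  | mul_X p i hp =>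
    obtain ⟨p', hp⟩ := hp
    refine ⟨p' * X i, ?_⟩
    rw [map_mul, Derivation.leibniz, hX, hp, map_mul]
    simp [mul_comm]

lemma act_mul (F : Fin r → S) (D : Derivation ℂ (Loc F) (Loc F)) (h g : Loc F) :
    act F D (h * g) = h * act F D g + D h * g := by
  simp only [act, Derivation.leibniz, smul_eq_mul]
  ring

end Pool.Agent.H869Z.BS
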