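import Pool.Agent.H869Z.BSObs

/-! The Bernstein-Sato ideal of four lines along `(2 e_1, 2 e_2)` is not generated by products
of polynomials of degree one with rational slopes. -/

namespace Pool.Agent.H869Z.BS

open MvPolynomial Complex

/-- Direction of the line of test points. -/
noncomputable def ww : Fin 4 → ℂ :=
  ![1, -(√2 : ℝ) + I * (1 + (√2 : ℝ)), (√2 : ℝ), -(1 + I) - I * (√2 : ℝ)]

/-- The test points. -/
noncomputable def pt (τ : ℝ) : Fin 4 → ℂ := fun i => ![-2, -2, 0, 0] i + I * τ * ww i

lemma rat_indep (c : Fin 4 → ℚ) (h : ∑ i, (c i : ℂ) * ww i = 0) :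
    c 0 = c 1 ∧ c 2 = c 1 ∧ c 3 = c 1 := by
  rw [Fin.sum_univ_four] at h
  have hre := congrArg Complex.re h
  have him := congrArg Complex.im h
  simp [ww] at hre him
  have hs : (0 : ℝ) < √2 := by positivity
  have h31 : (c 3 : ℝ) = c 1 := by
    have : ((c 1 : ℝ) - c 3) * (1 + √2) = 0 := by linear_combination him
    rcases mul_eq_zero.mp this with h' | h'
    · linarith
    · linarith
  have h21 : c 2 = c 1 := by
    by_contra hne
    have hne' : ((c 2 : ℝ) - c 1) ≠ 0 := by
      rw [sub_ne_zero]
      exact_mod_cast hne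
    apply irrational_sqrt_two
    refine ⟨(c 3 - c 0) / (c 2 - c 1), ?_⟩
    push_cast
    field_simp
    linear_combination (-1 : ℝ) * hre
  have h21' : (c 2 : ℝ) = c 1 := by exact_mod_cast h21
  refine ⟨?_, h21, by exact_mod_cast h31⟩
  have : (c 0 : ℝ) = c 1 := by
    rw [h21'] at hre
    linear_combination hre + h31
  exact_mod_cast this

/-- The reference point. -/
def star : Fin 4 → ℂ := ![-4, 0, 0, 0]

lemma dichotomy (l : List ((Fin 4 → ℚ) × ℂ)) :
    eval star (l.map fun c => (∑ i, C (c.1 i : ℂ) * X i) + C c.2).prod = 0 ∨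
    {τ : ℝ | eval (pt τ) (l.map fun c => (∑ i, C (c.1 i : ℂ) * X i) + C c.2).prod = 0}.Finite := by
  induction l with
  | nil => right; simp
  | cons c l ih =>
    simp only [List.map_cons, List.prod_cons, map_mul, mul_eq_zero]
    rcases ih with ih | ih
    · left; right; exact ih
    have ev : ∀ τ : ℝ, eval (pt τ) ((∑ i, C (c.1 i : ℂ) * X i) + C c.2)
        = (-2 * c.1 0 - 2 * c.1 1 + c.2) + I * τ * ∑ i, (c.1 i : ℂ) * ww i := by
      intro τ
      simp [Fin.sum_univ_four, pt]
      ring
    by_cases hz : eval star ((∑ i, C (c.1 i : ℂ) * X i) + C c.2) = 0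
    · left; left; exact hz
    right
    refine Set.Finite.union (s := {τ : ℝ | eval (pt τ) ((∑ i, C (c.1 i : ℂ) * X i) + C c.2) = 0})
      ?_ ih
    by_cases hw : ∑ i, (c.1 i : ℂ) * ww i = 0
    · obtain ⟨h0, -, -⟩ := rat_indep _ hw
      convert Set.finite_empty
      ext τ
      simp only [Set.mem_ofPred_eq, Set.mem_empty_iff_false, iff_false, ev, hw]
      intro h
      apply hz
      simp [Fin.sum_univ_four, star]
      rw [← h0] at h
      linear_combination h
    · apply Set.Subsingleton.finite
      intro τ h τ' h'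
      simp only [Set.mem_ofPred_eq, ev] at h h'
      have : I * ((τ : ℂ) - τ') * ∑ i, (c.1 i : ℂ) * ww i = 0 := by linear_combination h - h'
      rcases mul_eq_zero.mp this with h1 | h1
      · rcases mul_eq_zero.mp h1 with h2 | h2
        · exact absurd h2 I_ne_zero
        · exact_mod_cast sub_eq_zero.mp h2
      · exact absurd h1 hw

theorem main (F : Fin 4 → S2) (f0 : F 0 = X 0) (f1 : F 1 = X 1) (f2 : F 2 = X 0 + X 1)
    (f3 : F 3 = X 0 + C I * X 1) :
    ¬ ∃ G : Set (MvPolynomial (Fin 4) ℂ), (∀ q ∈ G, IsLinProd q) ∧ Ideal.span G = bsIdeal F mm := by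
  rintro ⟨G, hG, hspan⟩
  obtain ⟨Dx, Dy, K⟩ := exists_coord I F f0 f1 f2 f3
  have hI1 : I ≠ 1 := by
    intro h
    simpa using congrArg Complex.im h
  have hs : (0 : ℝ) < √2 := by positivity
  have hle : Ideal.span G ≤ RingHom.ker (eval star) := by
    rw [Ideal.span_le]
    intro q hq
    obtain ⟨l, rfl⟩ := hG q hq
    rcases dichotomy l with h | h
    · exact h
    exfalso
    have hq' := Ideal.subset_span hq
    rw [hspan] at hq'
    refine (Set.Ioi_infinite (0 : ℝ)) (h.subset ?_)
    intro τ hτ
    have hτ' : (0 : ℝ) < τ := hτ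
    refine eval_eq_zero K I_ne_zero hI1 (pt τ) ?_ ?_ ?_ ?_ ?_ ?_ _ hq'
    · intro n hn
      have := congrArg Complex.im hn
      simp [pt, ww] at this
      linarith
    · intro n hn
      have := congrArg Complex.im hn
      simp [pt, ww] at this
      linarith
    · intro n hn
      have := congrArg Complex.im hn
      simp [pt, ww] at this
      linarith
    · intro n hn
      have := congrArg Complex.im hn
      simp [pt, ww] at this
      linarith
    · simp [pt, ww]
      ring
    · simp [pt, ww]
      ring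
  have hm := mem_bs K
  rw [← hspan] at hm
  have := hle hm
  rw [RingHom.mem_ker] at this
  have h2 := congrArg Complex.im this
  simp [sig, Lp, star] at h2
  norm_num at h2

end Pool.Agent.H869Z.BS
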