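import Pool.Agent.H869Z.BSGen

/-! Four lines in the plane: the explicit element of the Bernstein-Sato ideal. -/

namespace Pool.Agent.H869Z.BS

open MvPolynomial Pool.Agent.H869Z.Der

abbrev S2 : Type := MvPolynomial (Fin 2) ℂ

def mm : Fin 2 → Fin 4 → ℕ := ![![2, 0, 0, 0], ![0, 2, 0, 0]]

noncomputable def xx (F : Fin 4 → S2) : Loc F := toLoc F (C (X 0))
noncomputable def yy (F : Fin 4 → S2) : Loc F := toLoc F (C (X 1))
noncomputable def ss (F : Fin 4 → S2) (i : Fin 4) : Loc F := toLoc F (X i)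
noncomputable def ll (F : Fin 4 → S2) (lam : ℂ) : Loc F := toLoc F (C (C lam))
noncomputable def iv (F : Fin 4 → S2) (i : Fin 4) : Loc F := Ring.inverse (toLoc F (C (F i)))

/-- The four lines and the two coordinate vector fields. -/
structure Coord (lam : ℂ) (F : Fin 4 → S2) (Dx Dy : Derivation ℂ (Loc F) (Loc F)) : Prop where
  f0 : F 0 = X 0
  f1 : F 1 = X 1
  f2 : F 2 = X 0 + X 1
  f3 : F 3 = X 0 + C lam * X 1
  hxs : ∀ i, Dx (toLoc F (X i)) = 0
  hys : ∀ i, Dy (toLoc F (X i)) = 0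
  hx : ∀ h : S2, Dx (toLoc F (C h)) = toLoc F (C (pderiv (0 : Fin 2) h))
  hy : ∀ h : S2, Dy (toLoc F (C h)) = toLoc F (C (pderiv (1 : Fin 2) h))

lemma exists_coord (lam : ℂ) (F : Fin 4 → S2) (f0 : F 0 = X 0) (f1 : F 1 = X 1)
    (f2 : F 2 = X 0 + X 1) (f3 : F 3 = X 0 + C lam * X 1) : ∃ Dx Dy, Coord lam F Dx Dy := by
  obtain ⟨Dx, h1, h2⟩ := exists_vf F (pderiv 0)
  obtain ⟨Dy, h3, h4⟩ := exists_vf F (pderiv 1)
  exact ⟨Dx, Dy, f0, f1, f2, f3, h1, h3, h2, h4⟩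

namespace Coord
variable {lam : ℂ} {F : Fin 4 → S2} {Dx Dy : Derivation ℂ (Loc F) (Loc F)}
  (K : Coord lam F Dx Dy)
include K

lemma e0 : toLoc F (C (F 0)) = xx F := by rw [xx, ← K.f0]
lemma e1 : toLoc F (C (F 1)) = yy F := by rw [yy, ← K.f1]
lemma e2 : toLoc F (C (F 2)) = xx F + yy F := by
  rw [xx, yy, ← map_add, ← map_add, ← K.f2]
lemma e3 : toLoc F (C (F 3)) = xx F + ll F lam * yy F := by
  rw [xx, yy, ll, ← map_mul, ← map_mul, ← map_add, ← map_add, ← K.f3]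

lemma iv0 : xx F * iv F 0 = 1 := by rw [← K.e0]; exact mul_inv_F F 0
lemma iv1 : yy F * iv F 1 = 1 := by rw [← K.e1]; exact mul_inv_F F 1
lemma iv2 : (xx F + yy F) * iv F 2 = 1 := by rw [← K.e2]; exact mul_inv_F F 2
lemma iv3 : (xx F + ll F lam * yy F) * iv F 3 = 1 := by rw [← K.e3]; exact mul_inv_F F 3

lemma vfx : IsVectorField F Dx := ⟨K.hxs, _, K.hx⟩
lemma vfy : IsVectorField F Dy := ⟨K.hys, _, K.hy⟩

lemma xx_x : Dx (xx F) = 1 := by rw [xx, K.hx]; simp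
lemma xx_y : Dy (xx F) = 0 := by rw [xx, K.hy]; simp
lemma yy_x : Dx (yy F) = 0 := by rw [yy, K.hx]; simp
lemma yy_y : Dy (yy F) = 1 := by rw [yy, K.hy]; simp
lemma ll_x : Dx (ll F lam) = 0 := by rw [ll, K.hx]; simp
lemma ll_y : Dy (ll F lam) = 0 := by rw [ll, K.hy]; simp
lemma ss_x (i : Fin 4) : Dx (ss F i) = 0 := K.hxs i
lemma ss_y (i : Fin 4) : Dy (ss F i) = 0 := K.hys i

omit K in
lemma act_eq (D : Derivation ℂ (Loc F) (Loc F)) (g : Loc F) : act F D g =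
    D g + (ss F 0 * D (toLoc F (C (F 0))) * iv F 0 + ss F 1 * D (toLoc F (C (F 1))) * iv F 1
      + ss F 2 * D (toLoc F (C (F 2))) * iv F 2 + ss F 3 * D (toLoc F (C (F 3))) * iv F 3) * g := by
  rw [act, Fin.sum_univ_four]
  rfl

lemma actx (g : Loc F) : act F Dx g =
    Dx g + (ss F 0 * iv F 0 + ss F 2 * iv F 2 + ss F 3 * iv F 3) * g := by
  rw [act_eq, K.e0, K.e1, K.e2, K.e3]
  simp only [map_add, Derivation.leibniz, K.xx_x, K.yy_x, K.ll_x, smul_eq_mul]
  ring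

lemma acty (g : Loc F) : act F Dy g =
    Dy g + (ss F 1 * iv F 1 + ss F 2 * iv F 2 + ll F lam * ss F 3 * iv F 3) * g := by
  rw [act_eq, K.e0, K.e1, K.e2, K.e3]
  simp only [map_add, Derivation.leibniz, K.xx_y, K.yy_y, K.ll_y, smul_eq_mul]
  ring

lemma euler (g : Loc F) :
    xx F * act F Dx g + yy F * act F Dy g =
      xx F * Dx g + yy F * Dy g + (ss F 0 + ss F 1 + ss F 2 + ss F 3) * g := by
  rw [K.actx, K.acty]
  linear_combination (ss F 0 * g) * K.iv0 + (ss F 1 * g) * K.iv1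
    + (ss F 2 * g) * K.iv2 + (ss F 3 * g) * K.iv3

lemma vf_comb {D : Derivation ℂ (Loc F) (Loc F)} (hX : ∀ i, D (toLoc F (X i)) = 0)
    (δ : Derivation ℂ S2 S2) (hδ : ∀ h : S2, D (toLoc F (C h)) = toLoc F (C (δ h))) (g : Loc F) :
    D g = toLoc F (C (δ (X 0))) * Dx g + toLoc F (C (δ (X 1))) * Dy g := by
  have hd := (isDer_derivation D).sub (((isDer_derivation Dx).mulLeft
    (toLoc F (C (δ (X 0))))).add ((isDer_derivation Dy).mulLeft (toLoc F (C (δ (X 1))))))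
  have hval : ∀ z, (D.toLinearMap.toAddMonoidHom - (((AddMonoidHom.mulLeft
      (toLoc F (C (δ (X 0))))).comp Dx.toLinearMap.toAddMonoidHom) + ((AddMonoidHom.mulLeft
      (toLoc F (C (δ (X 1))))).comp Dy.toLinearMap.toAddMonoidHom))) z
      = D z - (toLoc F (C (δ (X 0))) * Dx z + toLoc F (C (δ (X 1))) * Dy z) := fun z => rfl
  have := der_zero F hd ?_ ?_ g
  · rw [hval] at this
    exact sub_eq_zero.mp this
  · intro h
    refine IsDer.zero_of_mv ((hd.comp_right (toLoc F)).comp_right C) ?_ ?_ h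
    · intro c
      change D (toLoc F (C (C c))) - (toLoc F (C (δ (X 0))) * Dx (toLoc F (C (C c)))
        + toLoc F (C (δ (X 1))) * Dy (toLoc F (C (C c)))) = 0
      have hc : δ (C c) = 0 := δ.map_algebraMap c
      rw [hδ, K.hx, K.hy, pderiv_C, pderiv_C, hc]
      simp only [map_zero, mul_zero, add_zero, sub_zero]
    · intro i
      change D (toLoc F (C (X i))) - (toLoc F (C (δ (X 0))) * Dx (toLoc F (C (X i)))
        + toLoc F (C (δ (X 1))) * Dy (toLoc F (C (X i)))) = 0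
      rw [hδ, K.hx, K.hy]
      fin_cases i <;> simp
  · intro i
    rw [hval, hX, K.hxs, K.hys]
    simp only [mul_zero, add_zero, sub_zero]

/-- Every vector field is a combination of the two coordinate fields. -/
lemma act_vf {D : Derivation ℂ (Loc F) (Loc F)} (hD : IsVectorField F D) :
    ∃ u v : MvPolynomial (Fin 4) S2, ∀ g, act F D g =
      toLoc F u * act F Dx g + toLoc F v * act F Dy g := by
  obtain ⟨hX, δ, hδ⟩ := hD
  refine ⟨C (δ (X 0)), C (δ (X 1)), ?_⟩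
  intro g
  rw [act_eq, act_eq, act_eq, K.vf_comb hX δ hδ g, K.vf_comb hX δ hδ (toLoc F (C (F 0))),
    K.vf_comb hX δ hδ (toLoc F (C (F 1))), K.vf_comb hX δ hδ (toLoc F (C (F 2))),
    K.vf_comb hX δ hδ (toLoc F (C (F 3)))]
  ring

lemma gen0 : toLoc F (C (∏ i, F i ^ mm 0 i)) = xx F ^ 2 := by
  rw [← K.e0, ← map_pow, ← map_pow]
  congr 2
  simp [Fin.prod_univ_four, mm]

lemma gen1 : toLoc F (C (∏ i, F i ^ mm 1 i)) = yy F ^ 2 := by
  rw [← K.e1, ← map_pow, ← map_pow]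
  congr 2
  simp [Fin.prod_univ_four, mm]

end Coord

noncomputable def sig : MvPolynomial (Fin 4) ℂ := X 0 + X 1 + X 2 + X 3

noncomputable def Lp (lam : ℂ) : MvPolynomial (Fin 4) ℂ :=
  (1 + C lam) * (X 0 + 1) + C lam * (X 2 + 1) + (X 3 + 1)

theorem mem_bs {lam : ℂ} {F : Fin 4 → S2} {Dx Dy : Derivation ℂ (Loc F) (Loc F)}
    (K : Coord lam F Dx Dy) : (sig + 1 + 1) * (sig + 1 + 1 + 1) * Lp lam ∈ bsIdeal F mm := by
  obtain ⟨N, hN⟩ : ∃ N, N = dSpan F (Set.range fun j => toLoc F (C (∏ i, F i ^ mm j i))) :=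
    ⟨_, rfl⟩
  have hx2 : xx F ^ 2 ∈ N := by rw [hN]; exact subset_dSpan _ _ ⟨0, K.gen0⟩
  have hy2 : yy F ^ 2 ∈ N := by rw [hN]; exact subset_dSpan _ _ ⟨1, K.gen1⟩
  have mul : ∀ (h : MvPolynomial (Fin 4) S2) (g : Loc F), g ∈ N → toLoc F h * g ∈ N := by
    intro h g hg
    rw [hN] at hg ⊢
    exact mul_mem_dSpan _ _ h hg
  have ax : ∀ g, g ∈ N → act F Dx g ∈ N := by
    intro g hg
    rw [hN] at hg ⊢
    exact act_mem_dSpan _ _ K.vfx hg
  have ay : ∀ g, g ∈ N → act F Dy g ∈ N := by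
    intro g hg
    rw [hN] at hg ⊢
    exact act_mem_dSpan _ _ K.vfy hg
  obtain ⟨Lm, hLm⟩ : ∃ Lm : Loc F, Lm = (1 + ll F lam) * (ss F 0 + 1) + ll F lam * (ss F 2 + 1)
    + (ss F 3 + 1) := ⟨_, rfl⟩
  obtain ⟨sg, hsg⟩ : ∃ sg : Loc F, sg = ss F 0 + ss F 1 + ss F 2 + ss F 3 := ⟨_, rfl⟩
  have hLx : Dx Lm = 0 := by
    simp only [hLm, map_add, Derivation.leibniz, K.ll_x, K.ss_x, Derivation.map_one_eq_zero,
      smul_zero, add_zero]
  have hLy : Dy Lm = 0 := by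
    simp only [hLm, map_add, Derivation.leibniz, K.ll_y, K.ss_y, Derivation.map_one_eq_zero,
      smul_zero, add_zero]
  have hsx : Dx sg = 0 := by simp only [hsg, map_add, K.ss_x, add_zero]
  have hsy : Dy sg = 0 := by simp only [hsg, map_add, K.ss_y, add_zero]
  have c1 : xx F * (xx F + yy F) * (xx F + ll F lam * yy F) ∈ N := by
    have e : xx F * (xx F + yy F) * (xx F + ll F lam * yy F)
        = toLoc F (C (X 0 + (1 + C lam) * X 1)) * xx F ^ 2
          + toLoc F (C (C lam * X 0)) * yy F ^ 2 := by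
      simp only [xx, yy, ll, map_add, map_mul, map_one]
      ring
    rw [e]
    exact N.add_mem (mul _ _ hx2) (mul _ _ hy2)
  have c2 : Lm * xx F * yy F ∈ N := by
    have e : Lm * xx F * yy F
        = act F Dx (xx F * (xx F + yy F) * (xx F + ll F lam * yy F))
          - toLoc F (1 + 1 + 1 + X 0 + X 2 + X 3) * xx F ^ 2
          - toLoc F (C (C lam) * (1 + X 0)) * yy F ^ 2 := by
      rw [K.actx]
      simp only [Derivation.leibniz, map_add, K.xx_x, K.yy_x, K.ll_x, smul_eq_mul, map_mul,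
        map_one, hLm]
      change _ = _ - (1 + 1 + 1 + ss F 0 + ss F 2 + ss F 3) * _
        - (ll F lam * (1 + ss F 0)) * _
      linear_combination
        (-(ss F 0) * (xx F + yy F) * (xx F + ll F lam * yy F)) * K.iv0
        - (ss F 2 * xx F * (xx F + ll F lam * yy F)) * K.iv2
        - (ss F 3 * xx F * (xx F + yy F)) * K.iv3
    rw [e]
    exact N.sub_mem (N.sub_mem (ax _ c1) (mul _ _ hx2)) (mul _ _ hy2)
  have hLT : Lm = toLoc F ((1 + C (C lam)) * (X 0 + 1) + C (C lam) * (X 2 + 1)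
      + (X 3 + 1)) := by
    simp only [hLm, map_add, map_mul, map_one, ll, ss]
  have eul : ∀ g, act F Dx (xx F * g) + act F Dy (yy F * g)
      = xx F * Dx g + yy F * Dy g + (sg + 1 + 1) * g := by
    intro g
    rw [act_mul, act_mul, K.xx_x, K.yy_y, hsg]
    linear_combination K.euler g
  have lx2 : Lm * xx F ^ 2 ∈ N := by rw [hLT]; exact mul _ _ hx2
  have ly2 : Lm * yy F ^ 2 ∈ N := by rw [hLT]; exact mul _ _ hy2
  have c3 : xx F * ((sg + 1 + 1 + 1) * Lm) ∈ N := by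
    have e : xx F * ((sg + 1 + 1 + 1) * Lm) = act F Dx (xx F * (Lm * xx F))
        + act F Dy (yy F * (Lm * xx F)) := by
      rw [eul]
      simp only [Derivation.leibniz, K.xx_x, K.xx_y, hLx, hLy, smul_eq_mul]
      ring
    rw [e]
    refine N.add_mem (ax _ ?_) (ay _ ?_)
    · rw [show xx F * (Lm * xx F) = Lm * xx F ^ 2 by ring]; exact lx2
    · rw [show yy F * (Lm * xx F) = Lm * xx F * yy F by ring]; exact c2
  have c4 : yy F * ((sg + 1 + 1 + 1) * Lm) ∈ N := by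
    have e : yy F * ((sg + 1 + 1 + 1) * Lm) = act F Dx (xx F * (Lm * yy F))
        + act F Dy (yy F * (Lm * yy F)) := by
      rw [eul]
      simp only [Derivation.leibniz, K.yy_x, K.yy_y, hLx, hLy, smul_eq_mul]
      ring
    rw [e]
    refine N.add_mem (ax _ ?_) (ay _ ?_)
    · rw [show xx F * (Lm * yy F) = Lm * xx F * yy F by ring]; exact c2
    · rw [show yy F * (Lm * yy F) = Lm * yy F ^ 2 by ring]; exact ly2
  have c5 : (sg + 1 + 1) * (sg + 1 + 1 + 1) * Lm ∈ N := by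
    have e : (sg + 1 + 1) * (sg + 1 + 1 + 1) * Lm = act F Dx (xx F * ((sg + 1 + 1 + 1) * Lm))
        + act F Dy (yy F * ((sg + 1 + 1 + 1) * Lm)) := by
      rw [eul]
      simp only [Derivation.leibniz, map_add, hsx, hsy, Derivation.map_one_eq_zero, hLx, hLy,
        smul_eq_mul]
      ring
    rw [e]
    exact N.add_mem (ax _ c3) (ay _ c4)
  change toLoc F (map (algebraMap ℂ S2) ((sig + 1 + 1) * (sig + 1 + 1 + 1) * Lp lam)) ∈
    dSpan F (Set.range fun j => toLoc F (C (∏ i, F i ^ mm j i)))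
  rw [← hN]
  have e : toLoc F (map (algebraMap ℂ S2) ((sig + 1 + 1) * (sig + 1 + 1 + 1) * Lp lam))
      = (sg + 1 + 1) * (sg + 1 + 1 + 1) * Lm := by
    simp only [sig, Lp, hLm, hsg, ss, ll, map_add, map_mul, map_one, map_X, map_C,
      MvPolynomial.algebraMap_eq]
  rw [e]
  exact c5

end Pool.Agent.H869Z.BS
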