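import Mathlib

/-! The one-variable obstruction: a twisted de Rham class on the line minus three points. -/

namespace Pool.Agent.H869Z.Obs

open Polynomial

noncomputable def pp (lam : ℂ) : ℂ[X] := X * (X + 1) * (X + C lam)
noncomputable def q0 (lam : ℂ) : ℂ[X] := (X + 1) * (X + C lam)
noncomputable def q2 (lam : ℂ) : ℂ[X] := X * (X + C lam)
noncomputable def q3 : ℂ[X] := X * (X + 1)

lemma pp_ne (lam : ℂ) : pp lam ≠ 0 := by
  unfold pp
  refine mul_ne_zero (mul_ne_zero X_ne_zero ?_) ?_
  · simpa using X_add_C_ne_zero (1 : ℂ)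
  · exact X_add_C_ne_zero lam

lemma der_pp (lam : ℂ) : derivative (pp lam) = q0 lam + q2 lam + q3 := by
  simp [pp, q0, q2, q3]
  ring

lemma base (lam b0 b2 b3 c α β : ℂ) (hsum : ∀ e : ℕ, (e : ℂ) + 1 + (b0 + b2 + b3) ≠ 0)
    (hL : (1 + lam) * b0 + lam * b2 + b3 = 0) (A : ℂ[X])
    (h : pp lam * derivative A + (C b0 * q0 lam + C b2 * q2 lam + C b3 * q3) * A
      = C c * X + C α + C β * X ^ 2) : c = 0 := by
  have e1 : pp lam * derivative A + (C b0 * q0 lam + C b2 * q2 lam + C b3 * q3) * A
      = X ^ 3 * derivative A + C (1 + lam) * (X ^ 2 * derivative A)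
        + C lam * (X ^ 1 * derivative A) + C (b0 + b2 + b3) * (X ^ 2 * A)
        + C ((1 + lam) * b0 + lam * b2 + b3) * (X ^ 1 * A) + C (lam * b0) * A := by
    simp only [pp, q0, q2, q3, map_add, map_mul, map_one]
    ring
  rw [e1, hL] at h
  rcases Nat.eq_zero_or_pos A.natDegree with hd | hd
  · rw [eq_C_of_natDegree_eq_zero hd] at h
    have := congrArg (fun P => P.coeff 1) h
    simp only [coeff_add, coeff_C_mul, derivative_C, mul_zero, coeff_zero, map_zero, zero_mul,
      coeff_mul_C, coeff_X_pow, coeff_X, coeff_C] at this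
    simpa using this.symm
  · obtain ⟨k, hk⟩ : ∃ k, A.natDegree = k + 1 := ⟨A.natDegree - 1, by omega⟩
    have hA : A ≠ 0 := by
      rintro rfl
      simp at hd
    have hlc : A.coeff (k + 1) ≠ 0 := by
      rw [← hk]
      exact leadingCoeff_ne_zero.mpr hA
    have z2 : A.coeff (k + 2) = 0 := coeff_eq_zero_of_natDegree_lt (by omega)
    have z3 : A.coeff (k + 3) = 0 := coeff_eq_zero_of_natDegree_lt (by omega)
    have c1 : (X ^ 3 * derivative A).coeff (k + 3) = A.coeff (k + 1) * ((k : ℂ) + 1) := by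
      rw [coeff_X_pow_mul, coeff_derivative]
    have c2 : (X ^ 2 * derivative A).coeff (k + 3) = 0 := by
      rw [show k + 3 = (k + 1) + 2 by ring, coeff_X_pow_mul, coeff_derivative, z2, zero_mul]
    have c3 : (X ^ 1 * derivative A).coeff (k + 3) = 0 := by
      rw [show k + 3 = (k + 2) + 1 by ring, coeff_X_pow_mul, coeff_derivative, z3, zero_mul]
    have c4 : (X ^ 2 * A).coeff (k + 3) = A.coeff (k + 1) := by
      rw [show k + 3 = (k + 1) + 2 by ring, coeff_X_pow_mul]
    have := congrArg (fun P => P.coeff (k + 3)) h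
    simp only [coeff_add, coeff_C_mul, c1, c2, c3, c4, z3, map_zero, zero_mul, coeff_zero] at this
    have r1 : (X : ℂ[X]).coeff (k + 3) = 0 := by
      rw [coeff_X]; simp
    have r2 : (C α : ℂ[X]).coeff (k + 3) = 0 := by
      rw [coeff_C]; simp
    have r3 : (X ^ 2 : ℂ[X]).coeff (k + 3) = 0 := by
      rw [coeff_X_pow]; simp
    rw [r1, r2, r3] at this
    exfalso
    apply mul_ne_zero hlc (hsum k)
    linear_combination this

lemma obs (lam a0 a2 a3 c α β : ℂ) (hl0 : lam ≠ 0) (hl1 : lam ≠ 1)
    (h0 : ∀ n : ℕ, a0 ≠ n) (h2 : ∀ n : ℕ, a2 ≠ n) (h3 : ∀ n : ℕ, a3 ≠ n)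
    (hsum : ∀ e : ℕ, (e : ℂ) + 4 + (a0 + a2 + a3) ≠ 0)
    (hL : (1 + lam) * (a0 + 1) + lam * (a2 + 1) + (a3 + 1) = 0) (N : ℕ) :
    ∀ A : ℂ[X], pp lam * derivative A
        + (C (a0 + 1 - N) * q0 lam + C (a2 + 1 - N) * q2 lam + C (a3 + 1 - N) * q3) * A
      = (C c * X + C α + C β * X ^ 2) * pp lam ^ N → c = 0 := by
  induction N with
  | zero =>
    intro A h
    refine base lam (a0 + 1) (a2 + 1) (a3 + 1) c α β ?_ hL A ?_
    · intro e he
      apply hsum e
      linear_combination he
    · simpa using h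
  | succ N ih =>
    intro A h
    have r0 : A.eval 0 = 0 := by
      have := congrArg (eval 0) h
      simp [pp, q0, q2, q3] at this
      rcases this with (h' | h') | h'
      · exact absurd (by linear_combination h') (h0 N)
      · exact absurd h' hl0
      · exact h'
    have r1 : A.eval (-1) = 0 := by
      have := congrArg (eval (-1)) h
      simp [pp, q0, q2, q3] at this
      rcases this with (h' | h') | h'
      · exact absurd (by linear_combination h') (h2 N)
      · exact absurd (by linear_combination (-1 : ℂ) * h') hl1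
      · exact h'
    have r2 : A.eval (-lam) = 0 := by
      have := congrArg (eval (-lam)) h
      simp [pp, q0, q2, q3] at this
      rcases this with (h' | h' | h') | h'
      · exact absurd (by linear_combination h') (h3 N)
      · exact absurd h' hl0
      · exact absurd (by linear_combination (-1 : ℂ) * h') hl1
      · exact h'
    obtain ⟨A1, rfl⟩ : X ∣ A := by
      rw [X_dvd_iff, coeff_zero_eq_eval_zero]; exact r0
    have s1 : A1.eval (-1) = 0 := by simpa using r1
    obtain ⟨A2, rfl⟩ : (X - C (-1)) ∣ A1 := dvd_iff_isRoot.mpr s1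
    have s2 : A2.eval (-lam) = 0 := by
      simp at r2
      rcases r2 with h' | h' | h'
      · exact absurd h' hl0
      · exact absurd (by linear_combination (-1 : ℂ) * h') hl1
      · exact h'
    obtain ⟨A3, rfl⟩ : (X - C (-lam)) ∣ A2 := dvd_iff_isRoot.mpr s2
    apply ih A3
    apply mul_left_cancel₀ (pp_ne lam)
    have e : X * ((X - C (-1)) * ((X - C (-lam)) * A3)) = pp lam * A3 := by
      simp only [pp, map_neg, map_one]
      ring
    rw [e, derivative_mul, der_pp] at h
    simp only [Nat.cast_add, Nat.cast_one, map_sub, map_add, map_one, map_natCast] at h ⊢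
    linear_combination h

end Pool.Agent.H869Z.Obs
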