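import Pool.Agent.H869Z.BSMem
import Pool.Agent.H869Z.Obs

/-! Four lines in the plane: every element of the Bernstein-Sato ideal vanishes on a plane. -/

namespace Pool.Agent.H869Z.BS

open Pool.Agent.H869Z.Der Pool.Agent.H869Z.Obs LaurentPolynomial

/-- Abstract data of the ring of functions on the line minus three points. -/
structure Line (lam : ℂ) (R : Type) [CommRing R] (k : ℂ →+* R) (t u0 u2 u3 : R) (d : R →+ R) :
    Prop where
  der : IsDer (RingHom.id R) d
  dk : ∀ c, d (k c) = 0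
  dt : d t = 1
  h0 : t * u0 = 1
  h2 : (t + 1) * u2 = 1
  h3 : (t + k lam) * u3 = 1
  obs : ∀ (a0 a2 a3 c α β : ℂ), (∀ n : ℕ, a0 ≠ n) → (∀ n : ℕ, a2 ≠ n) → (∀ n : ℕ, a3 ≠ n) →
    (∀ e : ℕ, (e : ℂ) + 4 + (a0 + a2 + a3) ≠ 0) →
    (1 + lam) * (a0 + 1) + lam * (a2 + 1) + (a3 + 1) = 0 →
    ∀ h : R, d h + (k a0 * u0 + k a2 * u2 + k a3 * u3) * h = k c * t + k α + k β * t ^ 2 → c = 0

lemma exists_line (lam : ℂ) (hl0 : lam ≠ 0) (hl1 : lam ≠ 1) (R : Type) [CommRing R]
    [Algebra (Polynomial ℂ) R] [IsLocalization.Away (pp lam) R] :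
    ∃ (k : ℂ →+* R) (t u0 u2 u3 : R) (d : R →+ R), Line lam R k t u0 u2 u3 d := by
  let ι : Polynomial ℂ →+* R := algebraMap _ _
  have hinj : Function.Injective ι :=
    IsLocalization.injective R (powers_le_nonZeroDivisors_of_noZeroDivisors (pp_ne lam))
  let d0 : Polynomial ℂ →+ R := ι.toAddMonoidHom.comp Polynomial.derivative.toAddMonoidHom
  have hd0 : IsDer ((RingHom.id R).comp ι) d0 := by
    intro a b
    simp [d0]
    ring
  obtain ⟨d, hd, hde⟩ := exists_loc (L := R) (Submonoid.powers (pp lam)) (RingHom.id R) d0 hd0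
  have hde' : ∀ x, d (ι x) = ι (Polynomial.derivative x) := hde
  obtain ⟨w, hw⟩ : ∃ w : R, ι (pp lam) * w = 1 :=
    (IsLocalization.Away.algebraMap_isUnit (S := R) (pp lam)).exists_right_inv
  have hp : ι (pp lam) = ι Polynomial.X * (ι Polynomial.X + 1)
      * (ι Polynomial.X + ι (Polynomial.C lam)) := by simp [pp]
  have hq0 : ι (q0 lam) = (ι Polynomial.X + 1) * (ι Polynomial.X + ι (Polynomial.C lam)) := by
    simp [q0]
  have hq2 : ι (q2 lam) = ι Polynomial.X * (ι Polynomial.X + ι (Polynomial.C lam)) := by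
    simp [q2]
  have hq3 : ι q3 = ι Polynomial.X * (ι Polynomial.X + 1) := by simp [q3]
  refine ⟨ι.comp Polynomial.C, ι Polynomial.X, ι (q0 lam) * w, ι (q2 lam) * w,
    ι q3 * w, d, hd, ?_, ?_, ?_, ?_, ?_, ?_⟩
  · intro c
    simp [hde']
  · simp [hde']
  · rw [hq0]; rw [hp] at hw; linear_combination hw
  · rw [hq2]; rw [hp] at hw; linear_combination hw
  · rw [hq3]; rw [hp] at hw; simp only [RingHom.comp_apply]; linear_combination hw
  · intro a0 a2 a3 c α β h0 h2 h3 hsum hL h heq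
    obtain ⟨N, A, hA⟩ := IsLocalization.Away.surj (S := R) (pp lam) h
    change h * ι (pp lam) ^ N = ι A at hA
    have hpow : ∀ n : ℕ, ι (pp lam) * d (ι (pp lam) ^ n)
        = n * ι (Polynomial.derivative (pp lam)) * ι (pp lam) ^ n := by
      intro n
      induction n with
      | zero => simp [hd.one]
      | succ n ih =>
        rw [pow_succ, hd, hde']
        simp only [RingHom.id_apply]
        push_cast
        linear_combination (ι (pp lam)) * ih
    have h1 : ι (Polynomial.derivative A) = h * d (ι (pp lam) ^ N) + ι (pp lam) ^ N * d h := by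
      rw [← hde', ← hA, hd]
      rfl
    refine obs lam a0 a2 a3 c α β hl0 hl1 h0 h2 h3 hsum hL (N + 1) A (hinj ?_)
    simp only [RingHom.comp_apply] at heq
    have h2' := hpow N
    rw [der_pp] at h2'
    simp only [map_add, map_mul, map_sub, map_pow, map_one, Nat.cast_add, Nat.cast_one,
      map_natCast, h1, ← hA] at h2' ⊢
    linear_combination (ι (pp lam) ^ (N + 1)) * heq + h * h2'
      - (ι (Polynomial.C a0) * ι (q0 lam) + ι (Polynomial.C a2) * ι (q2 lam)
        + ι (Polynomial.C a3) * ι q3) * h * ι (pp lam) ^ N * hw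

open MvPolynomial in
lemma exists_phi {lam : ℂ} {F : Fin 4 → S2} {Dx Dy : Derivation ℂ (Loc F) (Loc F)}
    (K : Coord lam F Dx Dy) {R : Type} [CommRing R] {k : ℂ →+* R} {t u0 u2 u3 : R} {d : R →+ R}
    (H : Line lam R k t u0 u2 u3 d) (a : Fin 4 → ℂ) :
    ∃ Φ : Loc F →+* R[T;T⁻¹],
      (∀ c : ℂ, Φ (toLoc F (C (C c))) = LaurentPolynomial.C (k c)) ∧
      Φ (xx F) = LaurentPolynomial.C t * T 1 ∧ Φ (yy F) = T 1 ∧
      ∀ i, Φ (ss F i) = LaurentPolynomial.C (k (a i)) := by
  let φS : S2 →+* R[T;T⁻¹] := eval₂Hom ((LaurentPolynomial.C).comp k)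
    ![LaurentPolynomial.C t * T 1, T 1]
  let φT : MvPolynomial (Fin 4) S2 →+* R[T;T⁻¹] :=
    eval₂Hom φS (fun i => LaurentPolynomial.C (k (a i)))
  have uT : IsUnit (T 1 : R[T;T⁻¹]) := isUnit_T 1
  have hu : IsUnit (φT (C (∏ i, F i))) := by
    have e : φT (C (∏ i, F i)) = (LaurentPolynomial.C t * T 1) * T 1
        * (LaurentPolynomial.C (t + 1) * T 1) * (LaurentPolynomial.C (t + k lam) * T 1) := by
      rw [Fin.prod_univ_four, K.f0, K.f1, K.f2, K.f3]
      simp [φT, φS]
      ring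
    rw [e]
    refine IsUnit.mul (IsUnit.mul (IsUnit.mul (IsUnit.mul ?_ uT) uT) (IsUnit.mul ?_ uT))
      (IsUnit.mul ?_ uT)
    · exact (IsUnit.of_mul_eq_one _ H.h0).map _
    · exact (IsUnit.of_mul_eq_one _ H.h2).map _
    · exact (IsUnit.of_mul_eq_one _ H.h3).map _
  let Φ : Loc F →+* R[T;T⁻¹] := IsLocalization.Away.lift (MvPolynomial.C (∏ i, F i)) hu
  have hΦ : ∀ x, Φ (toLoc F x) = φT x := fun x => IsLocalization.Away.lift_eq _ hu x
  refine ⟨Φ, ?_, ?_, ?_, ?_⟩
  · intro c; rw [hΦ]; simp [φT, φS]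
  · rw [xx, hΦ]; simp [φT, φS]
  · rw [yy, hΦ]; simp [φT, φS]
  · intro i; rw [ss, hΦ]; simp [φT]

lemma coeff_C_mul' {R : Type} [CommRing R] (a : R) (x : R[T;T⁻¹]) (n : ℤ) :
    (LaurentPolynomial.C a * x).coeff n = a * x.coeff n := coeff_C_mul a x n

open MvPolynomial in
theorem eval_eq_zero {lam : ℂ} {F : Fin 4 → S2} {Dx Dy : Derivation ℂ (Loc F) (Loc F)}
    (K : Coord lam F Dx Dy) (hl0 : lam ≠ 0) (hl1 : lam ≠ 1) (a : Fin 4 → ℂ)
    (h0 : ∀ n : ℕ, a 0 ≠ n) (h1 : ∀ n : ℕ, a 1 ≠ n) (h2 : ∀ n : ℕ, a 2 ≠ n)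
    (h3 : ∀ n : ℕ, a 3 ≠ n) (hs : a 0 + a 1 + a 2 + a 3 = -4)
    (hL : (1 + lam) * (a 0 + 1) + lam * (a 2 + 1) + (a 3 + 1) = 0)
    (b : MvPolynomial (Fin 4) ℂ) (hb : b ∈ bsIdeal F mm) : eval a b = 0 := by
  obtain ⟨R, _, k, t, u0, u2, u3, d, H⟩ : ∃ (R : Type) (_ : CommRing R) (k : ℂ →+* R)
      (t u0 u2 u3 : R) (d : R →+ R), Line lam R k t u0 u2 u3 d :=
    ⟨Localization.Away (pp lam), inferInstance, exists_line lam hl0 hl1 _⟩
  obtain ⟨Φ, Φc, Φx, Φy, Φs⟩ := exists_phi K H a
  have Φl : Φ (ll F lam) = LaurentPolynomial.C (k lam) := Φc lam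
  let Dt : R[T;T⁻¹] →+ R[T;T⁻¹] := dia (fun _ => d)
  let Er : R[T;T⁻¹] →+ R[T;T⁻¹] := dia (fun n => AddMonoidHom.mulLeft (n : R))
  have hDt : IsDer (RingHom.id _) Dt := isDer_dia _ (fun m n a b => H.der a b)
  have hEr : IsDer (RingHom.id _) Er := isDer_dia _ (fun m n a b => by
    simp only [AddMonoidHom.coe_mulLeft, Int.cast_add]; ring)
  have DtC : ∀ c, Dt (LaurentPolynomial.C c) = LaurentPolynomial.C (d c) := fun c =>
    dia_single _ 0 c
  have ErC : ∀ c, Er (LaurentPolynomial.C c) = 0 := fun c => by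
    have := dia_single (fun n => AddMonoidHom.mulLeft (n : R)) 0 c
    simpa using this
  have DtT : Dt (T 1) = 0 := by
    have := dia_single (fun _ => d) 1 1
    rw [H.der.one] at this
    simpa using this
  have ErT : Er (T 1) = T 1 := by
    have := dia_single (fun n => AddMonoidHom.mulLeft (n : R)) 1 1
    simpa using this
  have i1 : ∀ g, T 1 * Φ (Dx g) = Dt (Φ g) := by
    intro g
    have hd := (((isDer_derivation Dx).comp_left Φ).mulLeft (T 1)).sub (hDt.comp_right Φ)
    have := der_zero F hd ?_ ?_ g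
    · exact sub_eq_zero.mp this
    · intro h
      refine IsDer.zero_of_mv ((hd.comp_right (toLoc F)).comp_right MvPolynomial.C) ?_ ?_ h
      · intro c
        change T 1 * Φ (Dx (ll F c)) - Dt (Φ (toLoc F (MvPolynomial.C (MvPolynomial.C c)))) = 0
        rw [ll, K.hx, pderiv_C, Φc, DtC, H.dk]
        simp only [map_zero, mul_zero, sub_zero]
      · intro i
        fin_cases i
        · change T 1 * Φ (Dx (xx F)) - Dt (Φ (xx F)) = 0
          rw [K.xx_x, Φx, hDt, DtT, DtC, H.dt]
          simp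
        · change T 1 * Φ (Dx (yy F)) - Dt (Φ (yy F)) = 0
          rw [K.yy_x, Φy, DtT]
          simp
    · intro i
      change T 1 * Φ (Dx (ss F i)) - Dt (Φ (ss F i)) = 0
      rw [K.ss_x, Φs, DtC, H.dk]
      simp
  have i2 : ∀ g, Φ (xx F * Dx g + yy F * Dy g) = Er (Φ g) := by
    intro g
    have hd := ((((isDer_derivation Dx).mulLeft (xx F)).add
      ((isDer_derivation Dy).mulLeft (yy F))).comp_left Φ).sub (hEr.comp_right Φ)
    have := der_zero F hd ?_ ?_ g
    · exact sub_eq_zero.mp this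
    · intro h
      refine IsDer.zero_of_mv ((hd.comp_right (toLoc F)).comp_right MvPolynomial.C) ?_ ?_ h
      · intro c
        change Φ (xx F * Dx (ll F c) + yy F * Dy (ll F c))
          - Er (Φ (toLoc F (MvPolynomial.C (MvPolynomial.C c)))) = 0
        rw [ll, K.hx, K.hy, pderiv_C, pderiv_C, Φc, ErC]
        simp only [map_zero, mul_zero, sub_zero, add_zero]
      · intro i
        fin_cases i
        · change Φ (xx F * Dx (xx F) + yy F * Dy (xx F)) - Er (Φ (xx F)) = 0
          rw [K.xx_x, K.xx_y, mul_one, mul_zero, add_zero, Φx, hEr, ErT, ErC]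
          simp
        · change Φ (xx F * Dx (yy F) + yy F * Dy (yy F)) - Er (Φ (yy F)) = 0
          rw [K.yy_x, K.yy_y, mul_one, mul_zero, zero_add, Φy, ErT]
          simp
    · intro i
      change Φ (xx F * Dx (ss F i) + yy F * Dy (ss F i)) - Er (Φ (ss F i)) = 0
      rw [K.ss_x, K.ss_y, Φs, ErC]
      simp
  have j0 : T 1 * Φ (iv F 0) = LaurentPolynomial.C u0 := by
    have e1 := congrArg Φ K.iv0
    have e2 := congrArg LaurentPolynomial.C H.h0
    rw [map_mul, map_one] at e1 e2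
    rw [Φx] at e1
    linear_combination (LaurentPolynomial.C u0) * e1 - (T 1 * Φ (iv F 0)) * e2
  have j2 : T 1 * Φ (iv F 2) = LaurentPolynomial.C u2 := by
    have e1 := congrArg Φ K.iv2
    have e2 := congrArg LaurentPolynomial.C H.h2
    rw [map_mul, map_add, map_one] at e1 e2
    rw [Φx, Φy] at e1
    linear_combination (LaurentPolynomial.C u2) * e1 - (T 1 * Φ (iv F 2)) * e2
  have j3 : T 1 * Φ (iv F 3) = LaurentPolynomial.C u3 := by
    have e1 := congrArg Φ K.iv3
    have e2 := congrArg LaurentPolynomial.C H.h3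
    rw [map_mul, map_add, map_one] at e1 e2
    rw [map_mul, Φx, Φy, Φl] at e1
    linear_combination (LaurentPolynomial.C u3) * e1 - (T 1 * Φ (iv F 3)) * e2
  obtain ⟨om, hom⟩ : ∃ om : R, om = k (a 0) * u0 + k (a 2) * u2 + k (a 3) * u3 := ⟨_, rfl⟩
  have ax : ∀ g, Φ (act F Dx g) * T 1 = Dt (Φ g) + LaurentPolynomial.C om * Φ g := by
    intro g
    rw [K.actx, ← i1, hom]
    simp only [map_add, map_mul, Φs]
    rw [← j0, ← j2, ← j3]
    ring
  have ay : ∀ g, Φ (act F Dy g) * T 1 = Er (Φ g) + LaurentPolynomial.C (-4) * Φ g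
      - LaurentPolynomial.C t * (Φ (act F Dx g) * T 1) := by
    intro g
    have e1 := congrArg Φ (K.euler g)
    rw [map_add (f := Φ) (xx F * Dx g + yy F * Dy g), i2] at e1
    simp only [map_add, map_mul, Φs, Φx, Φy] at e1
    have e2 : LaurentPolynomial.C (k (a 0)) + LaurentPolynomial.C (k (a 1))
        + LaurentPolynomial.C (k (a 2)) + LaurentPolynomial.C (k (a 3))
        = (LaurentPolynomial.C (-4) : R[T;T⁻¹]) := by
      rw [← map_add, ← map_add, ← map_add, ← map_add, ← map_add, ← map_add, hs]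
      simp [map_ofNat]
    rw [e2] at e1
    linear_combination e1
  have cx : ∀ g, (Φ (act F Dx g)).coeff 2 = d ((Φ g).coeff 3) + om * (Φ g).coeff 3 := by
    intro g
    rw [← coeff_mul_T _ 1 2, ax, AddMonoidAlgebra.coeff_add, Finsupp.add_apply, coeff_C_mul']
    rfl
  have cy : ∀ g, (Φ (act F Dy g)).coeff 2
      = d (-(t * (Φ g).coeff 3)) + om * (-(t * (Φ g).coeff 3)) := by
    intro g
    rw [← coeff_mul_T _ 1 2, ay, AddMonoidAlgebra.coeff_sub, Finsupp.sub_apply,
      AddMonoidAlgebra.coeff_add, Finsupp.add_apply, coeff_C_mul', coeff_C_mul',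
      coeff_mul_T _ 1 2, cx, map_neg, H.der, H.dt]
    change ((3 : ℤ) : R) * (Φ g).coeff 3 + _ * (Φ g).coeff 3 - _ = _
    simp only [RingHom.id_apply]
    push_cast
    ring
  let W : AddSubgroup R :=
    { carrier := {z | ∃ (h : R) (α β : ℂ), z = d h + om * h + k α + k β * t ^ 2}
      zero_mem' := ⟨0, 0, 0, by simp⟩
      add_mem' := by
        rintro _ _ ⟨h, α, β, rfl⟩ ⟨h', α', β', rfl⟩
        exact ⟨h + h', α + α', β + β', by simp only [map_add]; ring⟩
      neg_mem' := by
        rintro _ ⟨h, α, β, rfl⟩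
        exact ⟨-h, -α, -β, by simp only [map_neg]; ring⟩ }
  have hW : ∀ h, d h + om * h ∈ W := fun h => ⟨h, 0, 0, by simp⟩
  let N : Submodule (MvPolynomial (Fin 4) S2) (Loc F) :=
    { carrier := {g | ∀ h, (Φ (toLoc F h * g)).coeff 2 ∈ W}
      zero_mem' := by intro h; simp
      add_mem' := by
        intro g g' hg hg' h
        rw [mul_add, map_add, AddMonoidAlgebra.coeff_add, Finsupp.add_apply]
        exact W.add_mem (hg h) (hg' h)
      smul_mem' := by
        intro c g hg h
        have := hg (h * c)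
        rw [map_mul (toLoc F), mul_assoc] at this
        rw [Algebra.smul_def]
        exact this }
  have poly : ∀ h : MvPolynomial (Fin 4) S2, ∃ (κ : ℂ) (P : Polynomial R),
      Φ (toLoc F h) = LaurentPolynomial.C (k κ) + Polynomial.toLaurent P * T 1 := by
    have cl_add : ∀ u v : R[T;T⁻¹], (∃ (κ : ℂ) (P : Polynomial R),
        u = LaurentPolynomial.C (k κ) + Polynomial.toLaurent P * T 1) →
        (∃ (κ : ℂ) (P : Polynomial R),
        v = LaurentPolynomial.C (k κ) + Polynomial.toLaurent P * T 1) →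
        ∃ (κ : ℂ) (P : Polynomial R),
        u + v = LaurentPolynomial.C (k κ) + Polynomial.toLaurent P * T 1 := by
      rintro _ _ ⟨κ, P, rfl⟩ ⟨κ', P', rfl⟩
      exact ⟨κ + κ', P + P', by simp only [map_add]; ring⟩
    have cl_mul : ∀ u v : R[T;T⁻¹], (∃ (κ : ℂ) (P : Polynomial R),
        u = LaurentPolynomial.C (k κ) + Polynomial.toLaurent P * T 1) →
        (∃ (κ : ℂ) (P : Polynomial R),
        v = LaurentPolynomial.C (k κ) + Polynomial.toLaurent P * T 1) →
        ∃ (κ : ℂ) (P : Polynomial R),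
        u * v = LaurentPolynomial.C (k κ) + Polynomial.toLaurent P * T 1 := by
      rintro _ _ ⟨κ, P, rfl⟩ ⟨κ', P', rfl⟩
      refine ⟨κ * κ', Polynomial.C (k κ) * P' + Polynomial.C (k κ') * P
        + P * P' * Polynomial.X, ?_⟩
      simp only [map_add, map_mul, Polynomial.toLaurent_C, Polynomial.toLaurent_X]
      ring
    have hS : ∀ h : S2, ∃ (κ : ℂ) (P : Polynomial R), Φ (toLoc F (MvPolynomial.C h))
        = LaurentPolynomial.C (k κ) + Polynomial.toLaurent P * T 1 := by
      intro h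
      induction h using MvPolynomial.induction_on with
      | C c => exact ⟨c, 0, by rw [Φc]; simp⟩
      | add p q hp hq => rw [map_add, map_add, map_add]; exact cl_add _ _ hp hq
      | mul_X p i hp =>
        rw [map_mul, map_mul, map_mul]
        refine cl_mul _ _ hp ?_
        fin_cases i
        · exact ⟨0, Polynomial.C t, by
            change Φ (xx F) = _
            rw [Φx]; simp⟩
        · exact ⟨0, 1, by
            change Φ (yy F) = _
            rw [Φy]; simp⟩
    intro h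
    induction h using MvPolynomial.induction_on with
    | C c => exact hS c
    | add p q hp hq => rw [map_add, map_add]; exact cl_add _ _ hp hq
    | mul_X p i hp =>
      rw [map_mul, map_mul]
      refine cl_mul _ _ hp ⟨a i, 0, ?_⟩
      change Φ (ss F i) = _
      rw [Φs]; simp
  have c0 : ∀ h : MvPolynomial (Fin 4) S2, ∃ κ : ℂ, (Φ (toLoc F h)).coeff 0 = k κ := by
    intro h
    obtain ⟨κ, P, e⟩ := poly h
    refine ⟨κ, ?_⟩
    rw [e, AddMonoidAlgebra.coeff_add, Finsupp.add_apply, LaurentPolynomial.C_apply,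
      show (0 : ℤ) = -1 + 1 by norm_num, coeff_mul_T, LaurentPolynomial.coeff_toLaurent,
      Finsupp.mapDomain_of_notMem_range]
    · simp
    · rintro ⟨n, hn⟩
      simp at hn
  have TT : (T 1 : R[T;T⁻¹]) * T 1 = T 2 := by rw [← T_add]; rfl
  have hle : dSpan F (Set.range fun j => toLoc F (MvPolynomial.C (∏ i, F i ^ mm j i))) ≤ N := by
    apply dSpan_le
    · rintro _ ⟨j, rfl⟩ h
      obtain ⟨κ, hκ⟩ := c0 h
      fin_cases j
      · change (Φ (toLoc F h * toLoc F (MvPolynomial.C (∏ i, F i ^ mm 0 i)))).coeff 2 ∈ W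
        rw [K.gen0, map_mul, map_pow, Φx, show Φ (toLoc F h) * (LaurentPolynomial.C t * T 1) ^ 2
          = LaurentPolynomial.C (t ^ 2) * (Φ (toLoc F h) * (T 1 * T 1)) by rw [map_pow]; ring,
          TT, coeff_C_mul']
        have := coeff_mul_T (Φ (toLoc F h)) 2 0
        rw [zero_add] at this
        rw [this, hκ]
        exact ⟨0, 0, κ, by simp [mul_comm]⟩
      · change (Φ (toLoc F h * toLoc F (MvPolynomial.C (∏ i, F i ^ mm 1 i)))).coeff 2 ∈ W
        rw [K.gen1, map_mul, map_pow, Φy, pow_two, TT]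
        have := coeff_mul_T (Φ (toLoc F h)) 2 0
        rw [zero_add] at this
        rw [this, hκ]
        exact ⟨0, κ, 0, by simp⟩
    · intro D hD g hg
      obtain ⟨u, v, huv⟩ := K.act_vf hD
      have mx : act F Dx g ∈ N := by
        intro h
        obtain ⟨h', hh'⟩ := vf_toLoc F K.vfx h
        have e : toLoc F h * act F Dx g = act F Dx (toLoc F h * g) - toLoc F h' * g := by
          rw [act_mul, hh']; ring
        rw [e, map_sub, AddMonoidAlgebra.coeff_sub, Finsupp.sub_apply, cx]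
        exact W.sub_mem (hW _) (hg h')
      have my : act F Dy g ∈ N := by
        intro h
        obtain ⟨h', hh'⟩ := vf_toLoc F K.vfy h
        have e : toLoc F h * act F Dy g = act F Dy (toLoc F h * g) - toLoc F h' * g := by
          rw [act_mul, hh']; ring
        rw [e, map_sub, AddMonoidAlgebra.coeff_sub, Finsupp.sub_apply, cy]
        exact W.sub_mem (hW _) (hg h')
      rw [huv]
      refine N.add_mem ?_ ?_
      · have := N.smul_mem u mx
        rwa [Algebra.smul_def] at this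
      · have := N.smul_mem v my
        rwa [Algebra.smul_def] at this
  have hbN : toLoc F (map (algebraMap ℂ S2) b) ∈ N := hle hb
  have hev : Φ (toLoc F (map (algebraMap ℂ S2) b)) = LaurentPolynomial.C (k (eval a b)) := by
    have : (Φ.comp (toLoc F)).comp (map (algebraMap ℂ S2))
        = ((LaurentPolynomial.C).comp k).comp (eval a) := by
      apply MvPolynomial.ringHom_ext
      · intro c
        simp only [RingHom.comp_apply, map_C, eval_C, MvPolynomial.algebraMap_eq, Φc]
      · intro i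
        simp only [RingHom.comp_apply, map_X, eval_X]
        exact Φs i
    exact congrArg (fun f : MvPolynomial (Fin 4) ℂ →+* R[T;T⁻¹] => f b) this
  have hfin := hbN (MvPolynomial.C (X 0 * X 1))
  rw [map_mul Φ, hev, map_mul, map_mul, map_mul] at hfin
  change ((Φ (xx F) * Φ (yy F)) * _).coeff 2 ∈ W at hfin
  rw [Φx, Φy, show LaurentPolynomial.C t * T 1 * T 1 * LaurentPolynomial.C (k (eval a b))
    = LaurentPolynomial.C (k (eval a b) * t) * (T 1 * T 1) by rw [map_mul]; ring, TT,
    coeff_C_mul', T_apply, if_pos rfl, mul_one] at hfin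
  obtain ⟨h, α, β, e⟩ := hfin
  refine H.obs (a 0) (a 2) (a 3) (eval a b) (-α) (-β) h0 h2 h3 ?_ hL h ?_
  · intro n hn
    apply h1 n
    linear_combination hs - hn
  · rw [← hom, e]
    simp only [map_neg]
    ring

end Pool.Agent.H869Z.BS
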